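import Pool.Agent.P.MP_dd457d_ag.Bcv.SP
import Pool.Agent.P.MP_dd457d_ag.Bav.MainP

/-! The package of an abelian variety with a power of Frobenius. -/

set_option autoImplicit false

noncomputable section

namespace Pool.Agent.Bcv

open MvPolynomial Function Pool.Agent.Bav Pool.Agent.Tav Pool.Agent.Tav.Tr Pool.Agent.Tav.Tw

section tw
variable {K K' T : Type} [Field K] [Field K'] (t : K ≃+* K')

theorem nd_sub {σ : Type} (x : T → σ → K) :
    Sub (t : K →+* K') id 1 (crd x) (crd fun s l => t (x s l)) :=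
  Sub.span (by
    rintro _ ⟨l, rfl⟩
    exact ⟨_, Submodule.subset_span ⟨l, rfl⟩, fun s => by simp⟩)

theorem nd_sub' {σ : Type} (x : T → σ → K) :
    Sub (t.symm : K' →+* K) id 1 (crd fun s l => t (x s l)) (crd x) := by
  simpa using nd_sub t.symm fun s l => t (x s l)

theorem nd_hp {ι : Type} [Fintype ι] {L : ι → Submodule K (T → K)} {L' : ι → Submodule K' (T → K')}
    (h : ∀ i, Sub (t : K →+* K') id 1 (L i) (L' i) ∧ Sub (t.symm : K' →+* K) id 1 (L' i) (L i)) :
    Tav.hp L' = Tav.hp L := by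
  unfold Tav.hp
  congr 1
  funext P
  congr 2
  funext d
  refine congrArg (fun n : ℕ => _ = (n : ℚ)) (congrArg Cardinal.toNat (le_antisymm
    (rank_le t.symm (fun s => ?_) (Sub.prod _ fun i _ => (h i).2.pow (d i)))
    (rank_le t (fun s => ?_) (Sub.prod _ fun i _ => (h i).1.pow (d i))))) <;> simp

variable {G τ σ Λ : Type} [AddCommGroup G] [CommRing Λ] {g q : ℕ} {π : Λ}

/-- transport of the point data -/
def ndTw (P : PMod K G τ σ Λ g q π) : PMod K' G τ σ Λ g q π where
  p y l := t (P.p y l)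
  h y l := t (P.h y l)
  av := av_tw (t := t) (E := id) P.av (fun _ => Par.refl _) (fun v => ⟨v, Par.refl _⟩)
    fun _ _ => Par.refl _
  inj y y' e := P.inj y y' (by simpa using Par.map e (t.symm : K' →+* K))
  hne y e := P.hne y (funext fun l => by simpa using congrFun e l)
  hmor := rg_tw (t : K →+* K') id (L := ![crd P.p]) (fun i => by
    rw [Subsingleton.elim i 0]; exact sub_crd (t : K →+* K') id fun _ => Par.refl _) P.hmor
    fun _ => Par.refl _
  law := by
    obtain ⟨c, hc, h⟩ := P.law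
    refine ⟨fun s => t (c s), fun s => by simpa using hc s, fun i j => ?_⟩
    obtain ⟨u, hu, e⟩ := (((nd_sub t fun s : G × G => P.h s.1).pow 2).mul
      ((nd_sub t fun s : G × G => P.h s.2).pow 2)) _ (h i j)
    refine (congrArg (· ∈ _) (_root_.funext fun s => ?_)).mp hu
    simpa using e s
  act := P.act
  mor a := mor_tw (t : K →+* K') id (fun _ => Par.refl _) (P.mor a) fun _ => Par.refl _
  frob y := by simpa [Pi.pow_def] using Par.map (P.frob y) (t : K →+* K')
  tors := P.tors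

theorem ndTw_num {Γ : Type} [Fintype Γ] [DecidableEq Γ] {ρ : Γ → Λ →+* ℂ}
    {P : PMod K G τ σ Λ g q π} (h : P.Num ρ) : (ndTw t P).Num ρ := by
  have h1 : ∀ a, (ndTw t P).num1 a = P.num1 a := fun a =>
    congrArg (coeff _) (nd_hp t (Fin.forall_fin_two.2
      ⟨⟨nd_sub t _, nd_sub' t _⟩, nd_sub t _, nd_sub' t _⟩))
  have h2 : ∀ Z W a b, (ndTw t P).num2 Z W a b = P.num2 Z W a b := fun Z W a b =>
    congrArg (coeff _) (nd_hp t (Fin.forall_fin_succ.2 ⟨⟨nd_sub t _, nd_sub' t _⟩,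
      Fin.forall_fin_two.2 ⟨⟨nd_sub t _, nd_sub' t _⟩, nd_sub t _, nd_sub' t _⟩⟩))
  exact ⟨by rw [h1]; exact h.del, by simpa only [h1] using h.deg, by simpa only [h2] using h.alg⟩

end tw

theorem exists_pmod_pow (k : Type) [Field k] [Fintype k] {A τ : Type} [AddCommGroup A] [Fintype τ]
    {p : A → τ → AlgebraicClosure k} {g : ℕ} (av : Tav.AV p g)
    (inj : ∀ y y', Tav.Par (p y) (p y') → y = y') {e : ℕ} (he : e ≠ 0) {F : A →+ A}
    (hF : ∀ y, Tav.Par (p (F y)) (p y ^ Fintype.card k ^ e)) :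
    ∃ (L : Type) (_ : Field L) (_ : Fintype L) (_ : Algebra L (AlgebraicClosure k))
      (_ : Algebra.IsAlgebraic L (AlgebraicClosure k)), Fintype.card L = Fintype.card k ^ e ∧
      ∃ (σ Λ S : Type) (_ : Fintype σ) (_ : CommRing Λ) (_ : Fintype S) (_ : DecidableEq S)
        (ρ : S → Λ →+* ℂ) (_ : Module.Basis S ℤ Λ) (π : Λ)
        (P : PMod (AlgebraicClosure k) A τ σ Λ g (Fintype.card L) π),
        Injective ρ ∧ P.p = p ∧ P.Num ρ := by
  obtain ⟨l, _⟩ := CharP.exists k
  have : Fact l.Prime := ⟨CharP.char_is_prime k l⟩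
  have : NeZero e := ⟨he⟩
  let L := FiniteField.Extension k l e
  have : Finite L := Module.finite_of_finite k
  let _ := Fintype.ofFinite L
  have hL : Fintype.card L = Fintype.card k ^ e := by
    rw [← Nat.card_eq_fintype_card, ← Nat.card_eq_fintype_card]
    exact FiniteField.natCard_extension k l e
  let f : L →ₐ[k] AlgebraicClosure k := IsAlgClosed.lift
  let _ : Algebra L (AlgebraicClosure k) := f.toRingHom.toAlgebra
  have : IsScalarTower k L (AlgebraicClosure k) :=
    IsScalarTower.of_algebraMap_eq fun x => (f.commutes x).symm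
  have ha : Algebra.IsAlgebraic L (AlgebraicClosure k) := Algebra.IsAlgebraic.tower_top (K := k) L
  have : IsAlgClosure L (AlgebraicClosure k) := ⟨inferInstance, ha⟩
  let t := (IsAlgClosure.equiv L (AlgebraicClosure k) (AlgebraicClosure L)).toRingEquiv
  obtain ⟨σ, Λ, S, _, _, _, _, ρ, b, π, P, hρ, -, hp, -, hN⟩ := hasP L
    (p := fun y l => t (p y l)) (F := F)
    (av_tw (t := t) (E := id) av (fun _ => Par.refl _) (fun v => ⟨v, Par.refl _⟩)
      fun _ _ => Par.refl _)
    (fun y y' e => inj y y' (by simpa using Par.map e (t.symm : _ →+* AlgebraicClosure k)))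
    fun y => by
      simpa [Pi.pow_def, hL] using Par.map (hF y) (t : AlgebraicClosure k →+* AlgebraicClosure L)
  exact ⟨L, inferInstance, inferInstance, inferInstance, ha, hL, σ, Λ, S, inferInstance,
    inferInstance, inferInstance, inferInstance, ρ, b, π, ndTw t.symm P, hρ,
    funext fun y => funext fun l => by simp [ndTw, hp], ndTw_num _ hN⟩

theorem av_pkg_pow (k : Type) [Field k] [Fintype k] {τ : Type} [Fintype τ] {A : Type}
    [AddCommGroup A] {p : A → τ → AlgebraicClosure k} {g : ℕ} (av : Tav.AV p g)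
    (inj : ∀ y y', Tav.Par (p y) (p y') → y = y') {e : ℕ} (he : e ≠ 0) {F : A →+ A}
    (hF : ∀ y, Tav.Par (p (F y)) (p y ^ Fintype.card k ^ e))
    (Γ : Geo (Tav.idl p) A) (hΓ : Γ.p = p) :
    (fun n => cy (Tav.idl p) (IX (Tav.idl p) (Unit ⊕ Unit) ⊔
      Pav.gS τ _ ((Fintype.card k ^ e) ^ n)) 0) ∈ SP (Bx (Tav.idl p)) (Fintype.card k ^ e) ∧
    ∃ (σ : Type) (_ : Fintype σ) (h : A → σ → AlgebraicClosure k) (c : ℂ), c ≠ 0 ∧
      (∀ y, h y ≠ 0) ∧ Tav.Mor p h id ∧
      (lg (Γ.twF fun t : Unit → A => h (t ())) ^ g) (Γ.cT Set.univ 0) = c • Γ.cT {0} 0 := by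
  obtain ⟨L, _, _, _, _, hL, σ, Λ, S, _, _, _, _, ρ, b, π, P, hρ, rfl, hN⟩ :=
    exists_pmod_pow k av inj he hF
  rw [← hL]
  exact pmod_pkg L P b hρ hN Γ hΓ

end Pool.Agent.Bcv
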