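import Pool.Agent.P.MP_dd457d_ag.Bcv.Rst
import Pool.Agent.P.MP_dd457d_ag.Bav.KPush

/-! Extension by zero from an open and closed part. -/

set_option autoImplicit false
set_option linter.unusedSectionVars false

noncomputable section

namespace Pool.Agent.Bav

open MvPolynomial Function Filter

variable {σ τ k ι κ X Y A : Type} [Field k] {I : Ideal (MvPolynomial σ k)}
  {J : Ideal (MvPolynomial τ k)} {u : τ → σ}

theorem kl_rn (hu : Injective u) (a : ι → κ) (f : S σ k ι) :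
    kl k κ u (rn a f) = rn a (kl k ι u f) :=
  AlgHom.congr_fun (show (kl k κ u).comp (rn a) = (rn a).comp (kl k ι u) from
    algHom_ext fun ⟨i, l⟩ => by
      rw [AlgHom.comp_apply, AlgHom.comp_apply, rn_X]
      by_cases h : ∃ t, u t = l
      · obtain ⟨t, rfl⟩ := h
        rw [kl_on hu, kl_on hu, rn_X]
      · rw [kl_off _ h, kl_off _ h, map_zero]) f

namespace OPart

variable {Γ : Geo I X} {Δ : Geo J Y} {j : Y → X} (h : OPart Γ Δ u j)

/-- a module on the part as a module on the whole -/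
def extM (M : GM J ι) : GM I ι :=
  letI : Module (S σ k ι) M.M := Module.compHom M.M (kl k ι u).toRingHom
  { M := M.M
    tower := ⟨fun a f x => by
      change kl k ι u (a • f) • x = a • kl k ι u f • x
      rw [map_smul, smul_assoc]⟩
    fg := by
      obtain ⟨s, hs⟩ := M.fg.fg_top
      refine ⟨s, eq_top_iff.2 fun x hx => ?_⟩
      have hx' : x ∈ Submodule.span (S τ k ι) (s : Set M.M) := hs ▸ trivial
      clear hx
      induction hx' using Submodule.span_induction with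
      | mem x hx => exact Submodule.subset_span hx
      | zero => exact zero_mem _
      | add a b _ _ ha hb => exact add_mem ha hb
      | smul a x _ hx =>
        obtain ⟨b, rfl⟩ := kl_surj h.inj a
        exact Submodule.smul_mem _ b hx
    π := M.π
    π_self := M.π_self
    π_ne := M.π_ne
    sum_π := M.sum_π
    π_X := fun v d x => M.π_smul ((hg_X v).kl h.inj) d x
    kil := fun i _ hf x => GM.mem_ann.1 (M.IX_le_ann (h.IX_comap (blk_mem i hf))) x }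

/-- maps of extended modules -/
def extL {M N : GM J ι} (f : M.M →ₗ[S τ k ι] N.M) : (h.extM M).M →ₗ[S σ k ι] (h.extM N).M where
  toFun := f
  map_add' := f.map_add
  map_smul' s x := f.map_smul (kl k ι u s) x

theorem exists_ext (ι : Type) :
    ∃ F : G J ι →ₗ[ℂ] G I ι, ∀ M, F (cls M) = cls (h.extM M) :=
  exists_lift _ (fun _ _ _ f g hs => cls_ses (f := ⟨h.extL f.f, f.π⟩) (g := ⟨h.extL g.f, g.π⟩) hs)
    fun _ hM => cls_tors hM

/-- extension by zero -/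
def ext (ι : Type) : G J ι →ₗ[ℂ] G I ι := (h.exists_ext ι).choose

theorem ext_cls (M : GM J ι) : h.ext ι (cls M) = cls (h.extM M) := (h.exists_ext ι).choose_spec M

theorem ext_shG (n : ι → ℤ) (x : G J ι) : h.ext ι (shG n x) = shG n (h.ext ι x) :=
  LinearMap.congr_fun (G.ext (F := h.ext ι ∘ₗ shG n) (F' := shG n ∘ₗ h.ext ι) fun M => by
    rw [LinearMap.comp_apply, LinearMap.comp_apply, shG_cls, h.ext_cls, h.ext_cls, shG_cls]
    rfl) x

include h

theorem crd_pad {T : Type} (s : T → Y) :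
    (Tav.crd fun t => Γ.p (j (s t))) = Tav.crd fun t => Δ.p (s t) := by
  refine le_antisymm (Submodule.span_le.2 ?_) (Submodule.span_le.2 ?_)
  · rintro _ ⟨l, rfl⟩
    by_cases e : ∃ t, u t = l
    · obtain ⟨t, rfl⟩ := e
      simp only [h.p_on]
      exact mem_crd (fun x => Δ.p (s x)) t
    · simp only [h.pon, extend_apply' _ _ _ e]
      exact zero_mem _
  · rintro _ ⟨t, rfl⟩
    simp only [← h.p_on]
    exact mem_crd (fun x => Γ.p (j (s x))) (u t)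

variable [Fintype ι] [Fintype κ]

theorem regF_res {f : (ι → X) → A → k} (hf : Γ.RegF f) : Δ.RegF fun y => f (j ∘ y) := by
  refine ⟨fun y => hf.ne _, ?_⟩
  rw [← crd_pb f (j ∘ ·)]
  refine rg_comp _ hf.rg fun b => ?_
  rw [crd_pb (fun t : ι → X => Γ.p (t b)) (j ∘ ·)]
  exact (h.crd_pad fun t : ι → Y => t b).symm ▸
    rg_self (fun i => Tav.crd fun t : ι → Y => Δ.p (t i)) b

/-- a retraction to the part is regular -/
theorem regF_ret {r : X → Y} (hr : ∀ y, r (j y) = y) {o : Y} (ho : ∀ x, x ∉ Set.range j → r x = o)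
    (i : ι) : Γ.RegF fun x : ι → X => Δ.p (r (x i)) := by
  classical
  have hp : ∀ n : ℕ, ∏ b, (Tav.crd fun t : ι → X => Γ.p (t b)) ^ (Pi.single i n : ι → ℕ) b =
      (Tav.crd fun t : ι → X => Γ.p (t i)) ^ n := fun n => by
    rw [Finset.prod_eq_single i (fun b _ hb => by rw [Pi.single_eq_of_ne hb, pow_zero])
      (fun e => absurd (Finset.mem_univ i) e), Pi.single_eq_same]
  refine ⟨fun _ => Δ.ne _, rg_crd fun x => ?_⟩
  by_cases e : x i ∈ Set.range j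
  · obtain ⟨y, hy⟩ := e
    obtain ⟨a, ha⟩ := Function.ne_iff.1 (Δ.ne y)
    have h0 : Γ.p (x i) (u a) ≠ 0 := by rwa [← hy, h.p_on]
    refine ⟨Pi.single i 2, fun t => Γ.p (t i) (u a), IsUnit.mk0 _ h0, fun b => ?_⟩
    have e2 : ((fun t : ι → X => Γ.p (t i) (u a)) * fun t => Δ.p (r (t i)) b) =
        (fun t : ι → X => Γ.p (t i) (u a)) * fun t => Γ.p (t i) (u b) := funext fun t => by
      rw [Pi.mul_apply, Pi.mul_apply]
      by_cases e : t i ∈ Set.range j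
      · obtain ⟨y', hy'⟩ := e
        rw [← hy', hr, h.p_on y' b]
      · rw [h.poff _ e, zero_mul, zero_mul]
    rw [hp, sq, e2]
    exact Submodule.mul_mem_mul (mem_crd (fun t : ι → X => Γ.p (t i)) (u a))
      (mem_crd (fun t : ι → X => Γ.p (t i)) (u b))
  · obtain ⟨l, hl⟩ := Function.ne_iff.1 (Γ.ne (x i))
    have e1 : ¬∃ t, u t = l := by
      rintro ⟨t, rfl⟩
      exact hl (h.poff _ e t)
    refine ⟨Pi.single i 1, fun t => Γ.p (t i) l, IsUnit.mk0 _ hl, fun b => ?_⟩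
    have e2 : ((fun t : ι → X => Γ.p (t i) l) * fun t => Δ.p (r (t i)) b) =
        Δ.p o b • fun t : ι → X => Γ.p (t i) l := funext fun t => by
      rw [Pi.mul_apply, Pi.smul_apply, smul_eq_mul]
      by_cases e : t i ∈ Set.range j
      · obtain ⟨y', hy'⟩ := e
        rw [← hy', h.pon, extend_apply' _ _ _ e1, Pi.zero_apply, zero_mul, mul_zero]
      · rw [ho _ e, mul_comm]
    rw [hp, pow_one, e2]
    exact Submodule.smul_mem _ _ (mem_crd (fun t : ι → X => Γ.p (t i)) l)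

omit h in
/-- regular maps extend along maps to the part -/
theorem regF_ext {g : (κ → Y) → A → k} (hg : Δ.RegF g) {φ : (ι → X) → κ → Y}
    (hφ : ∀ b, Γ.RegF fun x => Δ.p (φ x b)) : Γ.RegF fun x => g (φ x) := by
  refine ⟨fun x => hg.ne _, ?_⟩
  rw [← crd_pb g φ]
  exact rg_comp φ hg.rg fun b => by
    rw [crd_pb (fun t : κ → Y => Δ.p (t b)) φ]
    exact (hφ b).rg

theorem regF_pad {φ : (ι → X) → Y} (hφ : Γ.RegF fun x => Δ.p (φ x)) :
    Γ.RegF fun x => Γ.p (j (φ x)) := ⟨fun _ => Γ.ne _, (h.crd_pad φ).symm ▸ hφ.rg⟩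

variable [IsAlgClosed k] [Fintype σ] [Fintype τ] [Fintype A]

theorem chi_ext (x : G J ι) : chi (h.ext ι x) = chi x :=
  LinearMap.congr_fun (G.ext_ev (F := chi ∘ₗ h.ext ι) (F' := chi) fun M =>
    ((chi_spec (h.extM M)).and (chi_spec M)).mono fun d hd => by
      rw [LinearMap.comp_apply, h.ext_shG, h.ext_cls, hd.1, hd.2]
      rfl) x

theorem ext_cy {L : Ideal (S τ k ι)} (hL : GrI L) (hF : IX J ι ≤ L) (n : ι → ℤ) :
    h.ext ι (cy J L n) = cy I (L.comap (kl k ι u)) n := by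
  obtain ⟨M, x, hx, e⟩ := exists_cy hL hF n
  rw [e, h.ext_cls]
  refine IsCyc.cls_eq (x := x) ⟨hx.deg, fun y => ?_, fun f => hx.ann _⟩
  obtain ⟨f, rfl⟩ := hx.gen y
  obtain ⟨g, rfl⟩ := kl_surj h.inj f
  exact ⟨g, rfl⟩

theorem comap_VI (T : Set (ι → Y)) : (Δ.VI T).comap (kl k ι u) = Γ.VI ((j ∘ ·) '' T) := by
  have hg : GrI ((Δ.VI T).comap (kl k ι u)) :=
    GrW.comap (Δ.grI_VI T) _ (AddMonoidHom.id _) (fun _ _ e => e) (kl_wt h.inj)
  refine le_antisymm ((Γ.le_VI hg).2 ?_) ((Γ.grI_VI _).le_of_hom fun f d hf hv => ?_)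
  · rintro _ ⟨y, hy, rfl⟩ f hf
    rw [← h.ev_kl]
    exact Δ.ev_of_VI hf hy
  · exact (Δ.mem_VI (Hg.kl h.inj hf)).2 fun y hy => by
      rw [h.ev_kl]
      exact Γ.ev_of_VI hv ⟨y, hy, rfl⟩

theorem ext_cT (T : Set (ι → Y)) (n : ι → ℤ) :
    h.ext ι (Δ.cT T n) = Γ.cT ((j ∘ ·) '' T) n := by
  rw [Geo.cT, h.ext_cy (Δ.grI_VI T) (Δ.IX_le_VI T), h.comap_VI, Geo.cT]

theorem rst_ext (x : G J ι) : h.rst ι (h.ext ι x) = x := by
  refine Δ.supp_ext Δ.cl_univ (F := h.rst ι ∘ₗ h.ext ι) (F' := LinearMap.id) (fun Z n _ => ?_)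
    (Δ.mem_supp_univ x)
  rw [LinearMap.comp_apply, h.ext_cT, h.rst_cT]
  exact congrArg (Δ.cT · n) (Set.preimage_image_eq Z h.j_inj.comp_left)

theorem ext_box (x : G J ι) (y : G J κ) :
    h.ext (ι ⊕ κ) (boxG x y) = boxG (h.ext ι x) (h.ext κ y) := by
  refine Δ.supp_ext Δ.cl_univ (F := h.ext (ι ⊕ κ) ∘ₗ boxG.flip y)
    (F' := boxG.flip (h.ext κ y) ∘ₗ h.ext ι) (fun Z n _ => ?_) (Δ.mem_supp_univ x)
  refine Δ.supp_ext Δ.cl_univ (F := h.ext (ι ⊕ κ) ∘ₗ boxG (Δ.cT Z n))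
    (F' := boxG (h.ext ι (Δ.cT Z n)) ∘ₗ h.ext κ) (fun W m _ => ?_) (Δ.mem_supp_univ y)
  rw [LinearMap.comp_apply, LinearMap.comp_apply, Δ.box_cT, h.ext_cT, h.ext_cT, h.ext_cT, Γ.box_cT]
  congr 1
  ext t
  constructor
  · rintro ⟨s, ⟨h1, h2⟩, rfl⟩
    exact ⟨⟨_, h1, rfl⟩, _, h2, rfl⟩
  · rintro ⟨⟨a, ha, e1⟩, b, hb, e2⟩
    refine ⟨Sum.elim a b, ⟨ha, hb⟩, funext ?_⟩
    rintro (i | i)
    exacts [congrFun e1 i, congrFun e2 i]

theorem ext_supp {T : Set (ι → Y)} {x : G J ι} (hx : x ∈ Δ.Supp T) :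
    h.ext ι x ∈ Γ.Supp ((j ∘ ·) '' T) := by
  refine (Submodule.span_le (p := (Γ.Supp _).comap (h.ext ι))).2 ?_ hx
  rintro _ ⟨M, hM, rfl⟩
  rw [SetLike.mem_coe, Submodule.mem_comap, h.ext_cls]
  exact Submodule.subset_span ⟨_, h.comap_VI T ▸ fun f hf =>
    GM.mem_ann.2 (GM.mem_ann.1 (hM hf)), rfl⟩

theorem cl_range : Γ.Cl (Set.range (j ∘ · : (ι → Y) → ι → X)) := fun x hx => by
  have e : ∀ i, x i ∈ Set.range j := fun i => by
    by_contra e
    obtain ⟨l, hl⟩ := Function.ne_iff.1 (Γ.ne (x i))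
    refine hl ((Γ.ev_X x (i, l)).symm.trans (hx _ ((Γ.mem_VI (hg_X (i, l))).2 ?_)))
    rintro _ ⟨y, rfl⟩
    refine (Γ.ev_X _ _).trans ((congrFun (h.pon (y i)) l).trans (extend_apply' _ _ _ ?_))
    rintro ⟨t, rfl⟩
    exact hl (h.poff _ e t)
  choose y hy using e
  exact ⟨y, funext hy⟩

theorem ext_rst {x : G I ι} (hx : x ∈ Γ.Supp (Set.range (j ∘ · : (ι → Y) → ι → X))) :
    h.ext ι (h.rst ι x) = x := by
  refine Γ.supp_ext h.cl_range (F := h.ext ι ∘ₗ h.rst ι) (F' := LinearMap.id) (fun Z n hZ => ?_) hx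
  rw [LinearMap.comp_apply, h.rst_cT, h.ext_cT]
  exact congrArg (Γ.cT · n) (Set.image_preimage_eq_of_subset hZ)

/-- the restriction of charts -/
def resD (D : TD I ι A) : TD J ι A where
  C := D.C
  P c a := kl k ι u (D.P c a)
  e := D.e
  hg c a := (D.hg c a).kl h.inj
  mnr c c' a b := by simpa only [Ideal.mem_comap, map_sub, map_mul] using h.IX_comap (D.mnr c c' a b)
  irr α := by
    obtain ⟨N, hN⟩ := D.irr (u ∘ α)
    refine ⟨N, ?_⟩
    rw [← kl_ik h.inj (_ ^ N), map_pow, ik_mono]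
    refine (sup_le (h.IX_comap.trans (Ideal.comap_mono le_sup_left)) (Ideal.span_le.2 ?_) :
      _ ≤ Ideal.comap (kl k ι u) _) hN
    rintro _ ⟨c, a, rfl⟩
    exact Ideal.mem_sup_right (Ideal.subset_span ⟨c, a, rfl⟩)

theorem ext_twF {f : (ι → X) → A → k} (hf : Γ.RegF f) (x : G J ι) :
    h.ext ι (Δ.twF (fun y => f (j ∘ y)) x) = Γ.twF f (h.ext ι x) := by
  obtain ⟨D, hD⟩ := hf.exists_td
  have hD' : Δ.IsCh (h.resD D) fun y => f (j ∘ y) := fun c y =>
    (hD c (j ∘ y)).imp fun l hl a => (h.ev_kl y _).trans (hl a)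
  rw [hD.twF_eq, hD'.twF_eq]
  refine LinearMap.congr_fun (G.ext (F := h.ext ι ∘ₗ (h.resD D).L) (F' := D.L ∘ₗ h.ext ι)
    fun M => ?_) x
  obtain ⟨T, -, ⟨t⟩⟩ := (h.resD D).exists_tw M
  rw [LinearMap.comp_apply, LinearMap.comp_apply, TD.L_cls _ t, h.ext_cls, h.ext_cls]
  exact (D.L_cls ⟨fun a => ⟨h.extL (t.j a).f, (t.j a).π⟩, fun c => h.extL (t.ev c), t.ej, t.je⟩).symm

theorem ext_fgt (a : ι → κ) (ha : Injective a) (x : G J κ) :
    h.ext ι (fgt a ha x) = fgt a ha (h.ext κ x) :=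
  LinearMap.congr_fun (G.ext_ev (F := h.ext ι ∘ₗ fgt a ha) (F' := fgt a ha ∘ₗ h.ext κ) fun M =>
    ((fgt_spec a ha (h.extM M)).and (fgt_spec a ha M)).mono fun d hd => by
      obtain ⟨N, i, hi⟩ := exists_isPull (reD J a ha d) M
      rw [LinearMap.comp_apply, LinearMap.comp_apply, h.ext_shG, h.ext_cls, hd.1, hd.2,
        ← hi.cls_eq, h.ext_cls]
      refine IsPull.cls_eq (j := i) ⟨hi.inj, fun f y => ?_, hi.π, hi.surj⟩
      refine (hi.smul (kl k ι u f) y).trans ?_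
      rw [reD_φ, reD_φ, ← kl_rn h.inj]
      rfl) x

theorem ext_pushM {φ : (ι → Y) → κ → Y} (hφ : Δ.RegM φ) {ψ : (ι → X) → κ → X} (hψ : Γ.RegM ψ)
    (e : ∀ y, ψ (j ∘ y) = j ∘ φ y) (x : G J ι) :
    h.ext κ (Δ.pushM φ x) = Γ.pushM ψ (h.ext ι x) := by
  refine Δ.supp_ext Δ.cl_univ (F := h.ext κ ∘ₗ Δ.pushM φ) (F' := Γ.pushM ψ ∘ₗ h.ext ι)
    (fun Z n _ => ?_) (Δ.mem_supp_univ x)
  rw [LinearMap.comp_apply, LinearMap.comp_apply, h.ext_cT, Δ.pushM_cT hφ, Γ.pushM_cT hψ,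
    h.ext_fgt, h.ext_cT, Set.image_image, Set.image_image]
  congr 3
  funext y
  rw [e, Sum.comp_elim]

end OPart

end Pool.Agent.Bav
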