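import Pool.Agent.P.MP_dd457d_ag.Bav.KPush

/-! Push-forward is onto the classes supported on the image. -/

set_option autoImplicit false

noncomputable section

namespace Pool.Agent.Bav

open MvPolynomial Function Filter

variable {σ k ι κ X : Type} [Field k] {I : Ideal (MvPolynomial σ k)}

/-- a slice of `P M` lies in `P` times the slice of `M` -/
theorem IsPull.onto_mem {D : PD I κ ι} {M : GM I ι} {N : GM I κ} {j : N.M →ₗ[k] M.M}
    (h : IsPull D M N j) {P : Ideal (S σ k κ)} (hP : GrI P) {y : N.M}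
    (hy : j y ∈ P.map D.φ • (⊤ : Submodule (S σ k ι) M.M)) :
    y ∈ P • (⊤ : Submodule (S σ k κ) N.M) := by
  have key : ∀ r ∈ P.map D.φ, ∀ (m : M.M) (e : κ → ℤ),
      ∃ z ∈ P • (⊤ : Submodule (S σ k κ) N.M), j z = M.π (D.val e) (r • m) := by
    intro r hr
    rw [← GrW.eq_core hP, core, Ideal.map_span] at hr
    induction hr using Submodule.span_induction with
    | mem r hr =>
      obtain ⟨f, ⟨hf, c, hc⟩, rfl⟩ := hr
      intro m e
      obtain ⟨w, hw⟩ := h.surj (e - c) m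
      refine ⟨f • w, Submodule.smul_mem_smul hf Submodule.mem_top, ?_⟩
      rw [h.smul, hw, ← M.π_smul (D.hg_φ hc), ← D.val_add, sub_add_cancel]
    | zero => exact fun m e => ⟨0, Submodule.zero_mem _, by rw [zero_smul, map_zero, map_zero]⟩
    | add r r' _ _ h1 h2 =>
      intro m e
      obtain ⟨z, a, b⟩ := h1 m e
      obtain ⟨z', a', b'⟩ := h2 m e
      exact ⟨z + z', Submodule.add_mem _ a a', by rw [map_add, b, b', add_smul, map_add]⟩
    | smul a r _ h1 =>
      intro m e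
      rw [smul_eq_mul, mul_comm, mul_smul]
      exact h1 _ e
  have key2 : ∀ e : κ → ℤ,
      ∃ z ∈ P • (⊤ : Submodule (S σ k κ) N.M), j z = M.π (D.val e) (j y) := by
    refine Submodule.smul_induction_on (p := fun m => ∀ e : κ → ℤ,
      ∃ z ∈ P • (⊤ : Submodule (S σ k κ) N.M), j z = M.π (D.val e) m) hy
      (fun r hr m _ => key r hr m) fun m m' h1 h2 e => ?_
    obtain ⟨z, a, b⟩ := h1 e
    obtain ⟨z', a', b'⟩ := h2 e
    exact ⟨z + z', Submodule.add_mem _ a a', by rw [map_add, b, b', map_add]⟩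
  obtain ⟨s, hs⟩ := N.sum_π y
  rw [← hs]
  refine Submodule.sum_mem _ fun e _ => ?_
  obtain ⟨z, a, b⟩ := key2 e
  rw [← h.π] at b
  exact h.inj b ▸ a

variable [Fintype σ] [Fintype ι] [Fintype κ]

/-- a module whose annihilator is the prime `P`, in a subspace that has all larger primes -/
theorem onto_step {V : Type*} [AddCommGroup V] [Module ℂ V] {e : G I κ →ₗ[ℂ] V}
    {P : Ideal (S σ k κ)} (hP : Pr I P) (ih : ∀ Q, P < Q → Pr I Q → ∀ n, e (cy I Q n) = 0)
    {N : GM I κ} (h1 : P ≤ N.ann) (h2 : N.ann ≤ P) (h0 : e (cls N) = 0) (n : κ → ℤ) :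
    e (cy I P n) = 0 := by
  classical
  by_cases hi : Irr P
  · rw [cy_irr hi, map_zero]
  obtain ⟨α, hα⟩ := exists_var_notMem hP.prime hi
  have hs : ∀ m, e (cy I P m) = e (cy I P n) := fun m =>
    cy_shift hP.gr hP.prime hP.le α hα (fun i => kil_of_primes fun Q l a b c d =>
      ih Q (lt_of_le_of_ne (le_sup_left.trans d) fun hh => hα i
        (hh ▸ d (Ideal.mem_sup_right (Ideal.mem_span_singleton_self _)))) ⟨a, b, c⟩ l) m n
  obtain ⟨r, Q, s, a1, a2, a3⟩ := dv N
  obtain ⟨i₀, hi₀⟩ := a2 P hP.prime h2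
  have ht : ∀ i, e (cy I (Q i) (s i)) = (if Q i = P then (1 : ℂ) else 0) • e (cy I P n) := by
    intro i
    split_ifs with hq
    · rw [hq, hs, one_smul]
    · rw [zero_smul]
      exact ih _ (lt_of_le_of_ne (h1.trans (a1 i).2.2) fun hh => hq hh.symm)
        ⟨(a1 i).1, (a1 i).2.1, N.IX_le_ann.trans (a1 i).2.2⟩ _
  rw [a3, map_sum, Finset.sum_congr rfl fun i _ => ht i, ← Finset.sum_smul, Finset.sum_boole,
    smul_eq_zero] at h0
  refine h0.resolve_left (Nat.cast_ne_zero.2 (Finset.card_ne_zero.2 ⟨i₀, ?_⟩))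
  exact Finset.mem_filter.2 ⟨Finset.mem_univ _, le_antisymm hi₀ (h1.trans (a1 i₀).2.2)⟩

namespace Geo

variable [IsAlgClosed k] (Γ : Geo I X)

/-- the slices of the coordinate ring of `T` are faithful over the image of `T` -/
theorem onto_ann (u : κ → ι) (hu : Injective u) (T : Set (ι → X)) {M : GM I ι} {x : M.M}
    (hM : IsCyc (Γ.VI T) 0 M x) (r : ℕ) {N : GM I κ} {j : N.M →ₗ[k] M.M}
    (h : IsPull (reD I u hu fun _ => (r : ℤ)) M N j) : N.ann ≤ Γ.VI ((· ∘ u) '' T) := by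
  rw [Γ.le_VI N.grI_ann]
  rintro _ ⟨t, ht, rfl⟩ f hf
  choose α hα using fun i => ne_iff.1 (Γ.ne (t i))
  have h0 : M.π 0 x = x := by simpa only [neg_zero] using hM.deg
  have h1 : M.π (fun _ => (r : ℤ)) (mono k α ^ r • x) = mono k α ^ r • x := by
    have := M.π_smul (basic_hg_mono (k := k) α r) 0 x
    rwa [zero_add, h0] at this
  obtain ⟨y, hy⟩ := h.surj 0 (mono k α ^ r • x)
  rw [PD.pullA_val_zero] at hy
  replace hy : j y = mono k α ^ r • x := hy.trans h1
  have h2 := h.smul f y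
  rw [GM.mem_ann.1 hf y, map_zero, hy, ← mul_smul, reD_φ] at h2
  have h3 := Γ.ev_of_VI ((hM.ann _).1 h2.symm) ht
  rw [map_mul, Γ.ev_rn, map_pow, Γ.ev_mono] at h3
  exact (mul_eq_zero.1 h3).resolve_right
    (pow_ne_zero _ (Finset.prod_ne_zero_iff.2 fun i _ => hα i))

/-- forgetting slots is onto the classes supported on the image -/
theorem fgt_onto (u : κ → ι) (hu : Injective u) (T : Set (ι → X)) :
    Γ.Supp ((· ∘ u) '' T) ≤ (Γ.Supp T).map (fgt u hu) := by
  classical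
  set W := (Γ.Supp T).map (fgt u hu) with hW
  have main : ∀ P : Ideal (S σ k κ), Pr I P → Γ.VI ((· ∘ u) '' T) ≤ P →
      ∀ n, W.mkQ (cy I P n) = 0 := by
    intro P
    induction P using IsNoetherian.induction with
    | hgt P ih =>
    intro hP hl
    obtain ⟨M, x, hM⟩ := exists_cyc (Γ.grI_VI T) (Γ.IX_le_VI T) 0
    have hg := gr_smul_top M (hP.gr.map_rn hu)
    obtain ⟨d₀, hd⟩ := eventually_atTop.1 (fgt_spec u hu (M.quo _ hg))
    obtain ⟨r, hr⟩ : ∃ r : ℕ, d₀ ≤ fun _ => (r : ℤ) :=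
      ⟨∑ i, (d₀ i).toNat, fun i => (Int.self_le_toNat _).trans (Int.ofNat_le.2
        (Finset.single_le_sum (f := fun i => (d₀ i).toNat) (fun _ _ => Nat.zero_le _)
          (Finset.mem_univ i)))⟩
    obtain ⟨N, j, h⟩ := exists_isPull (reD I u hu fun _ => (r : ℤ)) M
    obtain ⟨N', j', h'⟩ := exists_isPull (reD I u hu fun _ => (r : ℤ)) (M.quo _ hg)
    obtain ⟨g, g1, g2, -⟩ := h.exists_hom h' (M.quop _ hg)
    replace g2 := g2 (Submodule.mkQ_surjective _)
    refine onto_step hP (fun Q a b => ih Q a b (hl.trans a.le)) (N := N') ?_ ?_ ?_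
    · refine fun f hf => GM.mem_ann.2 fun y => h'.inj ?_
      obtain ⟨z, rfl⟩ := g2 y
      rw [h'.smul, map_zero, g1, ← map_smul, reD_φ]
      exact (Submodule.Quotient.mk_eq_zero _).2
        (Submodule.smul_mem_smul (Ideal.mem_map_of_mem _ hf) Submodule.mem_top)
    · have h1 : (⟨P, hP.prime⟩ : PrimeSpectrum _) ∈ Module.support (S σ k κ)
          (N.M ⧸ (P • ⊤ : Submodule (S σ k κ) N.M)) := by
        rw [Module.support_quotient]
        exact ⟨Module.mem_support_iff_of_finite.2 ((Γ.onto_ann u hu T hM r h).trans hl),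
          fun _ a => a⟩
      refine le_trans (fun f hf => Module.mem_annihilator.2 fun y => ?_)
        (Module.mem_support_iff_of_finite.1 h1)
      obtain ⟨z, rfl⟩ := Submodule.mkQ_surjective _ y
      rw [← map_smul]
      refine (Submodule.Quotient.mk_eq_zero _).2 (h.onto_mem hP.gr ?_)
      have e1 := g1 (f • z)
      rw [map_smul, GM.mem_ann.1 hf, map_zero] at e1
      rw [reD_φ]
      exact (Submodule.Quotient.mk_eq_zero _).1 e1.symm
    · refine (Submodule.Quotient.mk_eq_zero _).2 ⟨_, ?_, (hd _ hr).trans h'.cls_eq.symm⟩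
      refine Γ.shG_supp (kpt_cls fun f hf => GM.mem_ann.2 fun y => ?_) _
      obtain ⟨z, rfl⟩ := Submodule.mkQ_surjective _ y
      exact ((M.quop _ hg).f.map_smul f z).symm.trans
        (by rw [GM.mem_ann.1 (hM.ann_eq.ge hf), map_zero])
  exact kpt_primes fun P n a b => (Submodule.Quotient.mk_eq_zero _).1 (main P a b n)

/-- push-forward is onto the classes supported on the image -/
theorem pushM_onto {φ : (ι → X) → κ → X} (h : Γ.RegM φ) (T : Set (ι → X)) :
    Γ.Supp (φ '' T) ≤ (Γ.Supp T).map (Γ.pushM φ) := by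
  intro x hx
  obtain ⟨z, hz, rfl⟩ := Γ.fgt_onto Sum.inr Sum.inr_injective
    ((fun t => Sum.elim t (φ t)) '' T) (Γ.Supp_mono (by
      rintro _ ⟨t, ht, rfl⟩
      exact ⟨_, ⟨t, ht, rfl⟩, rfl⟩) hx)
  refine ⟨fgt Sum.inl Sum.inl_injective z, Γ.Supp_mono ?_ (Γ.fgt_supp _ _ hz),
    Γ.pushM_char h _ _ (Γ.Supp_mono ?_ hz)⟩
  · rintro _ ⟨_, ⟨t, ht, rfl⟩, rfl⟩
    exact ht
  · rintro _ ⟨t, -, rfl⟩
    rfl

end Geo

end Pool.Agent.Bav
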