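import Pool.Agent.P.MP_dd457d_ag.Bcv.Ext

/-! Disjoint unions of projective schemes, and the points of an ideal. -/

set_option autoImplicit false

noncomputable section

namespace Pool.Agent.Bav

open MvPolynomial Function

variable {σ τ μ k X Y Z : Type} [Field k] {I : Ideal (MvPolynomial σ k)}
  {J : Ideal (MvPolynomial τ k)} {L : Ideal (MvPolynomial μ k)}

theorem eval_rename_ext {u : τ → σ} (z : σ → k) (f : MvPolynomial τ k) :
    eval z (rename u f) = eval (z ∘ u) f := eval_rename _ _ _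

/-- every coordinate belongs to a part -/
def Parts (P : X → σ → k) : Prop :=
  ∀ l : σ, ∃ (τ Y : Type) (J : Ideal (MvPolynomial τ k)) (Δ : Geo J Y) (u : τ → σ) (j : Y → X),
    Injective u ∧ l ∈ Set.range u ∧ (∀ y, P (j y) = extend u (Δ.p y) 0) ∧
      ∀ x, x ∉ Set.range j → ∀ t, P x (u t) = 0

/-- a union of parts -/
def Geo.ofParts (P : X → σ → k) (ne : ∀ x, P x ≠ 0) (H : Parts P) : Geo (Tav.idl P) X where
  p := P
  ne := ne
  idl := rfl
  inj x x' := by
    rintro ⟨c, hc, e⟩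
    obtain ⟨l, hl⟩ := Function.ne_iff.1 (ne x)
    obtain ⟨τ, Y, J, Δ, u, j, hu, ⟨t, rfl⟩, h1, h2⟩ := H l
    obtain ⟨y, rfl⟩ : x ∈ Set.range j := by_contra fun h => hl (h2 _ h t)
    obtain ⟨y', rfl⟩ : x' ∈ Set.range j := by_contra fun h => hl (by
      rw [e, Pi.smul_apply, h2 _ h t, smul_zero]; rfl)
    refine congrArg j (Δ.inj y y' ⟨c, hc, funext fun s => ?_⟩)
    have := congrFun e (u s)
    rwa [Pi.smul_apply, h1, h1, hu.extend_apply, hu.extend_apply] at this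
  cl z hz h0 := by
    obtain ⟨l, hl⟩ := Function.ne_iff.1 h0
    obtain ⟨τ, Y, J, Δ, u, j, hu, ⟨t, rfl⟩, h1, h2⟩ := H l
    have key : ∀ g : MvPolynomial σ k, (∀ (c : k) y, eval (c • P (j y)) g = 0) → eval z g = 0 :=
      fun g hg => by
        have h3 := hz (MvPolynomial.X (u t) * g) (mem_idl.2 fun c x => by
          rw [map_mul, eval_X]
          by_cases e : x ∈ Set.range j
          · obtain ⟨y, rfl⟩ := e
            rw [hg, mul_zero]
          · rw [Pi.smul_apply, h2 _ e, smul_zero, zero_mul])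
        rw [map_mul, aeval_X] at h3
        exact (mul_eq_zero.1 h3).resolve_left hl
    obtain ⟨y, c, hc, e⟩ := Δ.cl (z ∘ u) (fun f hf => by
      rw [Δ.idl] at hf
      refine (eval_rename_ext z f).symm.trans (key _ fun c y => ?_)
      rw [eval_rename_ext, ← mem_idl.1 hf c y]
      congr 2
      funext s
      rw [comp_apply, Pi.smul_apply, h1, hu.extend_apply, Pi.smul_apply])
      (Function.ne_iff.2 ⟨t, hl⟩)
    refine ⟨j y, c, hc, funext fun l => ?_⟩
    rw [Pi.smul_apply, h1]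
    by_cases e1 : ∃ s, u s = l
    · obtain ⟨s, rfl⟩ := e1
      rw [hu.extend_apply]
      exact congrFun e s
    · rw [extend_apply' _ _ _ e1, Pi.zero_apply, smul_zero, ← eval_X (f := z) l]
      exact key _ fun c y => by
        rw [eval_X, Pi.smul_apply, h1, extend_apply' _ _ _ e1, Pi.zero_apply, smul_zero]

theorem extend_ne {u : τ → σ} (hu : Injective u) {z : τ → k} (hz : z ≠ 0) : extend u z 0 ≠ 0 := by
  obtain ⟨t, ht⟩ := Function.ne_iff.1 hz
  exact Function.ne_iff.2 ⟨u t, by rwa [hu.extend_apply]⟩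

section Sum
variable (Γ : Geo I X) (Δ : Geo J Y)

/-- coordinates on the union of two schemes -/
def sumP : X ⊕ Y → σ ⊕ τ → k :=
  Sum.elim (fun x => extend Sum.inl (Γ.p x) 0) fun y => extend Sum.inr (Δ.p y) 0

theorem sumP_l (x : X ⊕ Y) (h : x ∉ Set.range Sum.inl) (t : σ) : sumP Γ Δ x (.inl t) = 0 := by
  rcases x with x | y
  · exact absurd ⟨x, rfl⟩ h
  · exact extend_apply' _ _ _ fun ⟨_, e⟩ => Sum.inr_ne_inl e

theorem sumP_r (x : X ⊕ Y) (h : x ∉ Set.range Sum.inr) (t : τ) : sumP Γ Δ x (.inr t) = 0 := by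
  rcases x with x | y
  · exact extend_apply' _ _ _ fun ⟨_, e⟩ => Sum.inl_ne_inr e
  · exact absurd ⟨y, rfl⟩ h

/-- the union of two schemes -/
def Geo.sum : Geo (Tav.idl (sumP Γ Δ)) (X ⊕ Y) :=
  Geo.ofParts _ (by
    rintro (x | y)
    exacts [extend_ne Sum.inl_injective (Γ.ne x), extend_ne Sum.inr_injective (Δ.ne y)]) (by
    rintro (l | l)
    exacts [⟨_, _, _, Γ, .inl, .inl, Sum.inl_injective, ⟨l, rfl⟩, fun _ => rfl, sumP_l Γ Δ⟩,
      ⟨_, _, _, Δ, .inr, .inr, Sum.inr_injective, ⟨l, rfl⟩, fun _ => rfl, sumP_r Γ Δ⟩])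

theorem OPart.inl : OPart (Γ.sum Δ) Γ Sum.inl Sum.inl :=
  ⟨Sum.inl_injective, fun _ => rfl, sumP_l Γ Δ⟩

theorem OPart.inr : OPart (Γ.sum Δ) Δ Sum.inr Sum.inr :=
  ⟨Sum.inr_injective, fun _ => rfl, sumP_r Γ Δ⟩

end Sum

section Sigma
variable {ι : Type} {s T : ι → Type} {K : ∀ i, Ideal (MvPolynomial (s i) k)}
  (Δ : ∀ i, Geo (K i) (T i))

/-- coordinates on the union of a family of schemes -/
def sigP (x : Σ i, T i) : (Σ i, s i) → k := extend (Sigma.mk x.1) ((Δ x.1).p x.2) 0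

theorem sigP_off (i : ι) (x : Σ i, T i) (h : x ∉ Set.range (Sigma.mk i)) (t : s i) :
    sigP Δ x ⟨i, t⟩ = 0 := by
  obtain ⟨i', y⟩ := x
  refine extend_apply' _ _ _ fun ⟨_, e⟩ => ?_
  obtain rfl : i' = i := congrArg Sigma.fst e
  exact h ⟨y, rfl⟩

/-- the union of a family of schemes -/
def Geo.sigma : Geo (Tav.idl (sigP Δ)) (Σ i, T i) :=
  Geo.ofParts _ (fun x => extend_ne sigma_mk_injective ((Δ x.1).ne x.2)) fun ⟨i, l⟩ =>
    ⟨_, _, _, Δ i, .mk i, .mk i, sigma_mk_injective, ⟨l, rfl⟩, fun _ => rfl, sigP_off Δ i⟩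

theorem OPart.sigma (i : ι) : OPart (Geo.sigma Δ) (Δ i) (Sigma.mk i) (Sigma.mk i) :=
  ⟨sigma_mk_injective, fun _ => rfl, sigP_off Δ i⟩

end Sigma

namespace OPart

variable {Γ : Geo I X} {Δ : Geo J Y} {E : Geo L Z} {u : τ → σ} {j : Y → X} {v : μ → τ} {i : Z → Y}

theorem trans (h : OPart Γ Δ u j) (h' : OPart Δ E v i) : OPart Γ E (u ∘ v) (j ∘ i) := by
  refine ⟨h.inj.comp h'.inj, fun z => funext fun l => ?_, fun x hx t => ?_⟩
  · by_cases e : ∃ s, (u ∘ v) s = l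
    · obtain ⟨s, rfl⟩ := e
      rw [(h.inj.comp h'.inj).extend_apply, comp_apply, comp_apply, h.p_on, h'.p_on]
    · rw [extend_apply' _ _ _ e, comp_apply, h.pon]
      by_cases e1 : ∃ s, u s = l
      · obtain ⟨s, rfl⟩ := e1
        rw [h.inj.extend_apply, h'.pon]
        exact extend_apply' _ _ _ fun ⟨a, ha⟩ => e ⟨a, congrArg u ha⟩
      · exact extend_apply' _ _ _ e1
  · by_cases e : x ∈ Set.range j
    · obtain ⟨y, rfl⟩ := e
      rw [comp_apply, h.p_on]
      exact h'.poff y (fun ⟨z, hz⟩ => hx ⟨z, congrArg j hz⟩) t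
    · exact h.poff x e _

theorem exists_ret (h : OPart Γ Δ u j) (o : Y) : ∃ r : X → Y, (∀ y, r (j y) = y) ∧
    ∀ (ι : Type) [Fintype ι] (i : ι), Γ.RegF fun x : ι → X => Δ.p (r (x i)) :=
  ⟨extend j id fun _ => o, fun y => h.j_inj.extend_apply _ _ y, fun _ _ i =>
    h.regF_ret (o := o) (fun y => h.j_inj.extend_apply _ _ y)
      (fun _ hx => extend_apply' _ _ _ hx) i⟩

end OPart

theorem smul_mem_zl {T : Type} {f : T → τ → k} {z : τ → k} (hz : z ∈ zeroLocus k (Tav.idl f))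
    (c : k) : c • z ∈ zeroLocus k (Tav.idl f) := fun g hg => by
  have e : ∀ w : τ → k, eval w (aeval (fun l => C c * MvPolynomial.X l) g) = eval (c • w) g :=
    fun w => AlgHom.congr_fun (show (aeval w).comp (aeval fun l => C c * MvPolynomial.X l) =
      aeval (c • w) from algHom_ext fun l => by simp) g
  refine (e z).symm.trans (hz _ (mem_idl.2 fun d t => ?_))
  rw [e, smul_smul]
  exact mem_idl.1 hg _ t

/-- the points of the closure of the image of `f` -/
theorem exists_geo {T : Type} (f : T → τ → k) (hf : ∀ t, f t ≠ 0) :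
    ∃ (Y : Type) (Δ : Geo (Tav.idl f) Y) (φ : T → Y), ∀ t, Tav.Par (Δ.p (φ t)) (f t) := by
  have h1 : ∀ z (h0 : z ≠ 0), z ∈ zeroLocus k (Tav.idl f) →
      ∃ y : {x : Projectivization k (τ → k) // x.rep ∈ zeroLocus k (Tav.idl f)},
        ∃ a : kˣ, y.1.rep = (a : k) • z := fun z h0 hz => by
    obtain ⟨a, ha⟩ := Projectivization.exists_smul_eq_mk_rep k z h0
    exact ⟨⟨_, ha ▸ smul_mem_zl hz a⟩, a, ha.symm⟩
  choose φ a ha using fun t => h1 (f t) (hf t) fun g hg => by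
    simpa using mem_idl.1 hg 1 t
  refine ⟨{x : Projectivization k (τ → k) // x.rep ∈ zeroLocus k (Tav.idl f)},
    { p := fun y => y.1.rep, ne := fun y => y.1.rep_nonzero, inj := ?_, idl := ?_, cl := ?_ }, φ,
    fun t => ⟨a t, (a t).isUnit, ha t⟩⟩
  · rintro x y ⟨c, hc, e⟩
    refine Subtype.ext ?_
    rw [← x.1.mk_rep, ← y.1.mk_rep, Projectivization.mk_eq_mk_iff]
    exact ⟨hc.unit, e.symm⟩
  · refine le_antisymm (fun g hg => mem_idl.2 fun c y => smul_mem_zl y.2 c g hg)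
      fun g hg => mem_idl.2 fun c t => ?_
    have := mem_idl.1 hg (c * ((a t)⁻¹ : kˣ)) (φ t)
    rwa [ha, smul_smul, mul_assoc, Units.inv_mul, mul_one] at this
  · intro z hz h0
    obtain ⟨y, b, hb⟩ := h1 z h0 hz
    exact ⟨y, (b⁻¹ : kˣ), Units.isUnit _, by rw [hb, smul_smul, Units.inv_mul, one_smul]⟩

end Pool.Agent.Bav
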