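import Pool.Agent.P.MP_dd457d_ag.Bcv.TwL
import Pool.Agent.P.MP_2ce3e7_ag.Tav.PPoly

/-! Power maps and regular maps over the algebraic closure of a finite field. -/

set_option autoImplicit false

noncomputable section

namespace Pool.Agent.Bav

open MvPolynomial Function Pool.Agent.Tav

/-- `P` holds at all multiples of some positive number -/
def Dv (P : ℕ → Prop) : Prop := ∃ e ≠ 0, ∀ n, e ∣ n → P n

theorem Dv.mono {P Q : ℕ → Prop} (h : Dv P) (e : ∀ n, P n → Q n) : Dv Q :=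
  h.imp fun _ h => ⟨h.1, fun n hn => e n (h.2 n hn)⟩

theorem Dv.of_forall {P : ℕ → Prop} (h : ∀ n, P n) : Dv P := ⟨1, one_ne_zero, fun n _ => h n⟩

theorem Dv.and {P Q : ℕ → Prop} (h : Dv P) (h' : Dv Q) : Dv fun n => P n ∧ Q n := by
  obtain ⟨e, he, h⟩ := h
  obtain ⟨e', he', h'⟩ := h'
  exact ⟨e * e', mul_ne_zero he he', fun n hn =>
    ⟨h n (dvd_of_mul_right_dvd hn), h' n (dvd_of_mul_left_dvd hn)⟩⟩

theorem Dv.forall {α : Type*} [Finite α] {P : α → ℕ → Prop} (h : ∀ a, Dv (P a)) :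
    Dv fun n => ∀ a, P a n := by
  have := Fintype.ofFinite α
  choose e he h using h
  exact ⟨∏ a, e a, Finset.prod_ne_zero_iff.2 fun a _ => he a, fun n hn a =>
    h a n ((Finset.dvd_prod_of_mem e (Finset.mem_univ a)).trans hn)⟩

theorem Dv.forall_mem {α : Type*} {s : Set α} (hs : s.Finite) {P : α → ℕ → Prop}
    (h : ∀ a, Dv (P a)) : Dv fun n => ∀ a ∈ s, P a n := by
  have := hs.to_subtype
  exact (Dv.forall fun a : s => h a).mono fun n hn a ha => hn ⟨a, ha⟩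

theorem vec_pow_ne {k τ : Type} [Field k] {x : τ → k} (h : x ≠ 0) (N : ℕ) : x ^ N ≠ 0 := by
  obtain ⟨a, ha⟩ := Function.ne_iff.1 h
  exact Function.ne_iff.2 ⟨a, pow_ne_zero N ha⟩

section Gen
variable {σ k ι κ τ X : Type} [Field k] [IsAlgClosed k] {I : Ideal (MvPolynomial σ k)}
  [Fintype σ] [Fintype ι] [Fintype κ] [Fintype τ]

namespace Geo

variable {Γ : Geo I X} {f f' : (ι → X) → τ → k}

theorem par_crd {T : Type} {f f' : T → τ → k} (e : ∀ x, Par (f' x) (f x)) :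
    ∃ c : T → k, (∀ x, c x ≠ 0) ∧ ∀ b, (c * fun x => f' x b) ∈ crd f := by
  choose c hc h using fun x => Pp.par_symm (e x)
  refine ⟨c, fun x => (hc x).ne_zero, fun b => ?_⟩
  have : (c * fun x => f' x b) = fun x => f x b := funext fun x => by rw [h x]; rfl
  rw [this]
  exact mem_crdL f b

theorem RegF.of_par (h : Γ.RegF f) (e : ∀ x, Par (f' x) (f x)) : Γ.RegF f' := by
  obtain ⟨c, hc, h1⟩ := par_crd e
  exact h.of_crd (fun x => Pp.par_ne (e x) (h.ne x)) hc h1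

theorem twF_of_par (h : Γ.RegF f) (e : ∀ x, Par (f' x) (f x)) : Γ.twF f' = Γ.twF f := by
  obtain ⟨c, hc, h1⟩ := par_crd e
  exact Γ.twF_crd h (fun x => Pp.par_ne (e x) (h.ne x)) hc h1

theorem npow_crd (h : Γ.RegF f) (N : ℕ) (b : τ) :
    ((1 : (ι → X) → k) * fun x => (f x ^ N) b) ∈ crd (vecL (LS.co f h.ne ^ N)) := by
  rw [one_mul, crd_vecL, LS.pow_sp]
  exact Submodule.pow_mem_pow _ (mem_crdL f b) N

theorem RegF.npow (h : Γ.RegF f) (N : ℕ) : Γ.RegF fun x => f x ^ N :=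
  (regF_vecL (h.reg.pow N)).of_crd (fun x => vec_pow_ne (h.ne x) N) (fun _ => one_ne_zero)
    (npow_crd h N)

theorem twF_npow (h : Γ.RegF f) (N : ℕ) : Γ.twF (fun x => f x ^ N) = Γ.twF f ^ N := by
  rw [← h.twL_co, ← twL_pow h.reg]
  exact Γ.twF_crd (regF_vecL (h.reg.pow N)) (fun x => vec_pow_ne (h.ne x) N)
    (fun _ => one_ne_zero) (npow_crd h N)

variable (Γ) in
/-- `F` is the `Q`-th power map -/
def IsFr (Q : ℕ) (F : X → X) : Prop := ∀ x, Par (Γ.p (F x)) (Γ.p x ^ Q)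

variable {Q Q' : ℕ} {F F' : X → X}

omit [IsAlgClosed k] [Fintype σ] in
theorem IsFr.uniq (h : Γ.IsFr Q F) (h' : Γ.IsFr Q F') : F = F' :=
  funext fun x => Γ.inj _ _ (Pp.par_trans (h x) (Pp.par_symm (h' x)))

omit [IsAlgClosed k] [Fintype σ] in
theorem IsFr.eq (h : Γ.IsFr Q F) {x y : X} (e : Par (Γ.p y) (Γ.p x ^ Q)) : F x = y :=
  Γ.inj _ _ (Pp.par_trans (h x) (Pp.par_symm e))

omit [IsAlgClosed k] [Fintype σ] in
theorem isFr_id : Γ.IsFr 1 id := fun x => ⟨1, isUnit_one, by rw [pow_one, one_smul]; rfl⟩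

omit [IsAlgClosed k] [Fintype σ] in
theorem IsFr.comp (h : Γ.IsFr Q F) (h' : Γ.IsFr Q' F') : Γ.IsFr (Q' * Q) (F ∘ F') := fun x => by
  rw [pow_mul]
  exact Pp.par_trans (h _) (Pp.par_pow (h' x) Q)

omit [IsAlgClosed k] [Fintype σ] in
theorem IsFr.iter (h : Γ.IsFr Q F) (m : ℕ) : Γ.IsFr (Q ^ m) F^[m] := by
  induction m with
  | zero => exact isFr_id
  | succ m ih =>
    rw [pow_succ', Function.iterate_succ]
    exact ih.comp h

theorem IsFr.regF (h : Γ.IsFr Q F) (i : ι) : Γ.RegF fun t : ι → X => Γ.p (F (t i)) :=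
  ((Γ.regF_proj i).npow Q).of_par fun _ => h _

theorem IsFr.regM (h : Γ.IsFr Q F) : Γ.RegM fun t : ι → X => F ∘ t := h.regF

theorem IsFr.twF [DecidableEq ι] (h : Γ.IsFr Q F) (i : ι) :
    Γ.twF (fun t : ι → X => Γ.p (F (t i))) = shG (Pi.single i 1) ^ Q := by
  rw [twF_of_par ((Γ.regF_proj i).npow Q) fun _ => h _, twF_npow (Γ.regF_proj i), Γ.twF_proj]

/-- the power map in the first block of slots -/
theorem IsFr.regM_left (h : Γ.IsFr Q F) :
    Γ.RegM fun t : ι ⊕ κ → X => Sum.elim (F ∘ t ∘ Sum.inl) (t ∘ Sum.inr) :=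
  (h.regM.comp (Γ.regM_rm Sum.inl)).elim (Γ.regM_rm Sum.inr)

/-- the power map in the second block of slots -/
theorem IsFr.regM_right (h : Γ.IsFr Q F) :
    Γ.RegM fun t : ι ⊕ κ → X => Sum.elim (t ∘ Sum.inl) (F ∘ t ∘ Sum.inr) :=
  (Γ.regM_rm Sum.inl).elim (h.regM.comp (Γ.regM_rm Sum.inr))

theorem IsFr.ev (h : Γ.IsFr Q F) (t : ι → X) (d : ι → ℤ) : ∃ c : k, c ≠ 0 ∧
    ∀ u : S σ k ι, Hg u d → eval (xp Γ.p t ^ Q) u = c * Γ.ev (F ∘ t) u := by
  choose l hl e using fun i => Pp.par_symm (h (t i))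
  refine ⟨∏ j, l j ^ (d j).toNat,
    Finset.prod_ne_zero_iff.2 fun j _ => pow_ne_zero _ (hl j).ne_zero, fun u hu => ?_⟩
  rw [← Γ.ev_subst (P := fun v => MvPolynomial.X v ^ Q) (x := t) (fun v => by
    rw [map_pow, Γ.ev_X]
    exact congrFun (e v.1) v.2) hu, ← AlgHom.comp_apply, comp_aeval]
  simp only [map_pow, Γ.ev_X]
  rfl

end Geo

end Gen

section Fin
variable {k : Type} [Field k] [Fintype k]

theorem dv_fix (a : AlgebraicClosure k) : Dv fun n => a ^ Fintype.card k ^ n = a := by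
  obtain ⟨e, he, h⟩ := Pp.exists_fix a
  refine ⟨e, he, ?_⟩
  rintro _ ⟨m, rfl⟩
  induction m with
  | zero => simp
  | succ m ih => rw [mul_add, mul_one, pow_add, pow_mul, ih, h]

theorem dv_eval {s : Type} (H : MvPolynomial s (AlgebraicClosure k)) : Dv fun n =>
    ∀ z, eval (z ^ Fintype.card k ^ n) H = eval z H ^ Fintype.card k ^ n :=
  (Dv.forall_mem H.coeffs.finite_toSet dv_fix).mono fun _ h => Pp.eval_frob h

variable {σ ι κ τ X : Type} {I : Ideal (MvPolynomial σ (AlgebraicClosure k))} [Fintype σ]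
  [Fintype ι] [Fintype κ] [Fintype τ]

namespace Geo

variable {Γ : Geo I X}

variable (Γ) in
theorem dv_isFr : Dv fun n => ∃ F, Γ.IsFr (Fintype.card k ^ n) F := by
  obtain ⟨s, hs⟩ := IsNoetherian.noetherian I
  refine (Dv.forall_mem s.finite_toSet dv_eval).mono fun n h => ?_
  have key : ∀ x, ∃ y, Par (Γ.p x ^ Fintype.card k ^ n) (Γ.p y) := fun x => by
    refine Γ.cl _ ?_ (vec_pow_ne (Γ.ne x) _)
    have h0 : Γ.p x ^ Fintype.card k ^ n ∈ zeroLocus (AlgebraicClosure k)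
        (Ideal.span (s : Set (MvPolynomial σ (AlgebraicClosure k)))) := by
      rw [zeroLocus_span]
      intro g hg
      have h1 : g ∈ Tav.idl Γ.p := Γ.idl.le (hs.le (Submodule.subset_span hg))
      have h2 : eval (Γ.p x) g = 0 := h1 _ ⟨1, x, (one_smul _ _).symm⟩
      refine (h g hg _).trans ?_
      rw [h2, zero_pow (pow_ne_zero _ Fintype.card_ne_zero)]
    exact fun g hg => h0 g (hs.ge hg)
  choose F hF using key
  exact ⟨F, fun x => Pp.par_symm (hF x)⟩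

theorem RegF.frob {f : (ι → X) → τ → AlgebraicClosure k} (h : Γ.RegF f) : Dv fun n =>
    ∀ F, Γ.IsFr (Fintype.card k ^ n) F → ∀ t, Par (f (F ∘ t)) (f t ^ Fintype.card k ^ n) := by
  obtain ⟨D, hD⟩ := h.exists_td
  refine (Dv.forall fun v : D.C × τ => dv_eval (D.P v.1 v.2)).mono fun n h1 F hF t => ?_
  obtain ⟨c, a, ha⟩ := Γ.td_ne D t
  obtain ⟨u, hu, h2⟩ := hF.ev t (D.e c)
  obtain ⟨l, hl⟩ := hD c t
  obtain ⟨l', hl'⟩ := hD c (F ∘ t)
  have h3 : ∀ b, (l * f t b) ^ Fintype.card k ^ n = u * (l' * f (F ∘ t) b) := fun b => by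
    rw [← hl, ← hl', ← h2 _ (D.hg c b), h1 (c, b), Γ.ev_eq]
  have h4 : l ≠ 0 := left_ne_zero_of_mul (hl a ▸ ha)
  have h5 : l' ≠ 0 := by
    rintro rfl
    have := h3 a
    rw [zero_mul, mul_zero, ← hl] at this
    exact pow_ne_zero _ ha this
  refine ⟨(u * l')⁻¹ * l ^ Fintype.card k ^ n,
    (mul_ne_zero (inv_ne_zero (mul_ne_zero hu h5)) (pow_ne_zero _ h4)).isUnit, funext fun b => ?_⟩
  rw [Pi.smul_apply, Pi.pow_apply, smul_eq_mul, mul_assoc, ← mul_pow, h3, ← mul_assoc u,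
    inv_mul_cancel_left₀ (mul_ne_zero hu h5)]

theorem RegM.frob {φ : (ι → X) → κ → X} (h : Γ.RegM φ) : Dv fun n =>
    ∀ F, Γ.IsFr (Fintype.card k ^ n) F → ∀ t, φ (F ∘ t) = F ∘ φ t :=
  (Dv.forall fun j => (h j).frob).mono fun _ h1 F hF t =>
    funext fun j => (hF.eq (h1 j F hF t)).symm

theorem RegF.twF_frob {f : (ι → X) → τ → AlgebraicClosure k} (h : Γ.RegF f) : Dv fun n =>
    ∀ F, Γ.IsFr (Fintype.card k ^ n) F →
      Γ.twF (fun t => f (F ∘ t)) = Γ.twF f ^ Fintype.card k ^ n :=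
  h.frob.mono fun _ h1 F hF => by rw [twF_of_par (h.npow _) (h1 F hF), twF_npow h]

theorem twL_frob {U : LS (AlgebraicClosure k) (ι → X)} (h : Reg (Γ.bs ι) U) : Dv fun n =>
    ∀ F, Γ.IsFr (Fintype.card k ^ n) F →
      Γ.twL (U.pb fun t => F ∘ t) = Γ.twL U ^ Fintype.card k ^ n :=
  (regF_vecL h).twF_frob.mono fun _ h1 F hF => (twL_pb hF.regM h).trans (h1 F hF)

end Geo

end Fin

end Pool.Agent.Bav
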