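import Pool.Agent.P.MP_dd457d_ag.Bav.KPushBox

/-! The algebra generated by the twists. -/

set_option autoImplicit false

noncomputable section

namespace Pool.Agent.Bav

open MvPolynomial Function

section Gen
variable {A : Type*} [Ring A] [Algebra ℂ A]

theorem aeval_mem_sub {B : Subalgebra ℂ A} {a : A} (h : a ∈ B) (p : Polynomial ℂ) :
    Polynomial.aeval a p ∈ B :=
  Algebra.adjoin_le (S := B) (Set.singleton_subset_iff.2 h)
    (Polynomial.aeval_mem_adjoin_singleton ℂ a)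

theorem lg_mem_sub {B : Subalgebra ℂ A} {t : A} (h : t ∈ B) (u : Unip t) : lg t ∈ B := by
  obtain ⟨p, hp⟩ := u.lg_poly
  have h1 : t - 1 ∈ B := B.sub_mem h B.one_mem
  rw [hp]
  exact B.add_mem h1 (B.mul_mem (B.pow_mem h1 2) (aeval_mem_sub h1 p))

theorem ex_mem_sub {B : Subalgebra ℂ A} {a : A} (h : a ∈ B) (u : IsNilpotent a) : ex a ∈ B := by
  obtain ⟨p, hp⟩ := ex_eq_poly u
  rw [hp]
  exact B.add_mem (B.add_mem B.one_mem h) (B.mul_mem (B.pow_mem h 2) (aeval_mem_sub h p))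

/-- a unipotent element lies in every subalgebra that contains one of its powers -/
theorem mem_of_pow_mem {B : Subalgebra ℂ A} {t : A} (u : Unip t) {N : ℕ} (hN : N ≠ 0)
    (h : t ^ N ∈ B) : t ∈ B := by
  have h1 := lg_mem_sub h (u.pow N)
  rw [lg_pow u, ← Nat.cast_smul_eq_nsmul ℂ] at h1
  have h2 := B.smul_mem h1 (N : ℂ)⁻¹
  rw [smul_smul, inv_mul_cancel₀ (Nat.cast_ne_zero.2 hN), one_smul] at h2
  rw [← u.ex_lg]
  exact ex_mem_sub h2 u.lg_nil

/-- the inverse of a unipotent element is a polynomial in it -/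
theorem exists_inv_mem {B : Subalgebra ℂ A} {t : A} (u : Unip t) (h : t ∈ B) :
    ∃ s ∈ B, s * t = 1 := by
  refine ⟨ex (-lg t), ex_mem_sub (B.neg_mem (lg_mem_sub h u)) u.lg_nil.neg, ?_⟩
  nth_rewrite 2 [← u.ex_lg]
  rw [← ex_add (Commute.refl _).neg_left u.lg_nil.neg u.lg_nil, neg_add_cancel, ex_zero]

variable {V : Type*} [AddCommGroup V] [Module ℂ V]

/-- the operators that keep a subspace -/
def Keep (W : Submodule ℂ V) : Subalgebra ℂ (Module.End ℂ V) where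
  carrier := {E | ∀ x ∈ W, E x ∈ W}
  mul_mem' := fun ha hb x hx => ha _ (hb x hx)
  add_mem' := fun ha hb x hx => W.add_mem (ha x hx) (hb x hx)
  algebraMap_mem' := fun c x hx => W.smul_mem c hx

theorem mem_keep {W : Submodule ℂ V} {E : Module.End ℂ V} : E ∈ Keep W ↔ ∀ x ∈ W, E x ∈ W :=
  Iff.rfl

/-- cancellation of a unipotent operator that keeps `W` -/
theorem Unip.mem_of_apply {W : Submodule ℂ V} {t : Module.End ℂ V} (u : Unip t) (h : t ∈ Keep W)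
    {x : V} (hx : t x ∈ W) : x ∈ W := by
  obtain ⟨s, hs, e⟩ := exists_inv_mem u h
  have := hs _ hx
  rwa [← Module.End.mul_apply, e] at this

end Gen

variable {σ k ι κ μ τ X : Type} [Field k] [IsAlgClosed k] {I : Ideal (MvPolynomial σ k)}
  [Fintype σ] [Fintype ι] [Fintype κ] [Fintype μ] [Fintype τ]

namespace Geo

variable (Γ : Geo I X)

/-- the algebra generated by the twists along regular maps -/
def TwA (ι : Type) [Fintype ι] : Subalgebra ℂ (Module.End ℂ (G I ι)) :=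
  Algebra.adjoin ℂ
    {E | ∃ (τ : Type) (_ : Fintype τ) (g : (ι → X) → τ → k), Γ.RegF g ∧ E = Γ.twF g}

variable {Γ}

theorem RegF.twA {g : (ι → X) → τ → k} (h : Γ.RegF g) : Γ.twF g ∈ Γ.TwA ι :=
  Algebra.subset_adjoin ⟨τ, _, g, h, rfl⟩

theorem RegF.lg_twA {g : (ι → X) → τ → k} (h : Γ.RegF g) : lg (Γ.twF g) ∈ Γ.TwA ι :=
  lg_mem_sub h.twA h.unip

theorem twA_le {B : Subalgebra ℂ (Module.End ℂ (G I ι))}
    (h : ∀ (τ : Type) [Fintype τ] (g : (ι → X) → τ → k), Γ.RegF g → Γ.twF g ∈ B) :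
    Γ.TwA ι ≤ B := by
  refine Algebra.adjoin_le ?_
  rintro _ ⟨τ, _, g, hg, rfl⟩
  exact h τ g hg

variable (Γ) in
theorem shG_twA (n : ι → ℤ) : shG n ∈ Γ.TwA ι := by
  classical
  rw [← ex_lS]
  refine ex_mem_sub ?_ (lS_nil n)
  rw [← Finset.univ_sum_single n, map_sum]
  refine Subalgebra.sum_mem _ fun i _ => ?_
  have e : (Pi.single i (n i) : ι → ℤ) = n i • Pi.single i 1 := by
    rw [← Pi.single_smul, smul_eq_mul, mul_one]
  rw [e, map_zsmul, lS_apply, ← Γ.twF_proj]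
  exact zsmul_mem (Γ.regF_proj i).lg_twA _

theorem twA_comm {E F : Module.End ℂ (G I ι)} (hE : E ∈ Γ.TwA ι) (hF : F ∈ Γ.TwA ι) :
    Commute E F := by
  have h1 : ∀ (τ : Type) [Fintype τ] (g : (ι → X) → τ → k), Γ.RegF g →
      Commute (Γ.twF g) F := fun τ _ g hg =>
    (Subalgebra.mem_centralizer_iff ℂ).1
      (twA_le (B := Subalgebra.centralizer ℂ {Γ.twF g})
        (fun τ' _ g' hg' => (Subalgebra.mem_centralizer_iff ℂ).2 (by
          rintro _ rfl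
          exact Γ.twF_comm hg hg')) hF) _ rfl
  exact Commute.symm ((Subalgebra.mem_centralizer_iff ℂ).1
    (twA_le (B := Subalgebra.centralizer ℂ {F})
      (fun τ _ g hg => (Subalgebra.mem_centralizer_iff ℂ).2 (by
        rintro _ rfl
        exact (h1 τ g hg).symm)) hE) _ rfl)

theorem twA_supp {E : Module.End ℂ (G I ι)} (hE : E ∈ Γ.TwA ι) {T : Set (ι → X)} {x : G I ι}
    (hx : x ∈ Γ.Supp T) : E x ∈ Γ.Supp T :=
  twA_le (B := Keep (Γ.Supp T)) (fun _ _ _ hg _ hx => hg.supp hx) hE x hx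

/-- transport of the algebra along a linear map that transports the twists -/
theorem twA_inter {ψ : G I ι →ₗ[ℂ] G I κ}
    (h : ∀ (τ : Type) [Fintype τ] (g : (κ → X) → τ → k), Γ.RegF g →
      ∃ F ∈ Γ.TwA ι, ∀ x, Γ.twF g (ψ x) = ψ (F x))
    {E : Module.End ℂ (G I κ)} (hE : E ∈ Γ.TwA κ) : ∃ F ∈ Γ.TwA ι, ∀ x, E (ψ x) = ψ (F x) := by
  induction hE using Algebra.adjoin_induction with
  | mem E hE =>
    obtain ⟨τ, _, g, hg, rfl⟩ := hE
    exact h τ g hg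
  | algebraMap c => exact ⟨algebraMap _ _ c, Subalgebra.algebraMap_mem _ c, fun x => by simp⟩
  | add a b _ _ ha hb =>
    obtain ⟨F, hF, e⟩ := ha
    obtain ⟨F', hF', e'⟩ := hb
    exact ⟨F + F', add_mem hF hF', fun x => by simp [e, e']⟩
  | mul a b _ _ ha hb =>
    obtain ⟨F, hF, e⟩ := ha
    obtain ⟨F', hF', e'⟩ := hb
    exact ⟨F * F', mul_mem hF hF', fun x => by simp [e, e']⟩

/-- the same in the other direction -/
theorem twA_inter' {ψ : G I ι →ₗ[ℂ] G I κ}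
    (h : ∀ (τ : Type) [Fintype τ] (g : (ι → X) → τ → k), Γ.RegF g →
      ∃ F ∈ Γ.TwA κ, ∀ x, ψ (Γ.twF g x) = F (ψ x))
    {E : Module.End ℂ (G I ι)} (hE : E ∈ Γ.TwA ι) : ∃ F ∈ Γ.TwA κ, ∀ x, ψ (E x) = F (ψ x) := by
  induction hE using Algebra.adjoin_induction with
  | mem E hE =>
    obtain ⟨τ, _, g, hg, rfl⟩ := hE
    exact h τ g hg
  | algebraMap c => exact ⟨algebraMap _ _ c, Subalgebra.algebraMap_mem _ c, fun x => by simp⟩
  | add a b _ _ ha hb =>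
    obtain ⟨F, hF, e⟩ := ha
    obtain ⟨F', hF', e'⟩ := hb
    exact ⟨F + F', add_mem hF hF', fun x => by simp [e, e']⟩
  | mul a b _ _ ha hb =>
    obtain ⟨F, hF, e⟩ := ha
    obtain ⟨F', hF', e'⟩ := hb
    exact ⟨F * F', mul_mem hF hF', fun x => by simp [e, e']⟩

theorem twA_pull {φ : (ι → X) → κ → X} (h : Γ.RegM φ) {E : Module.End ℂ (G I κ)}
    (hE : E ∈ Γ.TwA κ) : ∃ F ∈ Γ.TwA ι, ∀ x, E (Γ.pushM φ x) = Γ.pushM φ (F x) :=
  twA_inter (fun _ _ _ hg => ⟨_, (hg.comp h).twA, Γ.twF_pushM hg h⟩) hE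

theorem twA_left {E : Module.End ℂ (G I ι)} (hE : E ∈ Γ.TwA ι) (κ : Type) [Fintype κ] :
    ∃ F ∈ Γ.TwA (ι ⊕ κ), ∀ (x : G I ι) (y : G I κ), boxG (E x) y = F (boxG x y) := by
  induction hE using Algebra.adjoin_induction with
  | mem E hE =>
    obtain ⟨τ, _, g, hg, rfl⟩ := hE
    exact ⟨_, (hg.comp (Γ.regM_rm Sum.inl)).twA, fun x y => (Γ.twF_box_left hg x y).symm⟩
  | algebraMap c => exact ⟨algebraMap _ _ c, Subalgebra.algebraMap_mem _ c, fun x y => by simp⟩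
  | add a b _ _ ha hb =>
    obtain ⟨F, hF, e⟩ := ha
    obtain ⟨F', hF', e'⟩ := hb
    exact ⟨F + F', add_mem hF hF', fun x y => by simp [e, e']⟩
  | mul a b _ _ ha hb =>
    obtain ⟨F, hF, e⟩ := ha
    obtain ⟨F', hF', e'⟩ := hb
    exact ⟨F * F', mul_mem hF hF', fun x y => by simp [e, e']⟩

theorem twA_right {E : Module.End ℂ (G I κ)} (hE : E ∈ Γ.TwA κ) (ι : Type) [Fintype ι] :
    ∃ F ∈ Γ.TwA (ι ⊕ κ), ∀ (x : G I ι) (y : G I κ), boxG x (E y) = F (boxG x y) := by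
  induction hE using Algebra.adjoin_induction with
  | mem E hE =>
    obtain ⟨τ, _, g, hg, rfl⟩ := hE
    exact ⟨_, (hg.comp (Γ.regM_rm Sum.inr)).twA, fun x y => (Γ.twF_box_right hg x y).symm⟩
  | algebraMap c => exact ⟨algebraMap _ _ c, Subalgebra.algebraMap_mem _ c, fun x y => by simp⟩
  | add a b _ _ ha hb =>
    obtain ⟨F, hF, e⟩ := ha
    obtain ⟨F', hF', e'⟩ := hb
    exact ⟨F + F', add_mem hF hF', fun x y => by simp [e, e']⟩
  | mul a b _ _ ha hb =>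
    obtain ⟨F, hF, e⟩ := ha
    obtain ⟨F', hF', e'⟩ := hb
    exact ⟨F * F', mul_mem hF hF', fun x y => by simp [e, e']⟩

variable (Γ) in
/-- numerically trivial classes -/
def NT (z : G I ι) : Prop :=
  ∀ (y : G I Unit), ∀ E ∈ Γ.TwA (ι ⊕ Unit), chi (E (boxG z y)) = 0

theorem NT.twA {z : G I ι} (h : Γ.NT z) {E : Module.End ℂ (G I ι)} (hE : E ∈ Γ.TwA ι) :
    Γ.NT (E z) := by
  intro y F hF
  obtain ⟨E', h1, h2⟩ := twA_left hE Unit
  rw [h2]
  exact h y _ (mul_mem hF h1)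

theorem regM_prod {ι' κ' : Type} [Fintype ι'] [Fintype κ'] {φ : (ι → X) → κ → X}
    {χ : (ι' → X) → κ' → X} (h : Γ.RegM φ) (h' : Γ.RegM χ) :
    Γ.RegM fun t : ι ⊕ ι' → X => Sum.elim (φ (t ∘ Sum.inl)) (χ (t ∘ Sum.inr)) :=
  (h.comp (Γ.regM_rm Sum.inl)).elim (h'.comp (Γ.regM_rm Sum.inr))

theorem pushM_box_left {φ : (ι → X) → κ → X} (h : Γ.RegM φ) (x : G I ι) (y : G I μ) :
    Γ.pushM (fun t => Sum.elim (φ (t ∘ Sum.inl)) (t ∘ Sum.inr)) (boxG x y) =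
      boxG (Γ.pushM φ x) y := by
  have := Γ.pushM_box h (Γ.regM_rm (id : μ → μ)) x y
  rw [show (fun t : μ → X => t ∘ id) = fun t => t from rfl, pushM_id] at this
  exact this

theorem NT.pushM {z : G I ι} (h : Γ.NT z) {φ : (ι → X) → κ → X} (hφ : Γ.RegM φ) :
    Γ.NT (Γ.pushM φ z) := by
  intro y E hE
  have h1 : Γ.RegM fun t : ι ⊕ Unit → X => Sum.elim (φ (t ∘ Sum.inl)) (t ∘ Sum.inr) :=
    regM_prod hφ (Γ.regM_rm id)
  obtain ⟨F, hF, e⟩ := twA_pull h1 hE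
  rw [← pushM_box_left hφ, e, Γ.chi_pushM h1]
  exact h y F hF

end Geo

end Pool.Agent.Bav
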