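import Pool.Agent.P.MP_dd457d_ag.Bcv.SP
import Pool.Agent.P.MP_dd457d_ag.Bcv.Alg

/-! Transport of the graph classes of an abelian variety along a regular map. -/

set_option autoImplicit false
set_option linter.unusedSectionVars false

noncomputable section

namespace Pool.Agent.Bcv

open Function Pool.Agent.Bav Pool.Agent.Bav.Geo

variable {σ k ι κ μ ν τ X : Type} [Field k] [IsAlgClosed k] {I : Ideal (MvPolynomial σ k)}
  [Fintype σ] [Fintype ι] [Fintype κ] [Fintype μ] [Fintype ν] [Fintype τ] (Γ : Geo I X)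

theorem shear_on {s s' : (ι ⊕ κ → X) → ι ⊕ κ → X} (h : Γ.RegM s) (h' : Γ.RegM s')
    {W : Set (κ → X)} (e : ∀ t, t ∘ Sum.inr ∈ W → s t ∘ Sum.inr ∈ W ∧ s' (s t) = t)
    (e' : ∀ t, t ∘ Sum.inr ∈ W → s' t ∘ Sum.inr ∈ W ∧ s (s' t) = t)
    (h1 : ∀ t i, s t (Sum.inl i) = t (Sum.inl i)) (h2 : ∀ t i, s' t (Sum.inl i) = t (Sum.inl i))
    (x : G I ι) : Γ.pushM s (boxG x (Γ.cT W 0)) = boxG x (Γ.cT W 0) := by
  refine Γ.supp_ext Γ.cl_univ (F := Γ.pushM s ∘ₗ boxG.flip (Γ.cT W 0))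
    (F' := boxG.flip (Γ.cT W 0)) (fun Z n _ => ?_) (Γ.mem_supp_univ x)
  change Γ.pushM s (boxG _ _) = boxG _ _
  rw [Γ.box_cT]
  have hb : Injective (Sum.map Sum.inl id : ι ⊕ κ → (ι ⊕ κ) ⊕ κ) :=
    Sum.inl_injective.sumMap injective_id
  have s1 : Γ.Sec (Sum.inl : ι ⊕ κ → (ι ⊕ κ) ⊕ κ) fun t => Sum.elim t (s t ∘ Sum.inr) :=
    RegM.sec ((Γ.regM_rm Sum.inr).comp h)
  have s2 : Γ.Sec (Sum.map Sum.inl id : ι ⊕ κ → (ι ⊕ κ) ⊕ κ)
      fun y => Sum.elim (s' y) (y ∘ Sum.inr) :=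
    ⟨hb, h'.elim (Γ.regM_rm Sum.inr), fun y j => by
      rcases j with j | j
      · exact h2 y j
      · rfl⟩
  have e1 : (fun t : ι ⊕ κ → X => Sum.elim t (s t ∘ Sum.inr)) '' prodT Z W =
      (fun y : ι ⊕ κ → X => Sum.elim (s' y) (y ∘ Sum.inr)) '' prodT Z W := by
    ext w
    constructor
    · rintro ⟨t, ht, rfl⟩
      refine ⟨s t, ⟨?_, (e t ht.2).1⟩, by simp only [(e t ht.2).2]⟩
      rw [show s t ∘ Sum.inl = t ∘ Sum.inl from funext (h1 t)]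
      exact ht.1
    · rintro ⟨t, ht, rfl⟩
      refine ⟨s' t, ⟨?_, (e' t ht.2).1⟩, by simp only [(e' t ht.2).2]⟩
      rw [show s' t ∘ Sum.inl = t ∘ Sum.inl from funext (h2 t)]
      exact ht.1
  have e2 : extend (Sum.inl : ι ⊕ κ → (ι ⊕ κ) ⊕ κ) (Sum.elim n (0 : κ → ℤ)) 0 =
      extend (Sum.map Sum.inl id : ι ⊕ κ → (ι ⊕ κ) ⊕ κ) (Sum.elim n (0 : κ → ℤ)) 0 := by
    funext j
    rcases j with (j | j) | j
    · exact (Sum.inl_injective.extend_apply _ _ _).trans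
        (hb.extend_apply _ _ (Sum.inl j)).symm
    · rw [Sum.inl_injective.extend_apply, extend_apply']
      · rfl
      · rintro ⟨l | l, hl⟩ <;> cases hl
    · rw [extend_apply']
      · exact (hb.extend_apply (Sum.elim n (0 : κ → ℤ)) 0 (Sum.inr j)).symm
      · rintro ⟨l, hl⟩
        cases hl
  have a1 := s1.fgt_grs (Γ.cT (prodT Z W) (Sum.elim n 0))
  have a2 := s2.fgt_grs (Γ.cT (prodT Z W) (Sum.elim n 0))
  rw [s1.grs_cT] at a1
  rw [s2.grs_cT, ← e1, ← e2] at a2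
  have e3 := Γ.pushM_char h s1.inj s2.inj (Γ.cT_mem_supp
    (Z := (fun t : ι ⊕ κ → X => Sum.elim t (s t ∘ Sum.inr)) '' prodT Z W) (by
      rintro _ ⟨t, -, rfl⟩
      funext j
      rcases j with j | j
      · exact (h1 t j).symm
      · rfl) (extend Sum.inl (Sum.elim n (0 : κ → ℤ)) 0))
  rw [a1, a2] at e3
  exact e3

include Γ in
theorem box_exch (z : G I ι) (w : G I κ) (y : G I μ) (v : G I ν) :
    reG (Equiv.sumSumSumComm ι κ μ ν) (boxG (boxG z w) (boxG y v)) =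
      boxG (boxG z y) (boxG w v) := by
  refine LinearMap.congr_fun (Γ.ext_cT (F := reG _ ∘ₗ boxG.flip (boxG y v) ∘ₗ boxG.flip w)
    (F' := boxG.flip (boxG w v) ∘ₗ boxG.flip y) fun Z n1 => ?_) z
  refine LinearMap.congr_fun (Γ.ext_cT (F := reG _ ∘ₗ boxG.flip (boxG y v) ∘ₗ boxG (Γ.cT Z n1))
    (F' := boxG (boxG (Γ.cT Z n1) y) ∘ₗ boxG.flip v) fun W n2 => ?_) w
  refine LinearMap.congr_fun (Γ.ext_cT
    (F := reG _ ∘ₗ boxG (boxG (Γ.cT Z n1) (Γ.cT W n2)) ∘ₗ boxG.flip v)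
    (F' := boxG.flip (boxG (Γ.cT W n2) v) ∘ₗ boxG (Γ.cT Z n1)) fun Y n3 => ?_) y
  refine LinearMap.congr_fun (Γ.ext_cT
    (F := reG _ ∘ₗ boxG (boxG (Γ.cT Z n1) (Γ.cT W n2)) ∘ₗ boxG (Γ.cT Y n3))
    (F' := boxG (boxG (Γ.cT Z n1) (Γ.cT Y n3)) ∘ₗ boxG (Γ.cT W n2)) fun V n4 => ?_) v
  simp only [LinearMap.comp_apply, Γ.box_cT, Γ.reG_cT]
  congr 1
  · ext t
    refine ⟨?_, fun h => ⟨t ∘ Equiv.sumSumSumComm ι κ μ ν, ⟨⟨h.1.1, h.2.1⟩, h.1.2, h.2.2⟩, ?_⟩⟩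
    · rintro ⟨u, h, rfl⟩
      exact ⟨⟨h.1.1, h.2.1⟩, h.1.2, h.2.2⟩
    · funext i
      rcases i with (i | i) | (i | i) <;> rfl
  · funext i
    rcases i with (i | i) | (i | i) <;> rfl

theorem lgp_push {g : (κ → X) → τ → k} (hg : Γ.RegF g) {φ : (ι → X) → κ → X} (h : Γ.RegM φ)
    (m : ℕ) (x : G I ι) : (lg (Γ.twF g) ^ m) (Γ.pushM φ x) =
      Γ.pushM φ ((lg (Γ.twF fun t => g (φ t)) ^ m) x) := by
  induction m with
  | zero => rfl
  | succ m ih =>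
    rw [pow_succ', pow_succ', Module.End.mul_apply, Module.End.mul_apply, ih]
    exact lg_inter (hg.comp h).unip hg.unip (Γ.twF_pushM hg h) _

theorem lgp_left {g : (ι → X) → τ → k} (hg : Γ.RegF g) (m : ℕ) (x : G I ι) (y : G I κ) :
    (lg (Γ.twF fun t : ι ⊕ κ → X => g (t ∘ Sum.inl)) ^ m) (boxG x y) =
      boxG ((lg (Γ.twF g) ^ m) x) y := by
  induction m with
  | zero => rfl
  | succ m ih =>
    rw [pow_succ', pow_succ', Module.End.mul_apply, Module.End.mul_apply, ih]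
    exact lg_inter (ψ := boxG.flip y) hg.unip (hg.comp (Γ.regM_rm _)).unip
      (fun z => Γ.twF_box_left hg z y) _

theorem lgp_right {g : (κ → X) → τ → k} (hg : Γ.RegF g) (m : ℕ) (x : G I ι) (y : G I κ) :
    (lg (Γ.twF fun t : ι ⊕ κ → X => g (t ∘ Sum.inr)) ^ m) (boxG x y) =
      boxG x ((lg (Γ.twF g) ^ m) y) := by
  induction m with
  | zero => rfl
  | succ m ih =>
    rw [pow_succ', pow_succ', Module.End.mul_apply, Module.End.mul_apply, ih]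
    exact lg_inter (ψ := boxG x) hg.unip (hg.comp (Γ.regM_rm _)).unip
      (fun z => Γ.twF_box_right hg x z) _

/-- an abelian variety inside `X`, with a regular retraction -/
structure AG (A : Type) [AddCommGroup A] (τ : Type) [Fintype τ] (q : ℕ) where
  j : A → X
  r : X → A
  rj : ∀ a, r (j a) = a
  sub : Γ.RegF fun t : Unit ⊕ Unit → X => Γ.p (j (r (t (.inl ())) - r (t (.inr ()))))
  h : A → τ → k
  hr : Γ.RegF fun t : Unit → X => h (r (t ()))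
  g : ℕ
  c : ℂ
  hc : c ≠ 0
  pt : (lg (Γ.twF fun t : Unit → X => h (r (t ()))) ^ g)
    (Γ.cT (Set.range fun (y : A) (_ : Unit) => j y) 0) = c • Γ.cT {fun _ => j 0} 0
  F : ℕ → A → A
  Fr : ∀ n, Γ.RegF fun t : Unit → X => Γ.p (j (F n (r (t ()))))
  sp : (fun n => Γ.cT (Set.range fun y : A =>
    (Sum.elim (fun _ => j y) fun _ => j (F n y) : Unit ⊕ Unit → X)) 0) ∈ SP (Bx I) q

namespace AG

variable {Γ} {A : Type} [AddCommGroup A] {q : ℕ} (D : AG Γ A τ q)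

/-- regular maps to the abelian variety -/
def Rg (u : (ι → X) → A) : Prop := Γ.RegM fun t (_ : Unit) => D.j (u t)

/-- the class of the abelian variety -/
def one : G I Unit := Γ.cT (Set.range fun (y : A) (_ : Unit) => D.j y) 0

variable {D} {u v : (ι → X) → A}

theorem Rg.sub (h : D.Rg u) (h' : D.Rg v) : D.Rg fun t => u t - v t := fun _ => by
  have := D.sub.comp (RegM.elim h h')
  simpa only [Sum.elim_inl, Sum.elim_inr, D.rj] using this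

theorem Rg.comp (h : D.Rg u) {φ : (κ → X) → ι → X} (hφ : Γ.RegM φ) : D.Rg fun t => u (φ t) :=
  RegM.comp h hφ

theorem rg_const (a : A) : D.Rg fun _ : ι → X => a := Γ.regM_const _

theorem rg_r (i : ι) : D.Rg fun t : ι → X => D.r (t i) := fun _ => by
  have := D.sub.comp (RegM.elim (Γ.regM_rm fun _ : Unit => i) (Γ.regM_const fun _ : Unit => D.j 0))
  simpa only [Sum.elim_inl, Sum.elim_inr, D.rj, sub_zero, comp_apply] using this

theorem Rg.add (h : D.Rg u) (h' : D.Rg v) : D.Rg fun t => u t + v t := by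
  simpa only [zero_sub, sub_neg_eq_add] using h.sub ((rg_const 0).sub h')

theorem Rg.F (h : D.Rg u) (n : ℕ) : D.Rg fun t => D.F n (u t) := fun _ => by
  simpa only [D.rj] using (D.Fr n).comp h

theorem Rg.h (h : D.Rg u) : Γ.RegF fun t => D.h (u t) := by
  simpa only [D.rj] using D.hr.comp h

theorem diag (h : D.Rg u) (x : G I ι) :
    (lg (Γ.twF fun t : ι ⊕ Unit → X => D.h (D.r (t (.inr ())) - u (t ∘ Sum.inl))) ^ D.g)
      (boxG x D.one) = D.c • Γ.pushM (fun t => Sum.elim t fun _ => D.j (u t)) x := by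
  have h0 : D.Rg fun t : ι ⊕ Unit → X => u (t ∘ Sum.inl) := h.comp (Γ.regM_rm _)
  have h1 : D.Rg fun t : ι ⊕ Unit → X => D.r (t (.inr ())) := rg_r _
  have r1 := (Γ.regM_rm Sum.inl).elim (h1.add h0)
  have key : ∀ (t : ι ⊕ Unit → X) (y : A), t ∘ Sum.inr = (fun _ => D.j y) →
      (Sum.elim (t ∘ Sum.inl) fun _ => D.j y) = t ∧ D.r (t (.inr ())) = y := fun t y e =>
    ⟨by rw [← e, Sum.elim_comp_inl_inr], by rw [← D.rj y]; exact congrArg D.r (congrFun e ())⟩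
  rw [one, ← shear_on Γ r1 ((Γ.regM_rm Sum.inl).elim (h1.sub h0)) ?_ ?_ (fun _ _ => rfl)
    (fun _ _ => rfl), lgp_push Γ (h1.sub h0).h r1]
  · simp only [Sum.elim_inr, Sum.elim_comp_inl, D.rj, add_sub_cancel_right]
    rw [show (fun t : ι ⊕ Unit → X => D.h (D.r (t (.inr ())))) =
      fun t => (fun s : Unit → X => D.h (D.r (s ()))) (t ∘ Sum.inr) from rfl,
      lgp_right Γ D.hr, D.pt, map_smul, map_smul, Γ.box_point,
      Γ.pushM_comp (φ := fun t => Sum.elim t fun _ => D.j 0)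
        ((Γ.regM_rm id).elim (Γ.regM_const _)) r1]
    simp only [Sum.elim_inr, Sum.elim_comp_inl, D.rj, zero_add]
  · rintro t ⟨y, hy⟩
    obtain ⟨e1, e2⟩ := key t y hy.symm
    refine ⟨⟨_, rfl⟩, ?_⟩
    simp only [Sum.elim_inr, Sum.elim_comp_inl, D.rj, add_sub_cancel_right, e2, e1]
  · rintro t ⟨y, hy⟩
    obtain ⟨e1, e2⟩ := key t y hy.symm
    refine ⟨⟨_, rfl⟩, ?_⟩
    simp only [Sum.elim_inr, Sum.elim_comp_inl, D.rj, sub_add_cancel, e2, e1]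

theorem push_one (n : ℕ) :
    Γ.pushM (fun t : Unit → X => Sum.elim t fun _ : Unit => D.j (D.F n (D.r (t ())))) D.one =
      Γ.cT (Set.range fun y : A =>
        (Sum.elim (fun _ => D.j y) fun _ => D.j (D.F n y) : Unit ⊕ Unit → X)) 0 := by
  have h := RegM.sec (Γ := Γ) ((rg_r (D := D) ()).F n)
  rw [h.pushM_eq, one, h.grs_cT, ← Set.range_comp, extend_inl, Sum.elim_zero_zero]
  simp only [comp_def, D.rj]

section
variable (D) (κ) (a : (ι → X) → A)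

/-- the point of the large power with the two extra coordinates `a x` and `F n (a x)` -/
def emb (n : ℕ) (t : ι ⊕ κ → X) : (ι ⊕ Unit) ⊕ (κ ⊕ Unit) → X :=
  Sum.elim (Sum.elim (t ∘ Sum.inl) fun _ => D.j (a (t ∘ Sum.inl)))
    (Sum.elim (t ∘ Sum.inr) fun _ => D.j (D.F n (a (t ∘ Sum.inl))))

/-- sequences of operators that come from one operator on the last two blocks -/
def Fam : Subalgebra ℂ (ℕ → Module.End ℂ (G I (ι ⊕ κ))) where
  carrier := {Φ | (∀ n, Φ n ∈ Γ.TwA (ι ⊕ κ)) ∧ ∃ (R : Module.End ℂ (G I _))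
    (S : Module.End ℂ (G I _)), (R ∈ Γ.TwA _ ∧ S ∈ Γ.TwA _) ∧
      (∀ x y, R (boxG x y) = boxG x (S y)) ∧
      ∀ n x, R (Γ.pushM (D.emb κ a n) x) = Γ.pushM (D.emb κ a n) (Φ n x)}
  mul_mem' := by
    rintro Φ Φ' ⟨h, R, S, h0, h1, h2⟩ ⟨h', R', S', h0', h1', h2'⟩
    exact ⟨fun n => mul_mem (h n) (h' n), R * R', S * S',
      ⟨mul_mem h0.1 h0'.1, mul_mem h0.2 h0'.2⟩, fun x y => by simp [h1, h1'],
      fun n x => by simp [h2, h2']⟩
  add_mem' := by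
    rintro Φ Φ' ⟨h, R, S, h0, h1, h2⟩ ⟨h', R', S', h0', h1', h2'⟩
    exact ⟨fun n => add_mem (h n) (h' n), R + R', S + S',
      ⟨add_mem h0.1 h0'.1, add_mem h0.2 h0'.2⟩, fun x y => by simp [h1, h1'],
      fun n x => by simp [h2, h2']⟩
  algebraMap_mem' c := ⟨fun _ => Subalgebra.algebraMap_mem _ c, algebraMap ℂ _ c, algebraMap ℂ _ c,
    ⟨Subalgebra.algebraMap_mem _ c, Subalgebra.algebraMap_mem _ c⟩, fun x y => by simp,
    fun n x => by simp⟩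

variable {κ} (w : G I κ)

/-- the sequences that are reached from `z ⊠ w` -/
def Seq : Submodule ℂ (ℕ → G I (ι ⊕ κ)) := Submodule.span ℂ
  {x | ∃ (i : ℕ) (z : G I ι), ∃ Φ ∈ D.Fam κ a, x = fun n => ((q : ℂ) ^ n) ^ i • Φ n (boxG z w)}

/-- the sequences of operators that keep these sequences -/
def Alg : Subalgebra ℂ (ℕ → Module.End ℂ (G I (ι ⊕ κ))) where
  carrier := {E | ∀ x ∈ D.Seq a w, (fun n => E n (x n)) ∈ D.Seq a w}
  mul_mem' h h' x hx := h _ (h' x hx)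
  add_mem' h h' x hx := add_mem (h x hx) (h' x hx)
  algebraMap_mem' c _ hx := Submodule.smul_mem _ c hx

end

variable {a : (ι → X) → A} {w : G I κ}

theorem mem_congr {W : Type*} [AddCommGroup W] [Module ℂ W] {S : Submodule ℂ (ℕ → W)}
    {x y : ℕ → W} (h : x ∈ S) (e : ∀ n, x n = y n) : y ∈ S := (funext e : x = y) ▸ h

theorem regM_emb (h : D.Rg a) (n : ℕ) : Γ.RegM (D.emb κ a n) :=
  ((Γ.regM_rm _).elim (h.comp (Γ.regM_rm _))).elim
    ((Γ.regM_rm _).elim ((h.comp (Γ.regM_rm _)).F n))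

theorem fam_sp (h : D.Rg a) {Φ : ℕ → Module.End ℂ (G I (ι ⊕ κ))} (hΦ : Φ ∈ D.Fam κ a)
    (z : G I ι) : (fun n => Φ n (boxG z w)) ∈ SP (Submodule.span ℂ
      (Set.range fun t : G I ι × G I κ => boxG t.1 t.2)) q := by
  obtain ⟨-, R, S, -, h1, h2⟩ := hΦ
  have r0 : D.Rg fun t : ι ⊕ Unit → X => D.r (t (.inr ())) - a (t ∘ Sum.inl) :=
    (rg_r _).sub (h.comp (Γ.regM_rm _))
  have hi : Injective (Sum.map Sum.inl Sum.inl : ι ⊕ κ → (ι ⊕ Unit) ⊕ (κ ⊕ Unit)) :=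
    Sum.inl_injective.sumMap Sum.inl_injective
  let L : Module.End ℂ (G I ((ι ⊕ Unit) ⊕ (κ ⊕ Unit))) := lg (Γ.twF fun t =>
    (fun s : ι ⊕ Unit → X => D.h (D.r (s (.inr ())) - a (s ∘ Sum.inl))) (t ∘ Sum.inl)) ^ D.g
  have h3 := SP.map (B' := Submodule.span ℂ (Set.range fun t : G I ι × G I κ => boxG t.1 t.2))
    (D.c⁻¹ • fgt _ hi ∘ₗ R ∘ₗ L ∘ₗ reG (Equiv.sumSumSumComm ι κ Unit Unit) ∘ₗ boxG (boxG z w))
    (Bx.map _ fun y v => ?_) D.sp
  · refine mem_congr h3 fun n => ?_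
    have r1 := (Γ.regM_rm (id : Unit → Unit)).elim ((rg_r (D := D) ()).F n)
    have r2 := ((Γ.regM_rm (id : ι ⊕ κ → ι ⊕ κ)).comp (Γ.regM_rm Sum.inl)).elim
      (r1.comp (Γ.regM_rm Sum.inr))
    have r3 := (Γ.regM_rm (Equiv.sumSumSumComm ι κ Unit Unit).symm).comp r2
    have ha : D.Rg fun t : ι ⊕ κ → X => a (t ∘ Sum.inl) := h.comp (Γ.regM_rm _)
    have e1 := Γ.pushM_box (Γ.regM_rm (id : ι ⊕ κ → ι ⊕ κ)) r1 (boxG z w) D.one
    rw [Γ.pushM_rm id injective_id, fgt_id] at e1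
    have e2 := lgp_push Γ (r0.h.comp (Γ.regM_rm (Sum.inl : _ → (ι ⊕ Unit) ⊕ (κ ⊕ Unit)))) r3 D.g
      (boxG (boxG z w) D.one)
    have e3 := Γ.pushM_comp ((Γ.regM_rm id).elim ha) r3 (boxG z w)
    have e4 : _ = Γ.pushM (D.emb κ a n) (boxG z w) := e3.trans (by
      congr 2
      funext t i
      rcases i with (i | i) | (i | i) <;> simp [emb, D.rj])
    simp only [LinearMap.smul_apply, LinearMap.comp_apply]
    rw [← push_one, ← fgt_equiv, ← Γ.pushM_rm, ← Γ.pushM_rm]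
    erw [← e1, Γ.pushM_comp r2 (Γ.regM_rm _), e2, diag ha, map_smul, e4]
    rw [map_smul, map_smul, smul_smul, inv_mul_cancel₀ D.hc, one_smul, h2,
      Γ.pushM_comp (regM_emb h n) (Γ.regM_rm _)]
    refine (congrArg (fun f => Γ.pushM f _) ?_).trans (Γ.pushM_id _)
    funext t i
    rcases i with i | i <;> rfl
  · simp only [LinearMap.smul_apply, LinearMap.comp_apply]
    rw [box_exch Γ, lgp_left Γ r0.h, h1, fgt_box _ Sum.inl_injective _ Sum.inl_injective]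
    exact Submodule.smul_mem _ _ (Submodule.subset_span ⟨(_, _), rfl⟩)

theorem alg_sp (h : D.Rg a) {E : ℕ → Module.End ℂ (G I (ι ⊕ κ))} (hE : E ∈ D.Alg a w)
    (z : G I ι) : (fun n => E n (boxG z w)) ∈ SP (Submodule.span ℂ
      (Set.range fun t : G I ι × G I κ => boxG t.1 t.2)) q := by
  refine (Submodule.span_le.2 ?_ : D.Seq a w ≤ _) (hE (fun _ => boxG z w)
    (Submodule.subset_span ⟨0, z, 1, one_mem _, funext fun n => by simp⟩))
  rintro _ ⟨i, z, Φ, hΦ, rfl⟩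
  exact SP.pow_smul i (fam_sp h hΦ z)

theorem mem_alg {E : ℕ → Module.End ℂ (G I (ι ⊕ κ))} (h : ∀ (i : ℕ) (z : G I ι), ∀ Φ ∈ D.Fam κ a,
    (fun n => ((q : ℂ) ^ n) ^ i • E n (Φ n (boxG z w))) ∈ D.Seq a w) : E ∈ D.Alg a w :=
  fun _ hx => (Submodule.span_le (p := (D.Seq a w).comap
    (LinearMap.pi fun n => E n ∘ₗ LinearMap.proj n))).2 (by
      rintro _ ⟨i, z, Φ, hΦ, rfl⟩
      exact Submodule.mem_comap.2 (mem_congr (h i z Φ hΦ) fun n => by simp)) hx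

theorem fam_le : D.Fam κ a ≤ D.Alg a w := fun Ψ hΨ => mem_alg fun i z Φ hΦ =>
  Submodule.subset_span ⟨i, z, Ψ * Φ, mul_mem hΨ hΦ, rfl⟩

theorem q_mem : (fun n => (q : ℂ) ^ n • (1 : Module.End ℂ (G I (ι ⊕ κ)))) ∈ D.Alg a w :=
  mem_alg fun i z Φ hΦ => Submodule.subset_span ⟨i + 1, z, Φ, hΦ, funext fun n => by
    simp [smul_smul, pow_succ]⟩

theorem left_mem {E : Module.End ℂ (G I (ι ⊕ κ))} (hE : E ∈ Γ.TwA _) {E₀ : Module.End ℂ (G I ι)}
    (h : ∀ z, E (boxG z w) = boxG (E₀ z) w) : (fun _ => E) ∈ D.Alg a w :=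
  mem_alg fun i z Φ hΦ => Submodule.subset_span ⟨i, E₀ z, Φ, hΦ, funext fun n => by
    rw [← h]
    exact congrArg _ (LinearMap.congr_fun (twA_comm hE (hΦ.1 n)) _)⟩

theorem lg_left {τ' : Type} [Fintype τ'] {g : (ι → X) → τ' → k} (hg : Γ.RegF g) :
    (fun _ => lg (Γ.twF fun t : ι ⊕ κ → X => g (t ∘ Sum.inl))) ∈ D.Alg a w :=
  left_mem (hg.comp (Γ.regM_rm _)).lg_twA (E₀ := lg (Γ.twF g)) fun z => by
    simpa only [pow_one] using lgp_left Γ hg 1 z w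

theorem lg_fam (h : D.Rg a) {τ' : Type} [Fintype τ'] {V : A → (κ → X) → τ' → k}
    (hV : Γ.RegF fun s : κ ⊕ Unit → X => V (D.r (s (.inr ()))) (s ∘ Sum.inl)) :
    (fun n => lg (Γ.twF fun t : ι ⊕ κ → X => V (D.F n (a (t ∘ Sum.inl))) (t ∘ Sum.inr))) ∈
      D.Fam κ a := by
  have h1 := hV.comp (Γ.regM_rm (Sum.inr : _ → (ι ⊕ Unit) ⊕ (κ ⊕ Unit)))
  have h2 : ∀ n, (fun t : ι ⊕ κ → X => V (D.F n (a (t ∘ Sum.inl))) (t ∘ Sum.inr)) = fun t =>
      V (D.r ((D.emb κ a n t ∘ Sum.inr) (.inr ()))) ((D.emb κ a n t ∘ Sum.inr) ∘ Sum.inl) :=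
    fun n => funext fun t => by simp [emb, D.rj]
  refine ⟨fun n => ?_, _, _, ⟨pow_mem h1.lg_twA 1, pow_mem hV.lg_twA 1⟩, lgp_right Γ hV 1,
    fun n x => ?_⟩
  · beta_reduce
    rw [h2]
    exact (h1.comp (regM_emb h n)).lg_twA
  · beta_reduce
    rw [h2]
    simpa only [pow_one] using lgp_push Γ h1 (regM_emb h n) 1 x

theorem ex_mem {B : Type*} [Ring B] [Algebra ℂ B] {S : Subalgebra ℂ (ℕ → B)} {L : ℕ → B}
    (h : L ∈ S) {M : ℕ} (hM : ∀ n, L n ^ M = 0) : (fun n => ex (L n)) ∈ S := by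
  have := ex_mem_sub h ⟨M, funext hM⟩
  rw [ex_eq_sum (funext hM : L ^ M = 0)] at this
  refine (congrArg (· ∈ S) (funext fun n => ?_)).mp this
  rw [ex_eq_sum (hM n), Finset.sum_apply]
  rfl

theorem twF_mem {S : Subalgebra ℂ (ℕ → Module.End ℂ (G I ι))} {τ' : Type} [Fintype τ']
    {g : ℕ → (ι → X) → τ' → k} (hg : ∀ n, Γ.RegF (g n))
    (h : (fun n => lg (Γ.twF (g n))) ∈ S) :
    (fun n => Γ.twF (g n)) ∈ S ∧ ∃ E ∈ S, ∀ n, E n * Γ.twF (g n) = 1 := by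
  have h1 : ∀ n, lg (Γ.twF (g n)) ^ Fintype.card τ' = 0 := fun n => lg_pow_eq_zero (hg n).nil
  refine ⟨?_, _, ex_mem (neg_mem h) (M := Fintype.card τ') fun n => ?_, fun n => ?_⟩
  · simpa only [(hg _).unip.ex_lg] using ex_mem h h1
  · rw [Pi.neg_apply, neg_pow, h1, mul_zero]
  · have h2 := (hg n).unip.lg_nil
    rw [Pi.neg_apply]
    conv_lhs => rw [← (hg n).unip.ex_lg]
    rw [lg_ex h2, ← ex_add (Commute.refl _).neg_left h2.neg h2, neg_add_cancel, ex_zero]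

end AG

end Pool.Agent.Bcv
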