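import Pool.Agent.P.MP_dd457d_ag.Bcv.DefK
import Pool.Agent.P.MP_dd457d_ag.Bcv.Psi
import Pool.Agent.P.MP_dd457d_ag.Bcv.Frob

/-! The graphs of the powers of the Frobenius map on a product of curves. -/

set_option autoImplicit false

noncomputable section

namespace Pool.Agent.Bcv

open MvPolynomial Function Pool.Agent.Bav Pool.Agent.Bav.Geo

variable {Ω σ τ X ι κ α : Type} [Field Ω] [IsAlgClosed Ω] {I : Ideal (MvPolynomial σ Ω)}
  [Fintype σ] [Fintype τ] [Fintype ι] [Fintype κ] [Fintype α] {Γ : Geo I X} {A : Type}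
  [AddCommGroup A] {Q : ℕ} {D : AG Γ A τ Q} {a : (ι → X) → A} {w : G I κ} {Fr : X → X}
  {x : (ι → X) → X}

theorem iv_mem {S : Subalgebra ℂ (ℕ → Module.End ℂ (G I ι))} {g : ℕ → (ι → X) → α → Ω}
    (hg : ∀ n, Γ.RegF (g n)) (h : (fun n => lg (Γ.twF (g n))) ∈ S) :
    (fun n => iv (Γ.twF (g n))) ∈ S :=
  AG.ex_mem (neg_mem h) (M := Fintype.card α) fun n => by
    rw [neg_pow, lg_pow_eq_zero (hg n).nil, mul_zero]

omit [IsAlgClosed Ω] [Fintype α] in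
theorem par_it {u : X → α → Ω} (h : ∀ y, Tav.Par (u (Fr y)) (u y ^ Q)) (n : ℕ) (y : X) :
    Tav.Par (u (Fr^[n] y)) (u y ^ Q ^ n) := par_iter h n y

/-- systems of the first block along the Frobenius map -/
theorem frob_mem {u : X → α → Ω} (hu : Γ.RegF fun t => u (x t))
    (h : ∀ y, Tav.Par (u (Fr y)) (u y ^ Q)) :
    (fun n => lg (Γ.twF fun t : ι ⊕ κ → X => u (Fr^[n] (x (t ∘ Sum.inl))))) ∈ D.Alg a w := by
  have h1 := hu.comp (Γ.regM_rm (Sum.inl : ι → ι ⊕ κ))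
  refine (congrArg (· ∈ D.Alg a w) (funext fun n => ?_)).mp
    (mul_mem (AG.q_mem (D := D) (a := a) (w := w)) (AG.lg_left hu))
  rw [twF_of_par (h1.npow (Q ^ n)) fun t => par_it h n _, twF_npow h1, lg_pow h1.unip,
    Pi.mul_apply, smul_mul_assoc, one_mul, ← Nat.cast_pow, Nat.cast_smul_eq_nsmul]

/-- systems of the point `F n (a x)` and of one slot of the second block -/
theorem fam_mem (ha : D.Rg a) {V : A → X → α → Ω} (hV : R2 Γ fun y z => V (D.r y) z) (i : κ) :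
    (fun n => lg (Γ.twF fun t : ι ⊕ κ → X => V (D.F n (a (t ∘ Sum.inl))) (t (.inr i)))) ∈
      D.Alg a w :=
  AG.fam_le (AG.lg_fam ha (V := fun y s => V y (s i))
    (hV.comp (Γ.regM_rm (Sum.elim (fun _ => Sum.inr ()) fun _ => Sum.inl i))))

/-- the data of the relation for the secant map in the slot `i` -/
def Rel (D : AG Γ A τ Q) (a : (ι → X) → A) (Fr : X → X) (c : CX Γ) (x : (ι → X) → X) (i : κ) :
    Prop :=
  ∃ (N n₀ n₁ n₂ n₃ : ℕ) (u : X → Fin n₀ → Ω) (u' : X → Fin n₁ → Ω) (V : A → X → Fin n₂ → Ω)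
    (V' : A → X → Fin n₃ → Ω), N ≠ 0 ∧ (Γ.RegF fun t => u (x t)) ∧ (Γ.RegF fun t => u' (x t)) ∧
    (∀ y, Tav.Par (u (Fr y)) (u y ^ Q)) ∧ (∀ y, Tav.Par (u' (Fr y)) (u' y ^ Q)) ∧
    (R2 Γ fun y z => V (D.r y) z) ∧ (R2 Γ fun y z => V' (D.r y) z) ∧ ∀ n : ℕ,
      (N : ℂ) • lg (Γ.twF fun t : ι ⊕ κ → X => c.s (Fr^[n] (x (t ∘ Sum.inl))) (t (.inr i))) +
          lg (Γ.twF fun t : ι ⊕ κ → X => u (Fr^[n] (x (t ∘ Sum.inl)))) +
          lg (Γ.twF fun t : ι ⊕ κ → X => V (D.F n (a (t ∘ Sum.inl))) (t (.inr i))) =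
        lg (Γ.twF fun t : ι ⊕ κ → X => u' (Fr^[n] (x (t ∘ Sum.inl)))) +
          lg (Γ.twF fun t : ι ⊕ κ → X => V' (D.F n (a (t ∘ Sum.inl))) (t (.inr i)))

theorem op_mem (ha : D.Rg a) (hF : Γ.IsFr Q Fr) {c : CX Γ} (hx : Γ.RegF fun t => Γ.p (x t))
    {i : κ} (h : Rel D a Fr c x i) :
    (fun n => c.op (fun t : ι ⊕ κ → X => Fr^[n] (x (t ∘ Sum.inl))) (.inr i)) ∈ D.Alg a w := by
  obtain ⟨N, _, _, _, _, u, u', V, V', hN, r0, r1, f0, f1, r2, r3, h⟩ := h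
  have h1 : ∀ n, Γ.RegF fun t : ι ⊕ κ → X => Γ.p (Fr^[n] (x (t ∘ Sum.inl))) := fun n =>
    ((hx.comp (Γ.regM_rm Sum.inl)).npow _).of_par fun t => hF.iter n _
  have h2 : ∀ n, Γ.RegF fun t : ι ⊕ κ → X => c.s (Fr^[n] (x (t ∘ Sum.inl))) (t (.inr i)) :=
    fun n => c.rs.comp (φ := fun t => Sum.elim (fun _ => Fr^[n] (x (t ∘ Sum.inl)))
      fun _ => t (.inr i)) (RegM.elim (fun _ => h1 n) fun _ => Γ.regF_proj _)
  have h3 := (D.Alg a w).smul_mem (sub_mem (sub_mem (add_mem (frob_mem r1 f1) (fam_mem ha r3 i))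
    (fam_mem ha r2 i)) (frob_mem r0 f0)) (N : ℂ)⁻¹
  have h4 := (AG.twF_mem h2 ((congrArg (· ∈ D.Alg a w) (funext fun n => ?_)).mp h3)).1
  · exact sub_mem (one_mem _) (mul_mem (mul_mem h4 (iv_mem h1 (frob_mem hx hF)))
      (iv_mem (fun _ => Γ.regF_proj _) (fam_mem ha (V := fun _ z => Γ.p z) (Γ.regF_proj _) i)))
  · rw [Pi.smul_apply, Pi.sub_apply, Pi.sub_apply, Pi.add_apply, ← h n, add_sub_cancel_right,
      add_sub_cancel_right, inv_smul_smul₀ (Nat.cast_ne_zero.2 hN)]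

/-- the statement of the diagonal formula -/
def S_Diag (Γ : Geo I X) (ι κ : Type) [Fintype ι] [Fintype κ] : Prop :=
  ∀ (c : κ → CX Γ) {ψ : (ι → X) → κ → X}, Γ.RegM ψ → (∀ t i, ψ t i ∈ (c i).C) → ∀ z : G I ι,
    ((Finset.univ : Finset κ).toList.map fun i =>
      (c i).op (fun t : ι ⊕ κ → X => ψ (t ∘ Sum.inl) i) (Sum.inr i)).prod
        (boxG z (Γ.cT {y | ∀ i, y i ∈ (c i).C} 0)) =
      Γ.pushM (fun t => Sum.elim t (ψ t)) z

theorem main_sp (hD : S_Diag Γ ι κ) (ha : D.Rg a) (hF : Γ.IsFr Q Fr) (c : κ → CX Γ)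
    (hC : ∀ i, ∀ y ∈ (c i).C, Fr y ∈ (c i).C) {ψ : (ι → X) → κ → X} (hψ : Γ.RegM ψ)
    (h : ∀ t i, ψ t i ∈ (c i).C) (R : ∀ i, Rel D a Fr (c i) (fun t => ψ t i) i) (z : G I ι) :
    (fun n => Γ.pushM (fun t => Sum.elim t (Fr^[n] ∘ ψ t)) z) ∈
      SP (Submodule.span ℂ (Set.range fun t : G I ι × G I κ => boxG t.1 t.2)) Q := by
  have h1 := list_prod_mem (S := D.Alg a (Γ.cT {y | ∀ i, y i ∈ (c i).C} 0))
    (l := (Finset.univ : Finset κ).toList.map fun i n =>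
      (c i).op (fun t : ι ⊕ κ → X => Fr^[n] (ψ (t ∘ Sum.inl) i)) (.inr i)) fun E hE => by
      obtain ⟨i, -, rfl⟩ := List.mem_map.1 hE
      exact op_mem ha hF (hψ i) (R i)
  refine AG.mem_congr (AG.alg_sp ha h1 z) fun n => ?_
  rw [← hD c ((hF.iter n).regM.comp hψ) (fun t i => ?_) z, Pi.list_prod_apply, List.map_map]
  · rfl
  · induction n with
    | zero => exact h t i
    | succ n ih =>
      rw [comp_apply, iterate_succ_apply']
      exact hC i _ ih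

end Pool.Agent.Bcv
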