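import Pool.Agent.P.MP_2ce3e7_ag.Tav.TiEqv
import Pool.Agent.P.MP_2ce3e7_ag.Tav.MAV

/-! The package of a curve. -/

set_option autoImplicit false

noncomputable section

namespace Pool.Agent.Bcv

open MvPolynomial Function

section Curve
variable {Ω : Type} [Field Ω]

/-- the base of one system of coordinates -/
abbrev oB {T s : Type} [Finite s] (p : T → s → Ω) (hp : ∀ t, p t ≠ 0) : Unit → Tav.LS Ω T :=
  fun _ => Tav.LS.co p hp

/-- a closed irreducible point set with two points -/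
structure Var {C τ : Type} (c : C → τ → Ω) : Prop where
  ne : ∀ x, c x ≠ 0
  inj : ∀ x y, Tav.Par (c x) (c y) → x = y
  cl : ∀ z ∈ zeroLocus Ω (Tav.idl c), z ≠ 0 → ∃ x, Tav.Par z (c x)
  irr : (Tav.idl c).IsPrime
  two : Nontrivial C

/-- the package of a curve: an abelian variety `J`, a map `a`, the secant map `s`, and the
relation between the bundle of `s` and bundles that come from `C` and from `J × C` -/
structure CJ {C τ : Type} [Fintype τ] (c : C → τ → Ω) (hc : ∀ x, c x ≠ 0) where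
  J : Type
  σ : Type
  [grp : AddCommGroup J]
  [fin : Fintype σ]
  g : ℕ
  h : J → σ → Ω
  av : Tav.AV h g
  inj : ∀ y y', Tav.Par (h y) (h y') → y = y'
  a : C → J
  mor : Tav.Mor c h a
  s : C × C → τ × τ → Ω
  sne : ∀ t, s t ≠ 0
  sreg : Tav.Reg (Tav.prodB (oB c hc) (oB c hc)) (Tav.LS.co s sne)
  mnr : ∀ t, ∃ E : Ω, ∀ i j, c t.1 i * c t.2 j - c t.1 j * c t.2 i = E * s t (i, j)
  N : ℕ
  N0 : N ≠ 0
  U : Tav.LS Ω C
  U1 : Tav.LS Ω C
  V : Tav.LS Ω (J × C)
  V1 : Tav.LS Ω (J × C)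
  rU : Tav.Reg (oB c hc) U
  rU1 : Tav.Reg (oB c hc) U1
  rV : Tav.Reg (Tav.prodB (oB h av.ne) (oB c hc)) V
  rV1 : Tav.Reg (Tav.prodB (oB h av.ne) (oB c hc)) V1
  mu : C × C → Ω
  rel : Tav.Eqv (Tav.prodB (oB c hc) (oB c hc)) mu
    (Tav.LS.co s sne ^ N * U.pb Prod.fst * V.pb (Prod.map a id))
    (U1.pb Prod.fst * V1.pb (Prod.map a id))

attribute [instance] CJ.grp CJ.fin

end Curve

end Pool.Agent.Bcv
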