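import Pool.Agent.P.MP_dd457d_ag.Bcv.Union
import Pool.Agent.P.MP_dd457d_ag.Bcv.Psi
import Pool.Agent.P.MP_dd457d_ag.Bcv.Frob

/-! The union of all parts, and the abelian variety inside it. -/

set_option autoImplicit false
set_option linter.unusedSectionVars false

noncomputable section

namespace Pool.Agent.Bcv

open MvPolynomial Function Pool.Agent.Bav

variable {Ω σ τ X ι : Type} [Field Ω] [IsAlgClosed Ω] {I : Ideal (MvPolynomial σ Ω)}
  [Fintype σ] [Fintype τ] [Fintype ι]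

theorem exists_union {β : Type} [Fintype β] {υ₁ υ₂ X₁ X₂ : Type} [Fintype υ₁] [Fintype υ₂]
    {I₁ : Ideal (MvPolynomial υ₁ Ω)} {I₂ : Ideal (MvPolynomial υ₂ Ω)} (Γ₁ : Geo I₁ X₁)
    (Γ₂ : Geo I₂ X₂) {υ Z : β → Type} [∀ b, Fintype (υ b)] {K : ∀ b, Ideal (MvPolynomial (υ b) Ω)}
    (Δ : ∀ b, Geo (K b) (Z b)) :
    ∃ (σ X : Type) (_ : Fintype σ) (I : Ideal (MvPolynomial σ Ω)) (Γ : Geo I X),
      (∃ u j, OPart Γ Γ₁ u j) ∧ (∃ u j, OPart Γ Γ₂ u j) ∧ ∀ b, ∃ u j, OPart Γ (Δ b) u j :=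
  ⟨_, _, inferInstance, _, (Γ₁.sum Γ₂).sum (Geo.sigma Δ),
    ⟨_, _, (OPart.inl _ _).trans (OPart.inl _ _)⟩, ⟨_, _, (OPart.inl _ _).trans (OPart.inr _ _)⟩,
    fun b => ⟨_, _, (OPart.inr _ _).trans (OPart.sigma Δ b)⟩⟩

variable {Γ : Geo I X}

theorem regF_mor {T U s s' : Type} {p : T → s → Ω} {q : U → s' → Ω} {f : T → U}
    (h : Tav.Mor p q f) (hq : ∀ u, q u ≠ 0) {φ : (ι → X) → T} (hφ : Γ.RegF fun x => p (φ x)) :
    Γ.RegF fun x => q (f (φ x)) := by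
  refine ⟨fun x => hq _, ?_⟩
  rw [← crd_pb (fun t => q (f t)) φ]
  refine rg_comp φ h fun b => ?_
  obtain rfl : b = 0 := Subsingleton.elim _ _
  exact (crd_pb p φ).symm ▸ hφ.rg

theorem regF_sub {A s : Type} [AddCommGroup A] {p : A → s → Ω} {g : ℕ} (av : Tav.AV p g)
    {φ ψ : (ι → X) → A} (hφ : Γ.RegF fun x => p (φ x)) (hψ : Γ.RegF fun x => p (ψ x)) :
    Γ.RegF fun x => p (φ x - ψ x) := by
  refine ⟨fun x => av.ne _, ?_⟩
  have := rg_comp (L := fun i => Tav.crd fun t : ι → X => Γ.p (t i)) (fun x => (φ x, ψ x)) av.sub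
    (Fin.forall_fin_two.2 ⟨(crd_pb (fun t : A × A => p t.1) _).symm ▸ hφ.rg,
      (crd_pb (fun t : A × A => p t.2) _).symm ▸ hψ.rg⟩)
  rwa [crd_pb (fun t : A × A => p (t.1 - t.2))] at this

/-- the abelian variety inside the union -/
theorem exists_ag {A : Type} [AddCommGroup A] {p : A → τ → Ω} {g : ℕ} (av : Tav.AV p g)
    {Δ : Geo (Tav.idl p) A} (hΔ : Δ.p = p) {q : ℕ} {F : A → A}
    (hF : ∀ y, Tav.Par (p (F y)) (p y ^ q))
    (H : (fun n => cy (Tav.idl p) (IX (Tav.idl p) (Unit ⊕ Unit) ⊔ Pav.gS τ _ (q ^ n)) 0) ∈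
      SP (Bx (Tav.idl p)) q ∧
      ∃ (σ : Type) (_ : Fintype σ) (h : A → σ → Ω) (c : ℂ), c ≠ 0 ∧
        (∀ y, h y ≠ 0) ∧ Tav.Mor p h id ∧
        (lg (Δ.twF fun t : Unit → A => h (t ())) ^ g) (Δ.cT Set.univ 0) = c • Δ.cT {0} 0)
    {u : τ → σ} {j : A → X} (E : OPart Γ Δ u j) :
    ∃ (τ' : Type) (_ : Fintype τ') (D : AG Γ A τ' q), D.j = j ∧ (∀ n, D.F n = F^[n]) ∧
      ∀ (ι : Type) [Fintype ι] (i : ι), Γ.RegF fun x : ι → X => p (D.r (x i)) := by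
  obtain ⟨H1, τ', _, h, c, hc, hne, hm, pt⟩ := H
  obtain ⟨r, rj, hr⟩ := E.exists_ret 0
  have hF' : Δ.IsFr q F := fun y => by rw [hΔ]; exact hF y
  have hp : ∀ (ι : Type) [Fintype ι] (i : ι), Γ.RegF fun x : ι → X => p (r (x i)) :=
    fun ι _ i => hΔ ▸ hr ι i
  have h1 : Γ.RegF fun t : Unit → X => h (r (t ())) := regF_mor hm hne (hp Unit ())
  have h2 : Δ.RegF fun t : Unit → A => h (t ()) :=
    regF_mor hm hne (φ := fun t => t ()) (by simpa only [hΔ] using Δ.regF_proj ())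
  have h3 : ∀ (m : ℕ) x, (lg (Γ.twF fun t : Unit → X => h (r (t ()))) ^ m) (E.ext Unit x) =
      E.ext Unit ((lg (Δ.twF fun t : Unit → A => h (t ())) ^ m) x) := fun m x => by
    induction m with
    | zero => rfl
    | succ m ih =>
      rw [pow_succ', pow_succ', Module.End.mul_apply, Module.End.mul_apply, ih]
      refine lg_inter h2.unip h1.unip (fun z => ?_) _
      simpa only [comp_apply, rj] using (E.ext_twF h1 z).symm
  refine ⟨τ', inferInstance,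
    { j := j, r := r, rj := rj, h := h, hr := h1, g := g, c := c, hc := hc, F := fun n => F^[n]
      sub := E.regF_pad (hΔ.symm ▸ regF_sub av (hp _ _) (hp _ _))
      Fr := fun n => E.regF_pad (OPart.regF_ext ((hF'.iter n).regF ()) (φ := fun x _ => r (x ()))
        fun _ => hr _ _)
      pt := ?_, sp := ?_ }, rfl, fun _ => rfl, hp⟩
  · have := congrArg (E.ext Unit) pt
    rw [← h3, map_smul, E.ext_cT, E.ext_cT, Set.image_singleton] at this
    refine Eq.trans (congrArg (fun T => (lg _ ^ g : Module.End ℂ _) (Γ.cT T 0)) ?_) this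
    ext t
    exact ⟨fun ⟨y, e⟩ => ⟨fun _ => y, trivial, e⟩, fun ⟨y, _, e⟩ => ⟨y (), e⟩⟩
  · refine AG.mem_congr (SP.map (E.ext _) (Bx.map _ fun x y => ?_) H1) fun n => ?_
    · rw [E.ext_box]
      exact box_mem _ _
    · rw [← Pav.cT_graph Δ (hF'.iter n), E.ext_cT]
      refine congrArg (Γ.cT · 0) (Set.ext fun t => ⟨?_, ?_⟩)
      · rintro ⟨y, hy, rfl⟩
        refine ⟨y (.inl ()), funext ?_⟩
        rintro (_ | _)
        exacts [rfl, congrArg j (Eq.symm hy)]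
      · rintro ⟨y, rfl⟩
        refine ⟨Sum.elim (fun _ => y) fun _ => F^[n] y, rfl, funext ?_⟩
        rintro (_ | _) <;> rfl

end Pool.Agent.Bcv
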