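import Pool.Agent.P.MP_dd457d_ag.Bcv.DefK
import Pool.Agent.P.MP_dd457d_ag.Bav.Bridge
import Pool.Agent.P.MP_2ce3e7_ag.Pav.Graph

/-! The operator of the secant map cuts out a graph in one slot. -/

set_option autoImplicit false

noncomputable section

namespace Pool.Agent.Bcv

open MvPolynomial Function Pool.Agent.Bav

theorem iv_mul {R : Type*} [Ring R] [Algebra ℂ R] {t : R} (h : Unip t) : iv t * t = 1 := by
  have e := ex_add (Commute.refl (lg t)).neg_left h.lg_nil.neg h.lg_nil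
  rw [neg_add_cancel, ex_zero, h.ex_lg] at e
  exact e.symm

theorem comm_iv {R : Type*} [Ring R] [Algebra ℂ R] {t b : R} (h : Unip t) (c : Commute b t) :
    Commute b (iv t) := comm_ex h.lg_nil.neg (h.comm_lg c).neg_right

variable {Ω σ X κ τ : Type} [Field Ω] {I : Ideal (MvPolynomial σ Ω)}

theorem dg_crd {T : Type} {w : T → τ → Ω} {g : T → Ω} {V : Submodule Ω (T → Ω)}
    (h : ∀ a, (g * fun t => w t a) ∈ V) : ∀ u ∈ Tav.crd w, g * u ∈ V := fun u hu => by
  induction hu using Submodule.span_induction with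
  | mem y hy =>
    obtain ⟨l, rfl⟩ := hy
    exact h l
  | zero => rw [mul_zero]; exact V.zero_mem
  | add y z _ _ hy hz => rw [mul_add]; exact V.add_mem hy hz
  | smul r y _ hy => rw [mul_smul_comm]; exact V.smul_mem _ hy

theorem dg_pc0 {T : Type} {x : T → κ × σ → Ω} {W : Submodule Ω (T → Ω)} {u : T → Ω} (h : u ∈ W) :
    u ∈ pcZ x 0 * W := by
  have := Submodule.mul_mem_mul (one_mem_pcZ (x := x)) h
  rwa [one_mul] at this

/-- a function of the module times a chart factor is a form -/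
theorem dg_form {T : Type} {x : T → κ × σ → Ω} {w : T → τ → Ω} {g lam u : T → Ω}
    {P : τ → S σ Ω κ} {d e : κ → ℤ} (hP : ∀ a, Hg (P a) e)
    (hl : ∀ t a, eval (x t) (P a) = lam t * w t a)
    (hu : u ∈ pcZ x d * Tav.crd fun t a => g t * w t a) :
    ∃ G, Hg G (d + e) ∧ lam * u = evF x G * g := by
  have h1 : lam * u ∈ pcZ x (d + e) * Submodule.span Ω {g} := by
    refine Submodule.mul_induction_on hu (fun a ha v hv => ?_) fun a b ha hb => ?_
    · rw [mul_left_comm, add_comm]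
      refine mul_mem_pc ha (dg_crd (fun l => ?_) v hv)
      have e1 : (lam * fun t => g t * w t l) = evF x (P l) * g := funext fun t => by
        simp only [Pi.mul_apply, evF_apply, hl]
        ring
      rw [e1]
      exact Submodule.mul_mem_mul (evF_mem (hP l)) (Submodule.mem_span_singleton_self g)
    · rw [mul_add]; exact Submodule.add_mem _ ha hb
  obtain ⟨_, ⟨G, hG, rfl⟩, h2⟩ := Submodule.mem_mul_span_singleton.1 h1
  exact ⟨G, hG, h2.symm⟩

theorem dg_pow_ann (M : GM I κ) {u : S σ Ω κ} (h : ∀ d y, ∃ N : ℕ, u ^ N • M.π d y = 0) :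
    ∃ N : ℕ, u ^ N ∈ M.ann := by
  obtain ⟨n, x, d, hx, hs⟩ := M.exists_gens
  choose N hN using fun i => h (d i) (x i)
  refine ⟨∑ i, N i, GM.mem_ann.2 fun y => ?_⟩
  have hy : y ∈ Submodule.span (S σ Ω κ) (Set.range x) := hs ▸ Submodule.mem_top
  induction hy using Submodule.span_induction with
  | mem y hy =>
    obtain ⟨i, rfl⟩ := hy
    obtain ⟨m, hm⟩ := Nat.exists_eq_add_of_le'
      (Finset.single_le_sum (f := N) (fun _ _ => Nat.zero_le _) (Finset.mem_univ i))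
    rw [hm, pow_add, mul_smul, ← hx i, hN, smul_zero]
  | zero => exact smul_zero _
  | add y z _ _ hy hz => rw [smul_add, hy, hz, add_zero]
  | smul r y _ hy => rw [smul_comm, hy, smul_zero]

/-- the indicator function -/
def ind (Ω : Type) [Field Ω] {T : Type} (A : Set T) : T → Ω := A.indicator 1

theorem ind_of_mem {T : Type} {A : Set T} {t : T} (h : t ∈ A) : ind Ω A t = 1 :=
  Set.indicator_of_mem h _

theorem ind_of_not {T : Type} {A : Set T} {t : T} (h : t ∉ A) : ind Ω A t = 0 :=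
  Set.indicator_of_notMem h _

variable [IsAlgClosed Ω] [Fintype σ] [Fintype κ] (Γ : Geo I X)

theorem dg_onX : OnX I fun t : κ → X => xp Γ.p t := fun _ hf d t =>
  Γ.ev_of_IX (grI_IX Γ.hom d _ hf) t

theorem dg_kill {T : Set (κ → X)} {f : S σ Ω κ} :
    FA.sg (fun t : κ → X => xp Γ.p t) 0 (ind Ω T) * evA _ f = 0 ↔ f ∈ Γ.VI T := by
  have key : ∀ d, FA.co _ d (FA.sg (fun t : κ → X => xp Γ.p t) 0 (ind Ω T) * evA _ f) =
      ind Ω T * evF (fun t : κ → X => xp Γ.p t) (cmp d f) := fun d => by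
    conv_lhs => rw [← add_zero d, FA.co_mul, co_evA]
  constructor
  · intro h0
    obtain ⟨s, hs⟩ := polyA_sum wt f
    rw [← hs]
    refine Ideal.sum_mem _ fun d _ =>
      (Γ.mem_VI (weightedHomogeneousComponent_isWeightedHomogeneous d f)).2 fun t ht => ?_
    have := congrFun (key d) t
    rw [h0, map_zero, Pi.mul_apply, ind_of_mem ht, one_mul, evF_apply] at this
    exact this.symm
  · intro hf
    refine FA.ext' fun d => ?_
    rw [key, map_zero]
    funext t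
    by_cases ht : t ∈ T
    · rw [Pi.mul_apply, evF_apply]
      exact mul_eq_zero_of_right _ (Γ.ev_of_VI (Γ.grI_VI T d f hf) ht)
    · rw [Pi.mul_apply, ind_of_not ht, zero_mul]; rfl

theorem dg_cyc (T : Set (κ → X)) :
    ∃ y, IsCyc (Γ.VI T) 0 (FM (dg_onX Γ) (Submodule.span Ω {ind Ω T})) y := by
  have e' : FS (fun t : κ → X => xp Γ.p t) (Submodule.span Ω {ind Ω T}) =
      Submodule.span (S σ Ω κ) {FA.sg _ 0 (ind Ω T)} := by
    rw [FS_eq_span, Set.image_singleton]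
  have h1 : FA.sg _ 0 (ind Ω T) ∈ FS (fun t : κ → X => xp Γ.p t) (Submodule.span Ω {ind Ω T}) :=
    e' ▸ Submodule.mem_span_singleton_self _
  refine ⟨FM.mk (dg_onX Γ) _ h1, FM.ext' ?_, fun y => ?_, fun f => ?_⟩
  · rw [FM_π, neg_zero, FM.val_mk, FA.co_sg]
  · obtain ⟨f, hf⟩ := Submodule.mem_span_singleton.1 (e' ▸ FM.val_mem y)
    exact ⟨f, FM.ext' hf.symm⟩
  · rw [← dg_kill Γ, mul_comm]
    exact ⟨fun h => congrArg FM.val h, fun h => FM.ext' h⟩

variable {Γ}

theorem dg_twF [Fintype τ] {f : (κ → X) → τ → Ω} (h : Γ.RegF f) (T : Set (κ → X)) :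
    Γ.twF f (Γ.cT T 0) = cls (FM (dg_onX Γ) (Tav.crd fun t a => ind Ω T t * f t a)) := by
  obtain ⟨D, hD⟩ := h.exists_td
  obtain ⟨y, hy⟩ := dg_cyc Γ T
  obtain ⟨t⟩ := tw_FM (dg_onX Γ) D hD (Submodule.span Ω {ind Ω T})
    (Tav.crd fun t a => ind Ω T t * f t a) (by
      rw [Tav.crd, Tav.crd, Submodule.span_mul_span, Set.mul_singleton, ← Set.range_comp]
      congr 2
      funext l t
      exact mul_comm _ _)
  rw [hD.twF_eq, Geo.cT, ← hy.cls_eq, D.L_cls t]

variable [DecidableEq κ] {ψ : (κ → X) → X} {b : κ} {T : Set (κ → X)}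

/-- the points off the graph are dense -/
theorem dg_dense (c : CX Γ) (h3 : ∀ t ∈ T, ∀ y ∈ c.C, update t b y ∈ T)
    (h2 : ∀ t ∈ T, t b ∈ c.C) (h4 : ∀ t y, ψ (update t b y) = ψ t) {G : S σ Ω κ} {d : κ → ℤ}
    (hG : Hg G d) (h : ∀ t ∈ T, t b ≠ ψ t → Γ.ev t G = 0) : ∀ t ∈ T, Γ.ev t G = 0 := by
  intro t ht
  by_cases e : t b = ψ t
  swap
  · exact h t ht e
  have hZ : Γ.Cl {z : κ → X | Γ.ev z G = 0} :=
    Γ.cl_of_sep fun x hx => ⟨G, d, hG, fun _ hy => hy, hx⟩
  have hr : Γ.RegM fun y : Unit → X => update t b (y ()) := fun j => by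
    by_cases hj : j = b
    · subst hj
      simpa only [update_self] using Γ.regF_proj ()
    · simpa only [update_of_ne hj] using Γ.regF_const (ι := Unit) (Γ.ne (t j))
  have h5 := hZ.preimage hr (Γ.ZS_anti (Γ.VI_anti fun y hy => ?_) (c.iso (t b) (h2 t ht)))
  · simpa only [Set.mem_preimage, update_eq_self, Set.mem_ofPred_eq] using h5
  · refine h _ (h3 t ht _ hy.1) ?_
    change update t b (y ()) b ≠ ψ (update t b (y ()))
    rw [update_self, h4, ← e]
    exact hy.2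

/-- a form that vanishes on the graph is, up to a power of a chart, a combination of minors -/
theorem dg_subst {P : σ → S σ Ω κ} {e : κ → ℤ} (hP : ∀ a, Hg (P a) e) {lam : (κ → X) → Ω}
    (hl : ∀ t a, Γ.ev t (P a) = lam t * Γ.p (ψ t) a) (h3 : ∀ t ∈ T, update t b (ψ t) ∈ T)
    (h4 : ∀ t y, ψ (update t b y) = ψ t) {G : S σ Ω κ} {d : κ → ℤ} (hG : Hg G d)
    (h : ∀ t ∈ T, t b = ψ t → Γ.ev t G = 0) {K : Ideal (S σ Ω κ)} (hK : Γ.VI T ≤ K)
    (hm : ∀ a a', P a * MvPolynomial.X (b, a') - P a' * MvPolynomial.X (b, a) ∈ K) (a₀ : σ) :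
    ∃ m : ℕ, P a₀ ^ m * G ∈ K := by
  let θ : κ × σ → S σ Ω κ := fun v => if v.1 = b then P v.2 else MvPolynomial.X v
  have h1 : aeval θ G ∈ K := by
    refine hK ((Γ.mem_VI (Geo.hg_subst (e := fun j => if j = b then e else Pi.single j 1)
      (fun v => ?_) hG)).2 fun t ht => ?_)
    · by_cases hv : v.1 = b
      · simpa only [θ, if_pos hv] using hP v.2
      · simpa only [θ, if_neg hv, ← wt_eq_single] using hg_X v
    · rw [Γ.ev_subst (y := update t b (ψ t)) (l := fun j => if j = b then lam t else 1)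
        (fun v => ?_) hG, h _ (h3 t ht) (by rw [update_self, h4]), mul_zero]
      by_cases hv : v.1 = b
      · simp only [θ, if_pos hv, hl]
        rw [hv, update_self]
      · simp only [θ, if_neg hv, Γ.ev_X, one_mul, update_of_ne hv]
  refine ⟨(d b).toNat, ?_⟩
  rw [← Ideal.Quotient.eq_zero_iff_mem]
  let q := Ideal.Quotient.mkₐ Ω K
  have e1 := Pav.aeval_scale hG (fun j => if j = b then q (P a₀) else 1)
    fun v => q (MvPolynomial.X v)
  have e2 := Pav.aeval_scale hG (fun j => if j = b then q (MvPolynomial.X (b, a₀)) else 1)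
    fun v => q (θ v)
  have e3 : (fun v : κ × σ => (if v.1 = b then q (P a₀) else 1) * q (MvPolynomial.X v)) =
      fun v => (if v.1 = b then q (MvPolynomial.X (b, a₀)) else 1) * q (θ v) := by
    funext ⟨j, a⟩
    by_cases hv : j = b
    · subst hv
      simp only [θ, if_true]
      rw [← map_mul, ← map_mul, mul_comm (MvPolynomial.X (j, a₀))]
      exact Ideal.Quotient.eq.2 (hm a₀ a)
    · simp only [θ, if_neg hv]
  have e4 : aeval (fun v => q (θ v)) G = 0 := by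
    rw [← comp_aeval, AlgHom.comp_apply]
    exact Ideal.Quotient.eq_zero_iff_mem.2 h1
  have e5 : aeval (fun v => q (MvPolynomial.X v)) G = q G := by
    rw [← comp_aeval, AlgHom.comp_apply, aeval_X_left_apply]
  rw [e3, e2, e4, mul_zero, e5, Finset.prod_eq_single b (fun j _ hj => by rw [if_neg hj, one_pow])
    (fun h => absurd (Finset.mem_univ b) h), if_pos rfl, ← map_pow, ← map_mul] at e1
  exact e1.symm

/-- the exact sequence of the graph -/
theorem dg_ses (c : CX Γ) (hψ : Γ.RegF fun t => Γ.p (ψ t)) (h1 : ∀ t ∈ T, ψ t ∈ c.C)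
    (h2 : ∀ t ∈ T, t b ∈ c.C) (h3 : ∀ t ∈ T, ∀ y ∈ c.C, update t b y ∈ T)
    (h4 : ∀ t y, ψ (update t b y) = ψ t) (hs : Γ.RegF fun t => c.s (ψ t) (t b)) :
    cls (FM (dg_onX Γ) (Tav.crd fun t (a : σ × σ) =>
        ind Ω T t * (Γ.p (ψ t) a.1 * Γ.p (t b) a.2))) =
      cls (FM (dg_onX Γ) (Tav.crd fun t a => ind Ω T t * c.s (ψ t) (t b) a)) +
      cls (FM (dg_onX Γ) (Tav.crd fun t (a : σ × σ) =>
        ind Ω {t | t ∈ T ∧ t b = ψ t} t * (Γ.p (ψ t) a.1 * Γ.p (t b) a.2))) := by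
  obtain ⟨E, hE⟩ : ∃ E : (κ → X) → Ω, ∀ t ∈ T, ∀ a a', Γ.p (ψ t) a * Γ.p (t b) a' -
      Γ.p (ψ t) a' * Γ.p (t b) a = E t * c.s (ψ t) (t b) (a, a') := by
    choose! E hE using fun t (ht : t ∈ T) => c.mnr _ (h1 t ht) _ (h2 t ht)
    exact ⟨E, hE⟩
  set x : (κ → X) → κ × σ → Ω := fun t => xp Γ.p t
  set W₁ := Tav.crd fun t a => ind Ω T t * c.s (ψ t) (t b) a
  set W₂ := Tav.crd fun t (a : σ × σ) => ind Ω T t * (Γ.p (ψ t) a.1 * Γ.p (t b) a.2)
  set T' := {t | t ∈ T ∧ t b = ψ t}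
  set W₃ := Tav.crd fun t (a : σ × σ) => ind Ω T' t * (Γ.p (ψ t) a.1 * Γ.p (t b) a.2)
  have hT : ∀ t, ind Ω T' t * ind Ω T t = ind Ω T' t := fun t => by
    by_cases ht : t ∈ T'
    · rw [ind_of_mem ht.1, mul_one]
    · rw [ind_of_not ht, zero_mul]
  have m1 : ∀ a : σ × σ, (E * fun t => ind Ω T t * c.s (ψ t) (t b) a) =
      (fun t => ind Ω T t * (Γ.p (ψ t) a.1 * Γ.p (t b) a.2)) -
        fun t => ind Ω T t * (Γ.p (ψ t) a.2 * Γ.p (t b) a.1) := fun a => funext fun t => by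
    simp only [Pi.mul_apply, Pi.sub_apply]
    by_cases ht : t ∈ T
    · rw [← mul_sub, hE t ht, mul_left_comm]
    · simp only [ind_of_not ht, zero_mul, mul_zero, sub_self]
  have m2 : ∀ a : σ × σ, (ind Ω T' * fun t => ind Ω T t * (Γ.p (ψ t) a.1 * Γ.p (t b) a.2)) =
      fun t => ind Ω T' t * (Γ.p (ψ t) a.1 * Γ.p (t b) a.2) := fun a => funext fun t => by
    rw [Pi.mul_apply, ← mul_assoc, hT]
  let f : Hom (FM (dg_onX Γ) W₁) (FM (dg_onX Γ) W₂) := FM.mulHom _ E (dg_crd fun a => dg_pc0 (by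
    rw [m1]
    exact W₂.sub_mem (mem_crd _ a) (mem_crd _ a.swap)))
  let g : Hom (FM (dg_onX Γ) W₂) (FM (dg_onX Γ) W₃) :=
    FM.mulHom _ (ind Ω T') (dg_crd fun a => dg_pc0 (by
      rw [m2]
      exact mem_crd _ a))
  have vf : ∀ F, FM.val (f.f F) = FA.sg x 0 E * FM.val F := fun _ => rfl
  have vg : ∀ F, FM.val (g.f F) = FA.sg x 0 (ind Ω T') * FM.val F := fun _ => rfl
  have co0 : ∀ (u : (κ → X) → Ω) (F : FA x) d, FA.co x d (FA.sg x 0 u * F) = u * FA.co x d F :=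
    fun u F d => by conv_lhs => rw [← add_zero d, FA.co_mul]
  have gs : Surjective g.f := fun y => by
    have hy := FM.val_mem y
    rw [show FS x W₃ = _ from FS_eq_span] at hy
    have key : ∀ F ∈ Submodule.span (S σ Ω κ) (FA.sg x 0 '' Set.range fun (a : σ × σ) t =>
        ind Ω T' t * (Γ.p (ψ t) a.1 * Γ.p (t b) a.2)), ∃ z, FM.val (g.f z) = F := by
      intro F hF
      induction hF using Submodule.span_induction with
      | mem F hF =>
        obtain ⟨_, ⟨a, rfl⟩, rfl⟩ := hF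
        exact ⟨FM.mk _ _ (sg_mem_FS (dg_pc0 (mem_crd _ a))), by
          rw [vg, FM.val_mk, FA.sg_mul, add_zero, m2]⟩
      | zero => exact ⟨0, by rw [map_zero]; rfl⟩
      | add F F' _ _ hF hF' =>
        obtain ⟨z, rfl⟩ := hF
        obtain ⟨z', rfl⟩ := hF'
        exact ⟨z + z', by rw [map_add]; rfl⟩
      | smul r F _ hF =>
        obtain ⟨z, rfl⟩ := hF
        exact ⟨r • z, by rw [map_smul]; rfl⟩
    obtain ⟨z, hz⟩ := key _ hy
    exact ⟨z, FM.ext' hz⟩
  have gf : ∀ F, g.f (f.f F) = 0 := fun F => FM.ext' (FA.ext' fun d => by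
    rw [vg, vf, co0, co0, ← mul_assoc]
    change _ = FA.co x d 0
    rw [map_zero]
    refine Submodule.mul_induction_on (FM.val_mem F d) (fun u _ v hv => ?_) fun u v hu hv => ?_
    · rw [mul_left_comm, (Submodule.mem_bot Ω).1 (dg_crd (V := ⊥) (fun a => ?_) v hv), mul_zero]
      rw [mul_assoc, m1, Submodule.mem_bot]
      funext t
      by_cases ht : t ∈ T'
      · simp only [Pi.mul_apply, Pi.sub_apply, ht.2]
        rw [mul_comm (Γ.p (ψ t) a.1), sub_self, mul_zero]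
        rfl
      · rw [Pi.mul_apply, ind_of_not ht, zero_mul]
        rfl
    · rw [mul_add, hu, hv, add_zero])
  let f' : Hom (FM (dg_onX Γ) W₁) ((FM (dg_onX Γ) W₂).sub _ g.gr_ker) :=
    ⟨f.f.codRestrict _ gf, fun d y => Subtype.ext (f.π d y)⟩
  have fi : Injective f'.f := by
    rw [injective_iff_map_eq_zero]
    intro F hF
    have h0 : FA.sg x 0 E * FM.val F = 0 := congrArg FM.val (congrArg Subtype.val hF)
    refine FM.ext' (FA.ext' fun d => funext fun t₀ => ?_)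
    have h5 := co0 E (FM.val F) d
    rw [h0, map_zero] at h5
    obtain ⟨D, hD⟩ := hs.exists_td
    obtain ⟨c₀, a₀, ha⟩ := Γ.td_ne D t₀
    choose lam hl using hD c₀
    obtain ⟨G, hG, e⟩ := dg_form (x := x) (D.hg c₀) hl (FM.val_mem F d)
    have h6 := dg_dense c h3 h2 h4 hG fun t ht hn => by
      have e1 := congrFun e t
      have e2 := congrFun h5 t
      rw [Pi.mul_apply, Pi.mul_apply, ind_of_mem ht, mul_one, evF_apply] at e1
      rw [Pi.mul_apply, eq_comm] at e2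
      rcases mul_eq_zero.1 e2 with e3 | e3
      · refine absurd (Γ.inj _ _ (Geo.reg_par_minor (Γ.ne _) (Γ.ne _) fun a a' => ?_)).symm hn
        rw [← sub_eq_zero, hE t ht, e3, zero_mul]
      · rw [e3, mul_zero] at e1
        exact e1.symm
    have e1 := congrFun e t₀
    have e2 : (evF x G * ind Ω T) t₀ = 0 := by
      by_cases ht : t₀ ∈ T
      · rw [Pi.mul_apply, evF_apply]
        exact mul_eq_zero_of_left (h6 t₀ ht) _
      · rw [Pi.mul_apply, ind_of_not ht, mul_zero]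
    rw [e2, Pi.mul_apply] at e1
    refine (mul_eq_zero.1 e1).resolve_left fun h7 => ha ?_
    rw [hl, h7, zero_mul]
  rw [cls_surj g gs, cls_inj f' fi, cls_irr (M := GM.quo _ _ f'.gr_range), add_zero]
  rw [Γ.irr_iff (GM.grI_ann _) (GM.IX_le_ann _), Set.eq_empty_iff_forall_notMem]
  intro t₀ ht₀
  obtain ⟨D, hD⟩ := hψ.exists_td
  obtain ⟨c₀, a₀, ha⟩ := Γ.td_ne D t₀
  choose lam hl using hD c₀
  obtain ⟨N, hN⟩ := dg_pow_ann (GM.quo _ _ f'.gr_range) (u := D.P c₀ a₀) fun d y => by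
    obtain ⟨y, rfl⟩ := (LinearMap.range f'.f).mkQ_surjective y
    have hP : ∀ a : σ × σ, Hg (D.P c₀ a.1 * MvPolynomial.X (b, a.2)) (D.e c₀ + Pi.single b 1) :=
      fun a => (D.hg c₀ a.1).mul (by simpa only [wt_eq_single] using hg_X (k := Ω) (b, a.2))
    obtain ⟨G, hG, e⟩ := dg_form (x := x) (lam := lam) (g := ind Ω T)
      (w := fun t (a : σ × σ) => Γ.p (ψ t) a.1 * Γ.p (t b) a.2) hP
      (fun t a => by
        change Γ.ev t _ = _
        rw [map_mul, hl, Γ.ev_X, mul_assoc]) (FM.val_mem y.1 d)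
    have h5 := co0 (ind Ω T') (FM.val y.1) d
    rw [show FA.sg x 0 (ind Ω T') * FM.val y.1 = 0 from congrArg FM.val y.2, map_zero] at h5
    let K : Ideal (S σ Ω κ) :=
      { carrier := {u | ∃ z ∈ FS x W₁, FA.sg x 0 (ind Ω T) * evA x u =
          FA.sg x (D.e c₀ + Pi.single b 1) (lam * E) * z}
        add_mem' := by
          rintro u v ⟨z, hz, e1⟩ ⟨z', hz', e2⟩
          exact ⟨z + z', Submodule.add_mem _ hz hz', by rw [map_add, mul_add, mul_add, e1, e2]⟩
        zero_mem' := ⟨0, Submodule.zero_mem _, by rw [map_zero, mul_zero, mul_zero]⟩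
        smul_mem' := by
          rintro r u ⟨z, hz, e1⟩
          exact ⟨r • z, Submodule.smul_mem _ _ hz, by
            rw [smul_eq_mul, map_mul, mul_left_comm, e1, FA.smul_def, mul_left_comm]⟩ }
    obtain ⟨m, z, hz, e1⟩ := dg_subst (K := K) (D.hg c₀) hl (fun t ht => h3 t ht _ (h1 t ht)) h4 hG
      (fun t ht hb => by
        have e1 := congrFun e t
        have e2 := congrFun h5 t
        rw [Pi.mul_apply, Pi.mul_apply, ind_of_mem ht, mul_one, evF_apply] at e1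
        rw [Pi.mul_apply, ind_of_mem (A := T') ⟨ht, hb⟩, one_mul] at e2
        rw [← e2, Pi.zero_apply, mul_zero] at e1
        exact e1.symm)
      (fun u hu => ⟨0, Submodule.zero_mem _, by rw [(dg_kill Γ).2 hu, mul_zero]⟩)
      (fun a a' => ⟨_, sg_mem_FS (dg_pc0 (mem_crd _ (a, a'))), by
        rw [evA_hg (poly_hg_sub (hP (a, a')) (hP (a', a))), FA.sg_mul, FA.sg_mul, zero_add,
          add_zero, mul_assoc, m1]
        congr 1
        funext t
        rw [Pi.mul_apply, evF_apply]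
        change _ * Γ.ev t _ = _
        simp only [map_sub, map_mul, hl, Γ.ev_X, Pi.mul_apply, Pi.sub_apply]
        ring⟩) a₀
    refine ⟨m + 1, ?_⟩
    change (LinearMap.range f'.f).mkQ (D.P c₀ a₀ ^ (m + 1) • (GM.sub _ _ g.gr_ker).π d y) = 0
    refine (Submodule.Quotient.mk_eq_zero _).2 ⟨D.P c₀ a₀ • FM.mk _ z hz,
      Subtype.ext (FM.ext' ?_)⟩
    change FA.sg x 0 E * (evA x _ * z) = evA x _ * FA.sg x d (FA.co x d (FM.val y.1))
    have e2 : evA x (D.P c₀ a₀) = FA.sg x (-Pi.single b 1) (fun t => Γ.p (ψ t) a₀) *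
        FA.sg x (D.e c₀ + Pi.single b 1) lam := by
      rw [evA_hg (D.hg c₀ a₀), FA.sg_mul, neg_add_cancel_comm_assoc]
      congr 1
      funext t
      rw [evF_apply, Pi.mul_apply, mul_comm]
      exact hl t a₀
    have e3 : FA.sg x (D.e c₀ + Pi.single b 1) lam * FA.sg x d (FA.co x d (FM.val y.1)) =
        FA.sg x 0 (ind Ω T) * evA x G := by
      rw [evA_hg hG, FA.sg_mul, FA.sg_mul, e, zero_add, add_comm d, mul_comm]
    have e4 : FA.sg x (D.e c₀ + Pi.single b 1) (lam * E) =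
        FA.sg x (D.e c₀ + Pi.single b 1) lam * FA.sg x 0 E := by rw [FA.sg_mul, add_zero]
    rw [map_mul, e4] at e1
    rw [pow_succ, map_mul, mul_assoc]
    conv_rhs => rw [e2, mul_assoc, e3]
    rw [e2]
    linear_combination (-FA.sg x (-Pi.single b 1) fun t => Γ.p (ψ t) a₀) * e1
  have := ht₀ _ hN
  rw [map_pow] at this
  exact ha (eq_zero_of_pow_eq_zero this)

theorem CX.diag1 {Γ : Geo I X} (c : CX Γ) {ψ : (κ → X) → X}
    (hψ : Γ.RegF fun t => Γ.p (ψ t)) (b : κ) {T : Set (κ → X)} (h1 : ∀ t ∈ T, ψ t ∈ c.C)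
    (h2 : ∀ t ∈ T, t b ∈ c.C) (h3 : ∀ t ∈ T, ∀ y ∈ c.C, update t b y ∈ T)
    (h4 : ∀ t y, ψ (update t b y) = ψ t) (n : κ → ℤ) :
    c.op ψ b (Γ.cT T n) = Γ.cT {t | t ∈ T ∧ t b = ψ t} n := by
  have hb := Γ.regF_proj b
  have hs : Γ.RegF fun t => c.s (ψ t) (t b) :=
    Geo.RegF.comp c.rs (φ := fun t => Sum.elim (fun _ => ψ t) fun _ => t b) (by
      rintro (j | j)
      exacts [hψ, hb])
  have e := dg_ses c hψ h1 h2 h3 h4 hs
  rw [← dg_twF (hψ.seg hb), ← dg_twF (hψ.seg hb), ← dg_twF hs, Γ.twF_seg hψ hb] at e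
  have u : iv (Γ.twF fun t => Γ.p (ψ t)) * iv (Γ.twF fun t => Γ.p (t b)) *
      (Γ.twF (fun t => Γ.p (ψ t)) * Γ.twF fun t => Γ.p (t b)) = 1 := by
    rw [(Γ.twF_comm hψ hb).eq, mul_assoc, ← mul_assoc (iv (Γ.twF fun t => Γ.p (t b))),
      iv_mul hb.unip, one_mul, iv_mul hψ.unip]
  have cs := (comm_iv hψ.unip (Γ.twF_comm hs hψ)).mul_right (comm_iv hb.unip (Γ.twF_comm hs hb))
  have e0 : c.op ψ b (Γ.cT T 0) = Γ.cT {t | t ∈ T ∧ t b = ψ t} 0 := by
    have e1 := congrArg (iv (Γ.twF fun t => Γ.p (ψ t)) * iv (Γ.twF fun t => Γ.p (t b))) e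
    rw [map_add, ← Module.End.mul_apply, ← Module.End.mul_apply, ← Module.End.mul_apply, u,
      ← cs.eq, ← mul_assoc] at e1
    rw [CX.op, LinearMap.sub_apply, e1, add_sub_cancel_left, Module.End.one_apply]
  have cn : Commute (shG n) (c.op ψ b) := (Commute.one_right _).sub_right
    (((Γ.twF_shG hs n).symm.mul_right (comm_iv hψ.unip (Γ.twF_shG hψ n).symm)).mul_right
      (comm_iv hb.unip (Γ.twF_shG hb n).symm))
  rw [← zero_add n, ← Γ.shG_cT, ← Γ.shG_cT, ← e0, ← Module.End.mul_apply, ← cn.eq,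
    Module.End.mul_apply]

end Pool.Agent.Bcv
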