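import Pool.Agent.P.MP_dd457d_ag.Bcv.DiagA
import Pool.Agent.P.MP_dd457d_ag.Bcv.Diag

/-! The graph of a map into a product of curves. -/

set_option autoImplicit false

noncomputable section

namespace Pool.Agent.Bcv

open MvPolynomial Function Pool.Agent.Bav

variable {Ω σ X ι κ : Type} [Field Ω] [IsAlgClosed Ω] {I : Ideal (MvPolynomial σ Ω)}
  [Fintype σ] [Fintype ι] [Fintype κ]

theorem diag_all {Γ : Geo I X} (c : κ → CX Γ) {ψ : (ι → X) → κ → X} (hψ : Γ.RegM ψ)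
    (h : ∀ t i, ψ t i ∈ (c i).C) (z : G I ι) :
    ((Finset.univ : Finset κ).toList.map fun i =>
      (c i).op (fun t : ι ⊕ κ → X => ψ (t ∘ Sum.inl) i) (Sum.inr i)).prod
        (boxG z (Γ.cT {y | ∀ i, y i ∈ (c i).C} 0)) =
      Γ.pushM (fun t => Sum.elim t (ψ t)) z := by
  classical
  exact diag_all_of (fun c _ hψ b _ h1 h2 h3 h4 n => c.diag1 hψ b h1 h2 h3 h4 n) c hψ h z

end Pool.Agent.Bcv
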