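import Pool.Agent.P.MP_dd457d_ag.Bav.KPush
import Pool.Agent.P.MP_2ce3e7_ag.Tav.TiEqv
import Pool.Agent.P.MP_2ce3e7_ag.Tav.MAV

/-! Twists by linear systems. -/

set_option autoImplicit false

noncomputable section

namespace Pool.Agent.Bav

open MvPolynomial Function Pool.Agent.Tav

section Vec
variable {k T : Type} [Field k]

/-- the values of a basis of a linear system -/
def vecL (U : LS k T) (t : T) (a : Fin (Module.finrank k U.sp)) : k :=
  (Module.finBasis k U.sp a : T → k) t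

theorem crd_vecL (U : LS k T) : crd (vecL U) = U.sp := by
  have h := congrArg (Submodule.map U.sp.subtype) (Module.finBasis k U.sp).span_eq
  rw [Submodule.map_span, Submodule.map_subtype_top, ← Set.range_comp] at h
  exact h

theorem ne_of_crd {τ : Type} {f : T → τ → k} {U : LS k T} (h : crd f = U.sp) (t : T) :
    f t ≠ 0 := by
  intro h0
  obtain ⟨u, hu, h1⟩ := U.nv t
  rw [← h] at hu
  refine h1 ((Submodule.span_le (p := LinearMap.ker (LinearMap.proj t : (T → k) →ₗ[k] k))).2 ?_ hu)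
  rintro _ ⟨l, rfl⟩
  exact congrFun h0 l

theorem vecL_ne (U : LS k T) (t : T) : vecL U t ≠ 0 := ne_of_crd (crd_vecL U) t

theorem co_vecL (U : LS k T) : LS.co (vecL U) (vecL_ne U) = U := LS.ext' (crd_vecL U)

theorem mem_crdL {τ : Type} (f : T → τ → k) (b : τ) : (fun x => f x b) ∈ crd f :=
  Submodule.subset_span ⟨b, rfl⟩

theorem crd_vecL_pb {Y : Type} (U : LS k Y) (j : T → Y) :
    crd (fun t => vecL U (j t)) = (U.pb j).sp := by
  rw [← co_vecL U, LS.pb_co, co_vecL]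
  rfl

end Vec

variable {σ k ι κ τ X : Type} [Field k] [IsAlgClosed k] {I : Ideal (MvPolynomial σ k)}
  [Fintype σ] [Fintype ι] [Fintype κ] [Fintype τ]

namespace Geo

variable (Γ : Geo I X)

/-- the coordinate systems of the factors -/
def bs (ι : Type) (i : ι) : LS k (ι → X) := LS.co (fun t => Γ.p (t i)) fun _ => Γ.ne _

/-- the twist by a linear system -/
def twL (U : LS k (ι → X)) : Module.End ℂ (G I ι) := Γ.twF (vecL U)

variable {Γ} {U U' V : LS k (ι → X)} {f : (ι → X) → τ → k}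

omit [IsAlgClosed k] [Fintype τ] in
theorem regF_iff (h : crd f = U.sp) : Γ.RegF f ↔ Reg (Γ.bs ι) U := by
  rw [← Rg.reg, ← h]
  exact ⟨fun h1 => h1.rg, fun h1 => ⟨ne_of_crd h, h1⟩⟩

omit [IsAlgClosed k] in
theorem regF_vecL (h : Reg (Γ.bs ι) U) : Γ.RegF (vecL U) := (regF_iff (crd_vecL U)).2 h

omit [IsAlgClosed k] in
theorem RegF.reg (h : Γ.RegF f) : Reg (Γ.bs ι) (LS.co f h.ne) := (regF_iff rfl).1 h

theorem twL_eq (h : Reg (Γ.bs ι) U) (e : crd f = U.sp) : Γ.twL U = Γ.twF f :=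
  (Γ.twF_crd (regF_vecL h) (ne_of_crd e) (c := 1) (fun _ => one_ne_zero) fun b => by
    rw [one_mul, crd_vecL, ← e]
    exact mem_crdL f b).symm

theorem RegF.twL_co (h : Γ.RegF f) : Γ.twL (LS.co f h.ne) = Γ.twF f := twL_eq h.reg rfl

theorem twL_unip (h : Reg (Γ.bs ι) U) : Unip (Γ.twL U) := (regF_vecL h).unip

theorem twL_comm (h : Reg (Γ.bs ι) U) (h' : Reg (Γ.bs ι) V) : Commute (Γ.twL U) (Γ.twL V) :=
  Γ.twF_comm (regF_vecL h) (regF_vecL h')

theorem twL_mul (h : Reg (Γ.bs ι) U) (h' : Reg (Γ.bs ι) V) :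
    Γ.twL (U * V) = Γ.twL U * Γ.twL V := by
  rw [twL, twL, twL, ← Γ.twF_seg (regF_vecL h) (regF_vecL h')]
  exact twL_eq (h.mul h') (by rw [crd_seg, crd_vecL, crd_vecL, LS.mul_sp])

variable (Γ) in
theorem twL_one : Γ.twL (1 : LS k (ι → X)) = 1 := by
  rw [← Γ.twF_const (ι := ι) (z := fun _ : Unit => (1 : k)) (fun h => one_ne_zero (congrFun h ()))]
  refine twL_eq (Reg.one _) ?_
  rw [LS.one_sp, Submodule.one_eq_span, crd, Set.range_unique]
  rfl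

theorem twL_pow (h : Reg (Γ.bs ι) U) (n : ℕ) : Γ.twL (U ^ n) = Γ.twL U ^ n := by
  induction n with
  | zero => rw [pow_zero, pow_zero, twL_one]
  | succ n ih => rw [pow_succ, pow_succ, twL_mul (h.pow n) h, ih]

theorem twL_bs [DecidableEq ι] (i : ι) : Γ.twL (Γ.bs ι i) = shG (Pi.single i 1) :=
  (twL_eq (Reg.self _ i) rfl).trans (Γ.twF_proj i)

/-- a nowhere vanishing factor does not change the twist -/
theorem twL_map (h : Reg (Γ.bs ι) U') {mu : (ι → X) → k} (h0 : ∀ t, mu t ≠ 0)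
    (e : U.sp.map (LinearMap.mulLeft k mu) ≤ U'.sp) : Γ.twL U = Γ.twL U' :=
  Γ.twF_crd (regF_vecL h) (vecL_ne U) h0 fun b => by
    rw [crd_vecL]
    exact e ⟨_, crd_vecL U ▸ mem_crdL (vecL U) b, rfl⟩

theorem twL_eqv (h : Reg (Γ.bs ι) U) (h' : Reg (Γ.bs ι) U') {mu : (ι → X) → k}
    (e : Eqv (Γ.bs ι) mu U U') : Γ.twL U = Γ.twL U' := by
  obtain ⟨h0, W, hW, e⟩ := e
  have h1 := twL_map (h'.mul hW) h0 e.le
  rw [twL_mul h hW, twL_mul h' hW] at h1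
  exact (twL_unip hW).isUnit.mul_right_cancel h1

/-- an equivalence on another space, pulled back along a regular map -/
theorem twL_eqv_pb {Y γ : Type} [Fintype γ] {C : γ → LS k Y} {W W' : LS k Y} {m : Y → k}
    (h : Reg C W) (h' : Reg C W') (e : Eqv C m W W') {j : (ι → X) → Y}
    (hj : ∀ c, Reg (Γ.bs ι) ((C c).pb j)) : Γ.twL (W.pb j) = Γ.twL (W'.pb j) :=
  twL_eqv (Reg.trans hj (h.pb j)) (Reg.trans hj (h'.pb j)) (e.pb j hj)

omit [IsAlgClosed k] [Fintype κ] in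
theorem RegM.reg_bs {φ : (ι → X) → κ → X} (h : Γ.RegM φ) (j : κ) :
    Reg (Γ.bs ι) ((Γ.bs κ j).pb φ) := by
  rw [bs, LS.pb_co]
  exact (h j).reg

omit [IsAlgClosed k] in
theorem RegM.reg_pb {φ : (ι → X) → κ → X} (h : Γ.RegM φ) {W : LS k (κ → X)}
    (hW : Reg (Γ.bs κ) W) : Reg (Γ.bs ι) (W.pb φ) := Reg.trans h.reg_bs (hW.pb φ)

theorem twL_pb {φ : (ι → X) → κ → X} (h : Γ.RegM φ) {W : LS k (κ → X)} (hW : Reg (Γ.bs κ) W) :
    Γ.twL (W.pb φ) = Γ.twF fun t => vecL W (φ t) := twL_eq (h.reg_pb hW) (crd_vecL_pb W φ)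

theorem twL_pushM {φ : (ι → X) → κ → X} (h : Γ.RegM φ) {W : LS k (κ → X)} (hW : Reg (Γ.bs κ) W)
    (x : G I ι) : Γ.twL W (Γ.pushM φ x) = Γ.pushM φ (Γ.twL (W.pb φ) x) := by
  rw [twL_pb h hW]
  exact Γ.twF_pushM (regF_vecL hW) h x

theorem twL_supp (h : Reg (Γ.bs ι) U) {T : Set (ι → X)} {x : G I ι} (hx : x ∈ Γ.Supp T) :
    Γ.twL U x ∈ Γ.Supp T := (regF_vecL h).supp hx

/-- two pull-backs along maps that agree on `T` -/
theorem twL_loc {Y : Type} {W : LS k Y} {j j' : (ι → X) → Y} (h : Reg (Γ.bs ι) (W.pb j))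
    (h' : Reg (Γ.bs ι) (W.pb j')) {T : Set (ι → X)} (e : ∀ t ∈ T, j t = j' t) {x : G I ι}
    (hx : x ∈ Γ.Supp T) : Γ.twL (W.pb j) x = Γ.twL (W.pb j') x := by
  rw [twL_eq h (crd_vecL_pb W j), twL_eq h' (crd_vecL_pb W j')]
  exact Γ.twF_loc ((regF_iff (crd_vecL_pb W j)).2 h) ((regF_iff (crd_vecL_pb W j')).2 h')
    (fun t ht => ⟨1, isUnit_one, by rw [one_smul, e t ht]⟩) hx

theorem twL_box_left (h : Reg (Γ.bs ι) U) (x : G I ι) (y : G I κ) :
    Γ.twL (U.pb fun t : ι ⊕ κ → X => t ∘ Sum.inl) (boxG x y) = boxG (Γ.twL U x) y := by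
  rw [twL_pb (Γ.regM_rm Sum.inl) h]
  exact Γ.twF_box_left (regF_vecL h) x y

theorem twL_box_right (h : Reg (Γ.bs ι) U) (x : G I κ) (y : G I ι) :
    Γ.twL (U.pb fun t : κ ⊕ ι → X => t ∘ Sum.inr) (boxG x y) = boxG x (Γ.twL U y) := by
  rw [twL_pb (Γ.regM_rm Sum.inr) h]
  exact Γ.twF_box_right (regF_vecL h) x y

theorem lg_twL_mul (h : Reg (Γ.bs ι) U) (h' : Reg (Γ.bs ι) V) :
    lg (Γ.twL (U * V)) = lg (Γ.twL U) + lg (Γ.twL V) := by
  rw [twL_mul h h', lg_mul (twL_unip h) (twL_unip h') (twL_comm h h')]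

theorem lg_twL_pow (h : Reg (Γ.bs ι) U) (n : ℕ) : lg (Γ.twL (U ^ n)) = n • lg (Γ.twL U) := by
  rw [twL_pow h, lg_pow (twL_unip h)]

end Geo

end Pool.Agent.Bav
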