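import Pool.Agent.P.MP_dd457d_ag.Bcv.DefK
import Pool.Agent.P.MP_dd457d_ag.Bcv.Ext
import Pool.Agent.P.MP_dd457d_ag.Bcv.TwL

/-! The curve inside the union, and the relation between the twists. -/

set_option autoImplicit false

noncomputable section

namespace Pool.Agent.Bcv

open MvPolynomial Function Pool.Agent.Bav

theorem crd_extend {k T α β : Type} [Field k] {u : α → β} (hu : Injective u) (f : T → α → k) :
    (Tav.crd fun t => extend u (f t) 0) = Tav.crd f := by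
  refine le_antisymm (Submodule.span_le.2 ?_) (Submodule.span_le.2 ?_)
  · rintro _ ⟨l, rfl⟩
    by_cases e : ∃ a, u a = l
    · obtain ⟨a, rfl⟩ := e
      simp only [hu.extend_apply]
      exact mem_crd f a
    · simp only [extend_apply' _ _ _ e]
      exact Submodule.zero_mem _
  · rintro _ ⟨a, rfl⟩
    have := mem_crd (fun t => extend u (f t) 0) (u a)
    simp only [hu.extend_apply] at this
    exact this

variable {Ω σ τ X : Type} [Field Ω] [IsAlgClosed Ω] {I : Ideal (MvPolynomial σ Ω)}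
  [Fintype σ] [Fintype τ] {C : Type} {c : C → τ → Ω}

/-- a form that vanishes off one point vanishes -/
theorem Var.dens (hc : Var c) (x : C) {f : S τ Ω Unit} {d : Unit → ℤ} (hf : Hg f d)
    (h : ∀ y, y ≠ x → hc.geo.ev (fun _ => y) f = 0) : hc.geo.ev (fun _ => x) f = 0 := by
  have := hc.two
  obtain ⟨y, hy⟩ := exists_ne x
  obtain ⟨a, b, hab⟩ : ∃ a b, c y a * c x b ≠ c y b * c x a := by
    by_contra h0
    push Not at h0
    exact hy (hc.inj _ _ (Geo.reg_par_minor (hc.ne y) (hc.ne x) h0))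
  have e : ∀ (l : Ω) z, eval (l • c z) (rename Prod.snd f) =
      (∏ i, l ^ (d i).toNat) * hc.geo.ev (fun _ => z) f := fun l z => by
    rw [eval_rename, Geo.ev_eq]
    exact hf.eval_scale (fun _ => l) _
  have h1 : (MvPolynomial.X a * MvPolynomial.C (c x b) - MvPolynomial.X b * MvPolynomial.C (c x a))
      * rename Prod.snd f ∈ Tav.idl c := mem_idl.2 fun l z => by
    rw [map_mul, e]
    by_cases hz : z = x
    · simp only [hz, map_sub, map_mul, eval_X, eval_C, Pi.smul_apply, smul_eq_mul]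
      ring
    · rw [h z hz, mul_zero, mul_zero]
  rcases hc.irr.mem_or_mem h1 with h2 | h2
  · have := mem_idl.1 h2 1 y
    simp only [one_smul, map_sub, map_mul, eval_X, eval_C, sub_eq_zero] at this
    exact absurd this hab
  · have := mem_idl.1 h2 1 x
    rw [e] at this
    simpa using this

theorem exists_cx (hc : Var c) (J : CJ c hc.ne) {Γ : Geo I X}
    {v : τ → σ} {j : C → X} (E : OPart Γ hc.geo v j) {r : X → C} (hr : ∀ x, r (j x) = x)
    (hr1 : R1 Γ fun x => c (r x)) :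
    ∃ D : CX Γ, D.C = Set.range j ∧
      ∀ (κ : Type) [Fintype κ] (x y : (κ → X) → X), (Γ.RegF fun t => Γ.p (x t)) →
        (Γ.RegF fun t => Γ.p (y t)) →
        (J.N : ℂ) • lg (Γ.twF fun t => D.s (x t) (y t)) +
            lg (Γ.twF fun t => vecL J.U (r (x t))) +
            lg (Γ.twF fun t => vecL J.V (J.a (r (x t)), r (y t))) =
          lg (Γ.twF fun t => vecL J.U1 (r (x t))) +
            lg (Γ.twF fun t => vecL J.V1 (J.a (r (x t)), r (y t))) := by
  have hv : Injective (Prod.map v v) := E.inj.prodMap E.inj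
  have h1 : ∀ (κ : Type) [Fintype κ] (x : (κ → X) → X), (Γ.RegF fun t => Γ.p (x t)) →
      Tav.Reg (Γ.bs κ) ((Tav.LS.co c hc.ne).pb fun t => r (x t)) := fun κ _ x hx => by
    rw [Tav.LS.pb_co]
    exact (Geo.RegF.comp hr1 (φ := fun t _ => x t) fun _ => hx).reg
  have h2 : ∀ (κ : Type) [Fintype κ] (x y : (κ → X) → X), (Γ.RegF fun t => Γ.p (x t)) →
      (Γ.RegF fun t => Γ.p (y t)) → ∀ b, Tav.Reg (Γ.bs κ)
        ((Tav.prodB (oB c hc.ne) (oB c hc.ne) b).pb fun t => (r (x t), r (y t))) := by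
    rintro κ _ x y hx hy (b | b)
    · rw [Tav.prodB, Sum.elim_inl, Tav.LS.pb_pb]
      exact h1 κ x hx
    · rw [Tav.prodB, Sum.elim_inr, Tav.LS.pb_pb]
      exact h1 κ y hy
  have h5 : ∀ (κ : Type) [Fintype κ] (x y : (κ → X) → X), (Γ.RegF fun t => Γ.p (x t)) →
      (Γ.RegF fun t => Γ.p (y t)) → Tav.Reg (Γ.bs κ)
        ((Tav.LS.co J.s J.sne).pb fun t => (r (x t), r (y t))) := fun κ _ x y hx hy =>
    Tav.Reg.trans (h2 κ x y hx hy) (J.sreg.pb fun t => (r (x t), r (y t)))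
  have h3 : ∀ (κ : Type) (x y : (κ → X) → X),
      (Tav.crd fun t => extend (Prod.map v v) (J.s (r (x t), r (y t))) 0) =
        ((Tav.LS.co J.s J.sne).pb fun t => (r (x t), r (y t))).sp := fun κ x y => by
    rw [crd_extend hv, Tav.LS.pb_co]
    rfl
  have h6 : ∀ (κ : Type) [Fintype κ] (x y : (κ → X) → X), (Γ.RegF fun t => Γ.p (x t)) →
      (Γ.RegF fun t => Γ.p (y t)) →
      Γ.RegF fun t => extend (Prod.map v v) (J.s (r (x t), r (y t))) 0 := fun κ _ x y hx hy =>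
    (Geo.regF_iff (h3 κ x y)).2 (h5 κ x y hx hy)
  refine ⟨⟨Set.range j, ?_, ?_, fun x y => extend (Prod.map v v) (J.s (r x, r y)) 0, ?_, ?_⟩, rfl,
    fun κ _ x y hx hy => ?_⟩
  · refine (congrArg Γ.Cl (Set.ext fun t => ⟨?_, ?_⟩)).mp (E.cl_range (ι := Unit))
    · rintro ⟨y, rfl⟩
      exact ⟨y (), rfl⟩
    · rintro ⟨y, hy⟩
      exact ⟨fun _ => y, funext fun _ => hy⟩
  · rintro _ ⟨x, rfl⟩
    refine Γ.mem_ZS_of_hg (Γ.grI_VI _) fun f d hf h => ?_
    refine (E.ev_kl (fun _ => x) f).symm.trans (hc.dens x (hf.kl E.inj) fun y hy => ?_)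
    exact (E.ev_kl _ f).trans (Γ.ev_of_VI h ⟨⟨y, rfl⟩, fun e => hy (E.j_inj e)⟩)
  · exact h6 (Unit ⊕ Unit) (fun t => t (.inl ())) (fun t => t (.inr ()))
      (Γ.regF_proj (Sum.inl ())) (Γ.regF_proj (Sum.inr ()))
  · rintro _ ⟨x, rfl⟩ _ ⟨y, rfl⟩
    obtain ⟨e, he⟩ := J.mnr (x, y)
    refine ⟨e, fun a b => ?_⟩
    rw [hr, hr, E.pon, E.pon]
    by_cases ha : ∃ a', v a' = a
    · by_cases hb : ∃ b', v b' = b
      · obtain ⟨a, rfl⟩ := ha
        obtain ⟨b, rfl⟩ := hb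
        simp only [E.inj.extend_apply]
        exact (he a b).trans (congrArg _ (hv.extend_apply _ _ (a, b)).symm)
      · rw [extend_apply' _ _ _ hb, extend_apply' _ _ _ hb,
          extend_apply' _ _ (a, b) fun ⟨w, hw⟩ => hb ⟨w.2, congrArg Prod.snd hw⟩]
        simp
    · rw [extend_apply' _ _ _ ha, extend_apply' _ _ _ ha,
        extend_apply' _ _ (a, b) fun ⟨w, hw⟩ => ha ⟨w.1, congrArg Prod.fst hw⟩]
      simp
  · have hS := h5 κ x y hx hy
    have hU := Tav.Reg.trans (fun _ => h1 κ x hx) (J.rU.pb fun t => r (x t))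
    have hU1 := Tav.Reg.trans (fun _ => h1 κ x hx) (J.rU1.pb fun t => r (x t))
    have ha := Tav.Reg.trans (fun _ => h1 κ x hx) ((J.mor.reg hc.ne J.av.ne).pb fun t => r (x t))
    have h4 : ∀ b, Tav.Reg (Γ.bs κ) ((Tav.prodB (oB J.h J.av.ne) (oB c hc.ne) b).pb
        fun t => (J.a (r (x t)), r (y t))) := by
      rintro (b | b)
      · rw [Tav.LS.pb_pb] at ha
        rw [Tav.prodB, Sum.elim_inl, Tav.LS.pb_pb]
        exact ha
      · rw [Tav.prodB, Sum.elim_inr, Tav.LS.pb_pb]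
        exact h1 κ y hy
    have hV := Tav.Reg.trans h4 (J.rV.pb fun t => (J.a (r (x t)), r (y t)))
    have hV1 := Tav.Reg.trans h4 (J.rV1.pb fun t => (J.a (r (x t)), r (y t)))
    have e := J.rel.pb _ (h2 κ x y hx hy)
    simp only [Tav.LS.pb_mul, Tav.LS.pb_pow, Tav.LS.pb_pb] at e
    have e1 := congrArg lg (Geo.twL_eqv (((hS.pow J.N).mul hU).mul hV) (hU1.mul hV1) e)
    rw [Geo.lg_twL_mul ((hS.pow J.N).mul hU) hV, Geo.lg_twL_mul (hS.pow J.N) hU,
      Geo.lg_twL_pow hS, Geo.lg_twL_mul hU1 hV1, Geo.twL_eq hS (h3 κ x y),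
      Geo.twL_eq hU (crd_vecL_pb _ _), Geo.twL_eq hU1 (crd_vecL_pb _ _),
      Geo.twL_eq hV (crd_vecL_pb _ _), Geo.twL_eq hV1 (crd_vecL_pb _ _),
      ← Nat.cast_smul_eq_nsmul ℂ] at e1
    exact e1

end Pool.Agent.Bcv
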