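import Pool.Agent.P.MP_2ce3e7_ag.Tav.TiAPi
import Pool.Agent.P.MP_2ce3e7_ag.Tav.TiATor

/-! A finite product of abelian varieties, in one projective space. -/

set_option autoImplicit false

noncomputable section

namespace Pool.Agent.Bcv

open MvPolynomial Function Pool.Agent.Tav

variable {Ω ι : Type} [Field Ω] [IsAlgClosed Ω] [Fintype ι]

theorem exists_pi' {J υ : ι → Type} [∀ i, AddCommGroup (J i)] [∀ i, Fintype (υ i)] {g : ι → ℕ}
    {h : ∀ i, J i → υ i → Ω} (av : ∀ i, AV (h i) (g i))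
    (inj : ∀ i y y', Par (h i y) (h i y') → y = y') :
    ∃ (σ' : Type) (_ : Fintype σ') (H : (∀ i, J i) → σ' → Ω) (a : AV H (∑ i, g i)),
      (∀ y y', Par (H y) (H y') → y = y') ∧
      LS.co H a.ne = ∏ i, (LS.co (h i) (av i).ne).pb fun t : ∀ i, J i => t i := by
  classical
  let A : ∀ i, Unit → LS Ω (J i) := fun i => uB (LS.co (h i) (av i).ne)
  let B : ι → LS Ω (∀ i, J i) := fun i => (LS.co (h i) (av i).ne).pb fun t => t i
  have r1 : ∀ i, Reg (piB A) (B i) := fun i => Reg.self (piB A) ⟨i, ()⟩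
  have r2 : ∀ b, Reg B (piB A b) := fun b => Reg.self B b.1
  have cA : ∀ i, Cmp (A i) := fun i => by
    rw [show A i = LS.blk (fun _ : υ i => ()) (h i) (hx_unit (av i).ne) from
      funext fun b => (blk_unit (av i).ne b).symm]
    exact Ti.cmp_of_cl _ ((av i).cl_blk _)
  have cmp : Cmp (uB (∏ i, B i)) :=
    Ti.cmp_of_reg (Sg.cmp_pi cA) fun _ => Reg.prod fun i _ => r1 i
  have s0 : Src (piB A) (∑ i, g i) := Src.pi fun i => (av i).src
  have src : Src (uB (∏ i, B i)) (∑ i, g i) := s0.of_reg fun _ => Reg.prod fun i _ => r1 i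
  have t0 : mix B (B ∘ fun k : Σ i, Fin (g i) => k.1) ≠ 0 := by
    have h1 : mix (piB A) (piB fun i => fun _ : Fin (g i) => LS.co (h i) (av i).ne) ≠ 0 := by
      rw [mix_pi]
      exact Finset.prod_ne_zero_iff.2 fun i _ => (av i).top
    rwa [mix_base s0 r1 r2 (W := piB fun i => fun _ : Fin (g i) => LS.co (h i) (av i).ne)
      (fun k => r1 k.1) (by simp)] at h1
  have top := Sg.seg_top (s0.of_reg r1) _ (by simp) t0
  have ev : ∀ i, RegM B (A i) fun t => t i := fun i _ => Reg.self B i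
  have sub : RegM (prodB B B) B fun t : (∀ i, J i) × ∀ i, J i => t.1 - t.2 := fun i => by
    rw [LS.pb_pb]
    exact Cnt.regM_sub (av i) ((ev i).cfst B) ((ev i).csnd B) ()
  obtain ⟨σ, _, d, w, p, hx, e, cl⟩ := Ti.cmp_blk cmp
  obtain rfl : d = Classical.decEq _ := Subsingleton.elim _ _
  obtain rfl : w = fun _ => () := rfl
  cases nonempty_fintype σ
  have hp : ∀ t, p t ≠ 0 := fun t h => by
    obtain ⟨v, -, hv⟩ := hx t ()
    exact hv (congrFun h v)
  have e1 : LS.co p hp = ∏ i, B i := (blk_unit hp ()).symm.trans (congrFun e ())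
  refine ⟨σ, inferInstance, p, AV.of_src hp cl (e1 ▸ src) (e1 ▸ top) (e1 ▸ Sg.seg_sub sub),
    fun y y' hy => funext fun i => inj i _ _ ?_, e1⟩
  obtain ⟨c, hc, h1⟩ := Sg.seg_prp (B := B) (e1 ▸ (prp_co hp).2 hy) i
  exact (prp_co (av i).ne).1 ⟨c, hc, fun u hu => h1 _ ⟨u, hu, rfl⟩⟩

theorem exists_pi {J υ : ι → Type} [∀ i, AddCommGroup (J i)] [∀ i, Fintype (υ i)] {g : ι → ℕ}
    {h : ∀ i, J i → υ i → Ω} (av : ∀ i, Tav.AV (h i) (g i))
    (inj : ∀ i y y', Tav.Par (h i y) (h i y') → y = y') :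
    ∃ (σ' : Type) (_ : Fintype σ') (n : ℕ) (H : (∀ i, J i) → σ' → Ω), Tav.AV H n ∧
      (∀ y y', Tav.Par (H y) (H y') → y = y') ∧ (∀ i, Tav.Mor H (h i) fun y => y i) ∧
      Tav.Rg (fun i => Tav.crd fun y : ∀ i, J i => h i (y i)) (Tav.crd H) := by
  obtain ⟨σ, _, H, a, h1, e⟩ := exists_pi' av inj
  refine ⟨σ, inferInstance, _, H, a, h1, fun i => ?_, ?_⟩
  · have h2 := Sg.reg_seg (fun i => (LS.co (h i) (av i).ne).pb fun t : ∀ i, J i => t i) i
    rw [← e, LS.pb_co] at h2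
    have h3 := Tav.Rg.reg.2 (Reg.trans (B := fun _ : Fin 1 => LS.co H a.ne)
      (fun _ => Reg.self (fun _ : Fin 1 => LS.co H a.ne) 0) h2)
    have e2 : (fun _ : Fin 1 => (LS.co H a.ne).sp) = ![crd H] :=
      funext fun i => by rw [Subsingleton.elim i 0]; rfl
    rw [e2] at h3
    exact h3
  · have h2 := Sg.seg_reg fun i => (LS.co (h i) (av i).ne).pb fun t : ∀ i, J i => t i
    rw [← e] at h2
    simp only [LS.pb_co] at h2
    exact Tav.Rg.reg.2 h2

end Pool.Agent.Bcv
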