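import Pool.Agent.P.MP_dd457d_ag.Bcv.Main
import Pool.Agent.P.MP_dd457d_ag.Bcv.AGd
import Pool.Agent.P.MP_dd457d_ag.Bcv.Onto
import Pool.Agent.P.MP_dd457d_ag.Bcv.PiAV
import Pool.Agent.P.MP_dd457d_ag.Bcv.DiagB
import Pool.Agent.P.MP_dd457d_ag.Bcv.Glue
import Pool.Agent.P.MP_dd457d_ag.Bcv.Nd

/-! The diagonal of an image of a product of curves. -/

set_option autoImplicit false

noncomputable section

namespace Pool.Agent.Bcv

open MvPolynomial Function Pool.Agent.Bav Pool.Agent.Bav.Geo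

section
variable {Ω σ τ X ι α T β : Type} [Field Ω] {I : Ideal (MvPolynomial σ Ω)} [Fintype ι]
  [Fintype β] {Γ : Geo I X}

theorem regF_rg {s : β → Type} {q : ∀ b, T → s b → Ω} {f : T → α → Ω} (hf : ∀ t, f t ≠ 0)
    (h : Tav.Rg (fun b => Tav.crd (q b)) (Tav.crd f)) {φ : (ι → X) → T}
    (hφ : ∀ b, Γ.RegF fun x => q b (φ x)) : Γ.RegF fun x => f (φ x) := by
  refine ⟨fun x => hf _, ?_⟩
  rw [← crd_pb f φ]
  exact rg_comp φ h fun b => by
    rw [crd_pb (q b) φ]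
    exact (hφ b).rg

theorem regF_ls [Fintype σ] {B : β → Tav.LS Ω T} {U : Tav.LS Ω T} (h : Tav.Reg B U)
    {φ : (ι → X) → T} (hφ : ∀ b, Tav.Reg (Γ.bs ι) ((B b).pb φ)) :
    Γ.RegF fun x => vecL U (φ x) :=
  (regF_iff (crd_vecL_pb U φ)).2 (Tav.Reg.trans hφ (h.pb φ))

omit [Fintype ι] [Fintype β] in
theorem iter_comm {F : X → X} {φ : (ι → X) → β → X} (h : ∀ t, φ (F ∘ t) = F ∘ φ t) (n : ℕ)
    (t : ι → X) : φ (F^[n] ∘ t) = F^[n] ∘ φ t := by
  induction n with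
  | zero => rfl
  | succ n ih => rw [iterate_succ', comp_assoc, h, ih, comp_assoc]

theorem fr_part {Y : Type} {K : Ideal (MvPolynomial τ Ω)} {Δ : Geo K Y} {u : τ → σ} {j : Y → X}
    (E : OPart Γ Δ u j) {Q : ℕ} (hQ : Q ≠ 0) {F : X → X} {F' : Y → Y} (h : Γ.IsFr Q F)
    (h' : Δ.IsFr Q F') : Semiconj j F' F := fun y => by
  obtain ⟨a, ha, e⟩ := h' y
  refine (h.eq ⟨a, ha, funext fun l => ?_⟩).symm
  rw [Pi.smul_apply, Pi.pow_apply]
  by_cases hl : ∃ t, u t = l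
  · obtain ⟨t, rfl⟩ := hl
    rw [E.p_on, E.p_on]
    exact congrFun e t
  · rw [E.pon, E.pon, extend_apply' _ _ _ hl, extend_apply' _ _ _ hl, Pi.zero_apply, zero_pow hQ,
      smul_zero]

end

variable (k : Type) [Field k] [Fintype k]

theorem ag_dv {A τ σ X : Type} [AddCommGroup A] [Fintype τ] [Fintype σ] {g : ℕ}
    {p : A → τ → AlgebraicClosure k} (av : Tav.AV p g) {Δ : Geo (Tav.idl p) A} (hΔ : Δ.p = p)
    {I : Ideal (MvPolynomial σ (AlgebraicClosure k))} {Γ : Geo I X} {v : τ → σ} {j : A → X}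
    (E : OPart Γ Δ v j) : Dv fun e => e ≠ 0 → ∀ Fr, Γ.IsFr (Fintype.card k ^ e) Fr →
      ∃ (τ' : Type) (_ : Fintype τ') (D : AG Γ A τ' (Fintype.card k ^ e)), D.j = j ∧
        (∀ (ι : Type) [Fintype ι] (i : ι), Γ.RegF fun x : ι → X => p (D.r (x i))) ∧
        ∀ n y, j (D.F n y) = Fr^[n] (j y) := by
  have h0 : Δ.RegM fun (t : Unit ⊕ Unit → A) (_ : Unit) => t (.inl ()) - t (.inr ()) := fun _ => by
    have h1 : ∀ i, Δ.RegF fun t : Unit ⊕ Unit → A => p (t i) := fun i => by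
      simpa only [hΔ] using Δ.regF_proj i
    simpa only [hΔ] using regF_sub av (h1 _) (h1 _)
  refine (Δ.dv_isFr.and h0.frob).mono ?_
  rintro e ⟨⟨F, hF⟩, h⟩ he Fr hFr
  have h1 : ∀ x y, F (x - y) = F x - F y := fun x y =>
    (congrFun (h F hF (Sum.elim (fun _ => x) fun _ => y)) ()).symm
  have h2 : ∀ y, Tav.Par (p (F y)) (p y ^ Fintype.card k ^ e) := fun y => by
    simpa only [hΔ] using hF y
  obtain ⟨τ', _, D, e1, e2, e3⟩ := exists_ag av hΔ h2 (av_pkg_pow k av (fun x y => by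
    simpa only [hΔ] using Δ.inj x y) he (F := AddMonoidHom.ofMapSub F h1) h2 Δ hΔ) E
  refine ⟨τ', inferInstance, D, e1, e3, fun n y => ?_⟩
  rw [e2]
  exact (fr_part E (pow_ne_zero _ Fintype.card_ne_zero) hFr hF).iterate_right n y

variable {ι : Type} [Fintype ι] {C υ : ι → Type}
  [∀ i, Fintype (υ i)] {c : ∀ i, C i → υ i → AlgebraicClosure k} (hc : ∀ i, Var (c i))
  (J : ∀ i, CJ (c i) (hc i).ne)

theorem parts_dv {σ σ' X : Type} [Fintype σ] [Fintype σ']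
    {I : Ideal (MvPolynomial σ (AlgebraicClosure k))} {Γ : Geo I X} {v : ∀ i, υ i → σ}
    {j : ∀ i, C i → X} (E : ∀ i, OPart Γ (hc i).geo (v i) (j i)) {g : ℕ}
    {H : (∀ i, (J i).J) → σ' → AlgebraicClosure k} (av : Tav.AV H g)
    (m1 : ∀ i, Tav.Mor H (J i).h fun y => y i)
    (m2 : Tav.Rg (fun i => Tav.crd fun y : ∀ i, (J i).J => (J i).h (y i)) (Tav.crd H))
    {Δ : Geo (Tav.idl H) (∀ i, (J i).J)} (hΔ : Δ.p = H) {v' : σ' → σ} {j' : (∀ i, (J i).J) → X}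
    (E' : OPart Γ Δ v' j') :
    Dv fun N => N ≠ 0 → ∀ F, Γ.IsFr (Fintype.card k ^ N) F →
      ∀ (α : Type) [Fintype α] (ψ : (α → X) → ι → X), Γ.RegM ψ →
        (∀ t i, ψ t i ∈ Set.range (j i)) → ∀ z : G I α,
          (fun n => Γ.pushM (fun t => Sum.elim t (F^[n] ∘ ψ t)) z) ∈
            SP (Submodule.span ℂ (Set.range fun t : G I α × G I ι => boxG t.1 t.2))
              (Fintype.card k ^ N) := by
  choose r hr rr using fun i => (E i).exists_ret (hc i).two.to_nonempty.some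
  choose D hD rel using fun i => exists_cx (hc i) (J i) (E i) (hr i) (rr i Unit ())
  let a : (ι → X) → ∀ i, (J i).J := fun t i => (J i).a (r i (t i))
  have ra : Γ.RegM fun t (_ : Unit) => j' (a t) := fun _ => E'.regF_pad (by
    rw [hΔ]
    exact regF_rg av.ne m2 fun i => ⟨fun _ => (J i).av.ne _, rg_mor (J i).mor (rr i ι i).rg⟩)
  have rρ : ∀ i, Γ.RegM fun (t : Unit → X) (_ : Unit) => j i (r i (t ())) := fun i _ =>
    (E i).regF_pad (rr i Unit ())
  have ru : ∀ i {U : Tav.LS _ (C i)}, Tav.Reg (oB (c i) (hc i).ne) U →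
      R1 Γ fun x => vecL U (r i x) := fun i _ h => regF_ls h fun _ => by
    rw [Tav.LS.pb_co]
    exact (rr i Unit ()).reg
  refine ((ag_dv k av hΔ E').and (ra.frob.and (Dv.forall fun i => (rρ i).frob.and
    ((ru i (J i).rU).frob.and (ru i (J i).rU1).frob)))).mono ?_
  rintro N ⟨h1, h2, h3⟩ hN F hF α _ ψ hψ hj z
  obtain ⟨τ', _, A, rfl, rr', h4⟩ := h1 hN F hF
  have rv : ∀ i {V : Tav.LS _ ((J i).J × C i)},
      Tav.Reg (Tav.prodB (oB (J i).h (J i).av.ne) (oB (c i) (hc i).ne)) V →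
      R2 Γ fun x y => vecL V (A.r x i, r i y) := fun i _ h => regF_ls h (by
    rintro (_ | _)
    · simp only [Tav.prodB, Sum.elim_inl, Tav.LS.pb_co]
      exact (regF_mor (m1 i) (J i).av.ne (rr' _ (Sum.inl () : Unit ⊕ Unit))).reg
    · simp only [Tav.prodB, Sum.elim_inr, Tav.LS.pb_co]
      exact (rr i _ (Sum.inr () : Unit ⊕ Unit)).reg)
  have h5 : ∀ n t, A.F n (a t) = a (F^[n] ∘ t) := fun n t => E'.j_inj ((h4 n _).trans
    (congrFun (iter_comm (φ := fun t (_ : Unit) => A.j (a t)) (h2 F hF) n t) ()).symm)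
  refine main_sp (D := A) (a := fun t => a (ψ t)) (fun c _ h1 h2 z => diag_all c h1 h2 z)
    (ra.comp hψ) hF D (fun i y hy => ?_) hψ (fun t i => hD i ▸ hj t i) (fun i => ?_) z
  · rw [hD] at hy ⊢
    obtain ⟨y, rfl⟩ := hy
    have := congrFun ((h3 i).1 F hF fun _ => j i y) ()
    exact ⟨_, this.trans (congrArg (fun x => F (j i x)) (hr i y))⟩
  · refine ⟨(J i).N, _, _, _, _, fun x => vecL (J i).U (r i x), fun x => vecL (J i).U1 (r i x),
      fun y x => vecL (J i).V (y i, r i x), fun y x => vecL (J i).V1 (y i, r i x), (J i).N0,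
      (ru i (J i).rU).comp (φ := fun t _ => ψ t i) fun _ => hψ i,
      (ru i (J i).rU1).comp (φ := fun t _ => ψ t i) fun _ => hψ i,
      fun y => (h3 i).2.1 F hF fun _ => y, fun y => (h3 i).2.2 F hF fun _ => y,
      rv i (J i).rV, rv i (J i).rV1, fun n => ?_⟩
    simp only [h5]
    exact rel i (α ⊕ ι) (fun t => F^[n] (ψ (t ∘ Sum.inl) i)) (fun t => t (.inr i))
      ((((hF.iter n).regM.comp hψ).comp (Γ.regM_rm Sum.inl)) i) (Γ.regF_proj _)

include J in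
theorem univ_dv {τ Y : Type} [Fintype τ] {I' : Ideal (MvPolynomial τ (AlgebraicClosure k))}
    (Δ : Geo I' Y) : ∃ (σ X : Type) (_ : Fintype σ)
      (I : Ideal (MvPolynomial σ (AlgebraicClosure k))) (Γ : Geo I X) (u : τ → σ) (i : Y → X)
      (v : ∀ i, υ i → σ) (j : ∀ i, C i → X), OPart Γ Δ u i ∧
      (∀ i, OPart Γ (hc i).geo (v i) (j i)) ∧
      Dv fun N => N ≠ 0 → ∀ F, Γ.IsFr (Fintype.card k ^ N) F →
        ∀ (α : Type) [Fintype α] (ψ : (α → X) → ι → X), Γ.RegM ψ →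
          (∀ t i, ψ t i ∈ Set.range (j i)) → ∀ z : G I α,
            (fun n => Γ.pushM (fun t => Sum.elim t (F^[n] ∘ ψ t)) z) ∈
              SP (Submodule.span ℂ (Set.range fun t : G I α × G I ι => boxG t.1 t.2))
                (Fintype.card k ^ N) := by
  obtain ⟨σ', _, g, H, av, inj, m1, m2⟩ := exists_pi (fun i => (J i).av) fun i => (J i).inj
  let ΔA : Geo (Tav.idl H) (∀ i, (J i).J) := ⟨H, av.ne, inj, rfl, av.cl⟩
  have E := fun i => (OPart.inr Δ _).trans ((OPart.inr ΔA _).trans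
    (OPart.sigma (fun i => (hc i).geo) i))
  exact ⟨_, _, inferInstance, _, _, _, _, _, _, OPart.inl _ _, E,
    parts_dv k hc J E av m1 m2 rfl ((OPart.inr Δ _).trans (OPart.inl ΔA _))⟩

include J in
theorem dbo {Y τ : Type} [Fintype τ] {I : Ideal (MvPolynomial τ (AlgebraicClosure k))}
    (Δ : Geo I Y) {f : (∀ i, C i) → Y} (hf : Surjective f)
    (reg : Tav.Rg (fun i => Tav.crd fun t : ∀ i, C i => c i (t i)) (Tav.crd fun t => Δ.p (f t))) :
    ∃ N, N ≠ 0 ∧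
      Pav.DBo (AlgebraicClosure k) (CXD.hom I) (CXD.crd I) (Fintype.card k ^ N) := by
  obtain ⟨σ, X, _, K, Γ, u, e, v, j, E', E, H⟩ := univ_dv k hc J Δ
  choose r hr rr using fun i => (E i).exists_ret (hc i).two.to_nonempty.some
  let g : (ι → X) → Unit → X := fun t _ => e (f fun i => r i (t i))
  have hg : Γ.RegM g := fun _ => E'.regF_pad (regF_rg (fun _ => Δ.ne _) reg fun i => rr i ι i)
  have hρ : Γ.RegM fun (t : ι → X) i => j i (r i (t i)) := fun i => (E i).regF_pad (rr i ι i)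
  obtain ⟨N, hN, h⟩ := H.and (Γ.dv_isFr.and (Δ.dv_isFr.and hg.frob))
  obtain ⟨h1, ⟨F, hF⟩, ⟨F', hF'⟩, h2⟩ := h N dvd_rfl
  obtain ⟨z, -, hz⟩ := Γ.pushM_onto hg Set.univ (Γ.cT_mem_supp subset_rfl 0)
  refine ⟨N, hN, dbo_of_sp Δ.hom (AG.mem_congr (SP.map (E'.rst _ ∘ₗ Γ.pushM fun t : ι ⊕ ι → X =>
    Sum.elim (g (t ∘ Sum.inl)) (g (t ∘ Sum.inr))) (fun w hw => ?_)
    (h1 hN F hF ι _ hρ (fun t i => ⟨_, rfl⟩) z)) fun n => ?_)⟩
  · refine (Submodule.span_le (p := Submodule.comap _ (Bx I))).2 ?_ hw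
    rintro _ ⟨t, rfl⟩
    rw [SetLike.mem_coe, Submodule.mem_comap, LinearMap.comp_apply, Γ.pushM_box hg hg, E'.rst_box]
    exact box_mem _ _
  · have s : Γ.Sec Sum.inl fun t : Unit → X => Sum.elim t (F^[n] ∘ t) :=
      ⟨Sum.inl_injective, RegM.elim (Γ.regM_rm id) (hF.iter n).regM, fun _ _ => rfl⟩
    have h3 := (fr_part E' (pow_ne_zero _ Fintype.card_ne_zero) hF hF').iterate_right n
    have h4 := Γ.pushM_comp hg s.reg z
    rw [hz, s.pushM_eq, s.grs_cT] at h4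
    have h5 : Γ.RegM fun t : ι → X => Sum.elim t (F^[n] ∘ fun i => j i (r i (t i))) :=
      RegM.elim (Γ.regM_rm id) ((hF.iter n).regM.comp hρ)
    have h6 : ∀ t, g (F^[n] ∘ fun i => j i (r i (t i))) = F^[n] ∘ g t := fun t => by
      rw [iter_comm (h2 F hF)]
      simp only [g, hr]
    rw [LinearMap.comp_apply, Γ.pushM_comp h5
      ((hg.comp (Γ.regM_rm Sum.inl)).elim (hg.comp (Γ.regM_rm Sum.inr))),
      ← Pav.cT_graph Δ (hF'.iter n)]
    simp only [Sum.elim_comp_inl, Sum.elim_comp_inr, h6]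
    rw [← h4, E'.rst_cT, extend_inl, Sum.elim_zero_zero]
    refine congrArg (Δ.cT · 0) (Set.ext fun y => ⟨?_, fun hy => ?_⟩)
    · rintro ⟨_, ⟨t, -, rfl⟩, e1⟩
      refine E'.j_inj ((congrFun e1 (.inr ())).symm.trans (Eq.trans ?_ (h3 _).symm))
      exact congrArg _ (congrFun e1 (.inl ()))
    · obtain ⟨t, ht⟩ := hf (y (.inl ()))
      refine ⟨_, ⟨fun i => j i (t i), trivial, rfl⟩, funext ?_⟩
      simp only [g, hr]
      rintro (_ | _)
      · exact congrArg e ht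
      · exact (h3 _).symm.trans (congrArg e ((congrArg _ ht).trans (Eq.symm hy)))

end Pool.Agent.Bcv
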