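import Pool.Agent.P.MP_dd457d_ag.Bcv.Defs
import Pool.Agent.P.MP_dd457d_ag.Bav.KPushBox

/-! A curve inside a larger point set, and the operator that cuts out a graph. -/

set_option autoImplicit false

noncomputable section

namespace Pool.Agent.Bcv

open MvPolynomial Function Pool.Agent.Bav

/-- the points of a closed set -/
def Var.geo {Ω C τ : Type} [Field Ω] {c : C → τ → Ω} (h : Var c) : Geo (Tav.idl c) C :=
  ⟨c, h.ne, h.inj, rfl, h.cl⟩

/-- the inverse of a unipotent element -/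
def iv {R : Type*} [Ring R] [Algebra ℂ R] (t : R) : R := ex (-lg t)

variable {Ω σ X κ : Type} [Field Ω] {I : Ideal (MvPolynomial σ Ω)} [Fintype σ] [Fintype κ]
  (Γ : Geo I X)

/-- a map of one point is regular -/
abbrev R1 {α : Type} (f : X → α → Ω) : Prop := Γ.RegF fun t : Unit → X => f (t ())

/-- a map of two points is regular -/
abbrev R2 {α : Type} (f : X → X → α → Ω) : Prop :=
  Γ.RegF fun t : Unit ⊕ Unit → X => f (t (.inl ())) (t (.inr ()))

/-- a curve inside `Γ` with its secant map -/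
structure CX where
  C : Set X
  cl : Γ.Cl {t : Unit → X | t () ∈ C}
  iso : ∀ x ∈ C, (fun _ => x) ∈ Γ.ZS (Γ.VI {t : Unit → X | t () ∈ C ∧ t () ≠ x})
  s : X → X → σ × σ → Ω
  rs : R2 Γ s
  mnr : ∀ x ∈ C, ∀ y ∈ C, ∃ E : Ω, ∀ a b,
    Γ.p x a * Γ.p y b - Γ.p x b * Γ.p y a = E * s x y (a, b)

variable {Γ}

/-- the operator that cuts out the graph of `ψ` in the slot `b` -/
def CX.op (c : CX Γ) (ψ : (κ → X) → X) (b : κ) : Module.End ℂ (G I κ) :=
  1 - Γ.twF (fun t => c.s (ψ t) (t b)) * iv (Γ.twF fun t => Γ.p (ψ t)) *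
    iv (Γ.twF fun t => Γ.p (t b))

end Pool.Agent.Bcv
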