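import Pool.Agent.P.MP_dd457d_ag.Bcv.DefK

/-! The graph of a map into a product of curves, slot by slot, from the one-slot statement. -/

set_option autoImplicit false

noncomputable section

namespace Pool.Agent.Bcv

open MvPolynomial Function Pool.Agent.Bav

variable {Ω σ X ι κ : Type} [Field Ω] [IsAlgClosed Ω] {I : Ideal (MvPolynomial σ Ω)}
  [Fintype σ] [Fintype ι] [Fintype κ]

/-- the one-slot statement for the slots `μ` -/
def Diag1 (Γ : Geo I X) (μ : Type) [Fintype μ] [DecidableEq μ] : Prop :=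
  ∀ (c : CX Γ) (ψ : (μ → X) → X), (Γ.RegF fun t => Γ.p (ψ t)) → ∀ (b : μ) (T : Set (μ → X)),
    (∀ t ∈ T, ψ t ∈ c.C) → (∀ t ∈ T, t b ∈ c.C) → (∀ t ∈ T, ∀ y ∈ c.C, update t b y ∈ T) →
    (∀ t y, ψ (update t b y) = ψ t) → ∀ n : μ → ℤ,
      c.op ψ b (Γ.cT T n) = Γ.cT {t | t ∈ T ∧ t b = ψ t} n

omit [Fintype ι] [Fintype κ] in
theorem update_inr_inl [DecidableEq (ι ⊕ κ)] (t : ι ⊕ κ → X) (i : κ) (y : X) :
    update t (Sum.inr i) y ∘ Sum.inl = t ∘ Sum.inl :=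
  funext fun _ => update_of_ne Sum.inl_ne_inr _ _

omit [IsAlgClosed Ω] in
theorem diag_list {Γ : Geo I X} [DecidableEq (ι ⊕ κ)] (H : Diag1 Γ (ι ⊕ κ)) (c : κ → CX Γ)
    {ψ : (ι → X) → κ → X} (hψ : Γ.RegM ψ) (h : ∀ t i, ψ t i ∈ (c i).C) (Z : Set (ι → X))
    (m : ι ⊕ κ → ℤ) (l : List κ) (hl : l.Nodup) :
    (l.map fun i =>
      (c i).op (fun t : ι ⊕ κ → X => ψ (t ∘ Sum.inl) i) (Sum.inr i)).prod
        (Γ.cT (prodT Z {y | ∀ i, y i ∈ (c i).C}) m) =
      Γ.cT {t | t ∈ prodT Z {y | ∀ i, y i ∈ (c i).C} ∧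
        ∀ i ∈ l, t (Sum.inr i) = ψ (t ∘ Sum.inl) i} m := by
  induction l with
  | nil => simp
  | cons i l ih =>
    obtain ⟨hi, hl'⟩ := List.nodup_cons.1 hl
    rw [List.map_cons, List.prod_cons, Module.End.mul_apply, ih hl',
      H (c i) (fun t : ι ⊕ κ → X => ψ (t ∘ Sum.inl) i) ((hψ.comp (Γ.regM_rm Sum.inl)) i)
        (Sum.inr i) _ (fun t _ => h _ i) (fun t ht => ht.1.2 i) ?_
        (fun t y => by rw [update_inr_inl])]
    · congr 1
      ext t
      simp only [Set.mem_ofPred_eq, List.forall_mem_cons]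
      exact ⟨fun a => ⟨a.1.1, a.2, a.1.2⟩, fun a => ⟨⟨a.1, a.2.2⟩, a.2.1⟩⟩
    · intro t ht y hy
      refine ⟨⟨?_, fun j => ?_⟩, fun j hj => ?_⟩
      · rw [update_inr_inl]
        exact ht.1.1
      · by_cases e : j = i
        · subst e
          rwa [comp_apply, update_self]
        · rw [comp_apply, update_of_ne fun e' => e (Sum.inr_injective e')]
          exact ht.1.2 j
      · have e : j ≠ i := fun e => hi (e ▸ hj)
        rw [update_inr_inl, update_of_ne fun e' => e (Sum.inr_injective e')]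
        exact ht.2 j hj

theorem diag_all_of {Γ : Geo I X} [DecidableEq (ι ⊕ κ)] (H : Diag1 Γ (ι ⊕ κ)) (c : κ → CX Γ)
    {ψ : (ι → X) → κ → X} (hψ : Γ.RegM ψ) (h : ∀ t i, ψ t i ∈ (c i).C) (z : G I ι) :
    ((Finset.univ : Finset κ).toList.map fun i =>
      (c i).op (fun t : ι ⊕ κ → X => ψ (t ∘ Sum.inl) i) (Sum.inr i)).prod
        (boxG z (Γ.cT {y | ∀ i, y i ∈ (c i).C} 0)) =
      Γ.pushM (fun t => Sum.elim t (ψ t)) z := by
  have key := Γ.ext_cT
    (F := (((Finset.univ : Finset κ).toList.map fun i =>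
      (c i).op (fun t : ι ⊕ κ → X => ψ (t ∘ Sum.inl) i) (Sum.inr i)).prod) ∘ₗ
        (boxG : G I ι →ₗ[ℂ] G I κ →ₗ[ℂ] G I (ι ⊕ κ)).flip (Γ.cT {y | ∀ i, y i ∈ (c i).C} 0))
    (F' := Γ.pushM fun t => Sum.elim t (ψ t)) fun Z n => by
      rw [LinearMap.comp_apply, LinearMap.flip_apply, Γ.box_cT,
        diag_list H c hψ h Z _ _ (Finset.nodup_toList _), hψ.sec.pushM_eq, hψ.sec.grs_cT,
        Geo.extend_inl]
      congr 1
      ext t
      constructor
      · rintro ⟨⟨h1, -⟩, h2⟩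
        refine ⟨t ∘ Sum.inl, h1, funext fun j => ?_⟩
        rcases j with j | j
        · rfl
        · exact (h2 j (Finset.mem_toList.2 (Finset.mem_univ j))).symm
      · rintro ⟨x, hx, rfl⟩
        exact ⟨⟨hx, fun i => h x i⟩, fun i _ => rfl⟩
  exact LinearMap.congr_fun key z

end Pool.Agent.Bcv
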