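import Pool.Agent.P.MP_2ce3e7_ag.Tav.CvTop
import Pool.Agent.P.MP_dd457d_ag.Bcv.Top

/-! The statement used by the exits. -/

set_option autoImplicit false

namespace Pool.Agent.Tav.Cv

theorem p_Dbo : S_Dbo := fun k _ _ _ _ _ _ _ _ hc J _ _ _ _ Δ _ hf reg =>
  Bcv.dbo k hc J Δ hf reg

end Pool.Agent.Tav.Cv
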