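import Pool.Agent.P.MP_dd457d_ag.Bav.KProd
import Pool.Agent.P.MP_dd457d_ag.Bav.KGr

/-! Restriction to an open and closed part. -/

set_option autoImplicit false
set_option linter.unusedSectionVars false

noncomputable section

namespace Pool.Agent.Bav

open MvPolynomial Function

variable {σ τ k ι κ X Y : Type} [Field k] {I : Ideal (MvPolynomial σ k)}
  {J : Ideal (MvPolynomial τ k)}

/-- `Y` is an open and closed part of `X`, with the coordinates `u` -/
structure OPart (Γ : Geo I X) (Δ : Geo J Y) (u : τ → σ) (j : Y → X) : Prop where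
  inj : Injective u
  pon : ∀ y, Γ.p (j y) = extend u (Δ.p y) 0
  poff : ∀ x, x ∉ Set.range j → ∀ t, Γ.p x (u t) = 0

/-- the substitution that kills the other coordinates -/
def kl (k ι : Type) [Field k] (u : τ → σ) : S σ k ι →ₐ[k] S τ k ι :=
  aeval fun v => extend u (fun t => MvPolynomial.X (v.1, t)) 0 v.2

/-- the inclusion of the coordinates -/
def ik (k ι : Type) [Field k] (u : τ → σ) : S τ k ι →ₐ[k] S σ k ι := rename (Prod.map id u)

variable {u : τ → σ}

theorem ik_X (v : ι × τ) : ik k ι u (MvPolynomial.X v) = MvPolynomial.X (v.1, u v.2) :=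
  rename_X _ _

theorem kl_on (hu : Injective u) (i : ι) (t : τ) :
    kl k ι u (MvPolynomial.X (i, u t)) = MvPolynomial.X (i, t) := by
  rw [kl, aeval_X, hu.extend_apply]

theorem kl_off (i : ι) {l : σ} (h : ¬∃ t, u t = l) : kl k ι u (MvPolynomial.X (i, l)) = 0 := by
  rw [kl, aeval_X, extend_apply' _ _ _ h]
  rfl

theorem kl_ik (hu : Injective u) (f : S τ k ι) : kl k ι u (ik k ι u f) = f :=
  AlgHom.congr_fun (show (kl k ι u).comp (ik k ι u) = AlgHom.id k _ from
    algHom_ext fun v => by rw [AlgHom.comp_apply, ik_X, kl_on hu]; rfl) f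

theorem kl_surj (hu : Injective u) : Surjective (kl k ι u) := fun f => ⟨_, kl_ik hu f⟩

theorem kl_wt (hu : Injective u) (v : ι × σ) :
    (kl k ι u (MvPolynomial.X v)).IsWeightedHomogeneous wt (AddMonoidHom.id (ι → ℤ) (wt v)) := by
  obtain ⟨i, l⟩ := v
  by_cases h : ∃ t, u t = l
  · obtain ⟨t, rfl⟩ := h
    rw [kl_on hu]
    exact hg_X (i, t)
  · rw [kl_off i h]
    exact isWeightedHomogeneous_zero _ _ _

theorem Hg.kl (hu : Injective u) {f : S σ k ι} {d : ι → ℤ} (h : Hg f d) : Hg (kl k ι u f) d :=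
  polyA_hom_map _ (AddMonoidHom.id _) (kl_wt hu) h

theorem Hg.ik {f : S τ k ι} {d : ι → ℤ} (h : Hg f d) : Hg (ik k ι u f) d :=
  polyA_hom_map (w := wt) (w' := wt) (Bav.ik k ι u) (AddMonoidHom.id _)
    (fun v => by rw [ik_X]; exact hg_X (v.1, u v.2)) h

theorem ik_mono [Fintype ι] (α : ι → τ) : ik k ι u (mono k α) = mono k (u ∘ α) := by
  simp only [mono, map_prod, ik_X, comp_apply]

/-- the substitution in one block -/
def kl1 (k : Type) [Field k] (u : τ → σ) : MvPolynomial σ k →ₐ[k] MvPolynomial τ k :=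
  aeval (extend u MvPolynomial.X 0)

theorem kl_blk (hu : Injective u) (i : ι) (f : MvPolynomial σ k) :
    kl k ι u (blk i f) = blk i (kl1 k u f) :=
  AlgHom.congr_fun (show (kl k ι u).comp (blk i) = (blk i).comp (kl1 k u) from
    algHom_ext fun l => by
      rw [AlgHom.comp_apply, AlgHom.comp_apply, blk_X, kl1, aeval_X]
      by_cases h : ∃ t, u t = l
      · obtain ⟨t, rfl⟩ := h
        rw [kl_on hu, hu.extend_apply, blk_X]
      · rw [kl_off i h, extend_apply' _ _ _ h]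
        exact (map_zero _).symm) f

theorem eval_kl1 (hu : Injective u) (z : τ → k) (f : MvPolynomial σ k) :
    eval z (kl1 k u f) = eval (extend u z 0) f :=
  AlgHom.congr_fun (show (aeval z).comp (kl1 k u) = aeval (extend u z 0) from
    algHom_ext fun l => by
      rw [AlgHom.comp_apply, kl1, aeval_X, aeval_X]
      by_cases h : ∃ t, u t = l
      · obtain ⟨t, rfl⟩ := h
        rw [hu.extend_apply, hu.extend_apply, aeval_X]
      · rw [extend_apply' _ _ _ h, extend_apply' _ _ _ h]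
        exact map_zero _) f

theorem kl1_rename (hu : Injective u) (f : MvPolynomial τ k) : kl1 k u (rename u f) = f :=
  AlgHom.congr_fun (show (kl1 k u).comp (rename u) = AlgHom.id k _ from
    algHom_ext fun t => by rw [AlgHom.comp_apply, rename_X, kl1, aeval_X, hu.extend_apply]; rfl) f

theorem ik_blk (i : ι) (f : MvPolynomial τ k) : ik k ι u (blk i f) = blk i (rename u f) := by
  rw [ik, rename_rename, rename_rename]
  rfl

theorem comap_kl_le (hu : Injective u) {F : S σ k ι} (hF : kl k ι u F ∈ IX J ι) :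
    F ∈ IX (J.comap (kl1 k u)) ι := by
  have h1 : IX J ι ≤ (IX (J.comap (kl1 k u)) ι).comap (ik k ι u) := IX_le fun i f hf => by
    rw [Ideal.mem_comap, ik_blk]
    exact blk_mem i (by rwa [Ideal.mem_comap, kl1_rename hu])
  have h2 := AlgHom.congr_fun (show Ideal.Quotient.mkₐ k (IX (J.comap (kl1 k u)) ι) =
      (Ideal.Quotient.mkₐ k _).comp ((ik k ι u).comp (kl k ι u)) from
    algHom_ext fun ⟨i, l⟩ => by
      rw [AlgHom.comp_apply, AlgHom.comp_apply]
      by_cases h : ∃ t, u t = l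
      · obtain ⟨t, rfl⟩ := h
        rw [kl_on hu, ik_X]
      · rw [kl_off i h, map_zero, map_zero, ← blk_X]
        refine Ideal.Quotient.eq_zero_iff_mem.2 (blk_mem i ?_)
        rw [Ideal.mem_comap, kl1, aeval_X, extend_apply' _ _ _ h]
        exact zero_mem _) F
  exact Ideal.Quotient.eq_zero_iff_mem.1 (h2.trans (Ideal.Quotient.eq_zero_iff_mem.2 (h1 hF)))

namespace OPart

variable {Γ : Geo I X} {Δ : Geo J Y} {j : Y → X} (h : OPart Γ Δ u j)
include h

theorem p_on (y : Y) (t : τ) : Γ.p (j y) (u t) = Δ.p y t := by rw [h.pon, h.inj.extend_apply]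

theorem j_inj : Injective j := fun y y' e => Δ.inj y y' ⟨1, isUnit_one, funext fun t => by
  rw [one_smul, ← h.p_on, e, h.p_on]⟩

theorem ev_kl (y : ι → Y) (F : S σ k ι) : Δ.ev y (kl k ι u F) = Γ.ev (j ∘ y) F :=
  AlgHom.congr_fun (show (Δ.ev y).comp (kl k ι u) = Γ.ev (j ∘ y) from
    algHom_ext fun ⟨i, l⟩ => by
      rw [AlgHom.comp_apply, Geo.ev, Geo.ev, aeval_X, comp_apply]
      by_cases e : ∃ t, u t = l
      · obtain ⟨t, rfl⟩ := e
        rw [kl_on h.inj, aeval_X, h.p_on]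
      · rw [kl_off i e, map_zero, h.pon, extend_apply' _ _ _ e]
        rfl) F

theorem ev_ik (y : ι → Y) (f : S τ k ι) : Γ.ev (j ∘ y) (ik k ι u f) = Δ.ev y f := by
  rw [← h.ev_kl, kl_ik h.inj]

theorem eval_on (c : k) (y : Y) (f : MvPolynomial σ k) :
    eval (c • Γ.p (j y)) f = eval (c • Δ.p y) (kl1 k u f) := by
  rw [eval_kl1 h.inj, h.pon]
  congr 2
  funext l
  by_cases e : ∃ t, u t = l
  · obtain ⟨t, rfl⟩ := e
    rw [Pi.smul_apply, h.inj.extend_apply, h.inj.extend_apply, Pi.smul_apply]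
  · rw [Pi.smul_apply, extend_apply' _ _ _ e, extend_apply' _ _ _ e]
    exact smul_zero c

theorem le_comap : I ≤ J.comap (kl1 k u) := fun f hf => by
  rw [Γ.idl] at hf
  rw [Ideal.mem_comap, Δ.idl]
  exact mem_idl.2 fun c y => by rw [← h.eval_on]; exact mem_idl.1 hf c _

theorem X_mul (t : τ) {f : MvPolynomial σ k} (hf : f ∈ J.comap (kl1 k u)) :
    MvPolynomial.X (u t) * f ∈ I := by
  rw [Ideal.mem_comap, Δ.idl] at hf
  rw [Γ.idl]
  refine mem_idl.2 fun c x => ?_
  rw [map_mul, eval_X]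
  by_cases e : x ∈ Set.range j
  · obtain ⟨y, rfl⟩ := e
    rw [h.eval_on, mem_idl.1 hf, mul_zero]
  · rw [Pi.smul_apply, h.poff x e, smul_zero, zero_mul]

theorem IX_comap : IX I ι ≤ (IX J ι).comap (kl k ι u) := IX_le fun i f hf => by
  rw [Ideal.mem_comap, kl_blk h.inj]
  exact blk_mem i (h.le_comap hf)

variable [Fintype ι]

theorem key {L : Ideal (S σ k ι)} (hL : IX I ι ≤ L) {F : S σ k ι}
    (hF : kl k ι u F ∈ L.map (kl k ι u) ⊔ IX J ι) (α : ι → τ) : mono k (u ∘ α) * F ∈ L := by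
  classical
  obtain ⟨_, h1, x, hx, e⟩ := Submodule.mem_sup.1 hF
  obtain ⟨l, hl, rfl⟩ := (Ideal.mem_map_iff_of_surjective _ (kl_surj h.inj)).1 h1
  have h2 : F - l ∈ IX (J.comap (kl1 k u)) ι :=
    comap_kl_le h.inj (by rwa [map_sub, ← e, add_sub_cancel_left])
  have h3 : IX (J.comap (kl1 k u)) ι ≤ L.colon {mono k (u ∘ α)} := IX_le fun i f hf => by
    rw [Submodule.mem_colon_singleton, smul_eq_mul, mono,
      ← Finset.mul_prod_erase _ _ (Finset.mem_univ i), ← mul_assoc, ← blk_X, ← map_mul, mul_comm f]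
    exact Ideal.mul_mem_right _ _ (hL (blk_mem i (h.X_mul _ hf)))
  have h4 := add_mem (Submodule.mem_colon_singleton.1 (h3 h2)) (L.mul_mem_left (mono k (u ∘ α)) hl)
  rwa [smul_eq_mul, mul_comm, ← mul_add, sub_add_cancel] at h4

variable [IsAlgClosed k] [Fintype σ] [Fintype τ] [Fintype κ]

theorem grI_map {L : Ideal (S σ k ι)} (hL : GrI L) : GrI (L.map (kl k ι u) ⊔ IX J ι) :=
  (GrW.map hL _ (AddMonoidHom.id _) (kl_wt h.inj)).sup (grI_IX Δ.hom)

theorem exists_rst (ι : Type) [Fintype ι] : ∃ F : G I ι →ₗ[ℂ] G J ι, ∀ L n, GrI L → IX I ι ≤ L →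
    F (cy I L n) = cy J (L.map (kl k ι u) ⊔ IX J ι) n := by
  refine exists_univ _ (fun L f e n hL hF hf => ?_) fun L n _ _ hi => cy_irr (fun α => ?_) n
  · rw [cy_rec (h.grI_map hL) le_sup_right (hf.kl h.inj) n, Ideal.map_sup, Ideal.map_span,
      Set.image_singleton, sup_right_comm]
    congr 1
    refine (cy_eq_of_sat (h.grI_map (hL.colon hF hf)) ((h.grI_map hL).colon le_sup_right
      (hf.kl h.inj)) le_sup_right (sup_le (Ideal.map_le_iff_le_comap.2 fun g hg => ?_)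
        fun g hg => ?_) (fun g d _ hg α => ⟨1, Ideal.mem_sup_left ?_⟩) _).symm
    · rw [Ideal.mem_comap, Submodule.mem_colon_singleton, smul_eq_mul, ← map_mul]
      exact Ideal.mem_sup_left (Ideal.mem_map_of_mem _ (Submodule.mem_colon_singleton.1 hg))
    · exact Submodule.mem_colon_singleton.2 (Ideal.mem_sup_right (Ideal.mul_mem_right _ _ hg))
    · rw [Submodule.mem_colon_singleton, smul_eq_mul, ← kl_ik h.inj g, ← map_mul] at hg
      rw [pow_one, ← kl_ik h.inj (_ * g), map_mul, ik_mono]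
      refine Ideal.mem_map_of_mem _ (Submodule.mem_colon_singleton.2 ?_)
      rw [smul_eq_mul, mul_assoc]
      exact h.key hF hg α
  · obtain ⟨N, hN⟩ := hi (u ∘ α)
    refine ⟨N, Ideal.mem_sup_left ?_⟩
    rw [← kl_ik h.inj (_ ^ N), map_pow, ik_mono]
    exact Ideal.mem_map_of_mem _ hN

/-- restriction to the part -/
def rst (ι : Type) [Fintype ι] : G I ι →ₗ[ℂ] G J ι := (h.exists_rst ι).choose

theorem rst_cy {L : Ideal (S σ k ι)} (hL : GrI L) (hF : IX I ι ≤ L) (n : ι → ℤ) :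
    h.rst ι (cy I L n) = cy J (L.map (kl k ι u) ⊔ IX J ι) n := (h.exists_rst ι).choose_spec L n hL hF

theorem rst_cT (T : Set (ι → X)) (n : ι → ℤ) :
    h.rst ι (Γ.cT T n) = Δ.cT {y | j ∘ y ∈ T} n := by
  rw [Geo.cT, h.rst_cy (Γ.grI_VI T) (Γ.IX_le_VI T)]
  refine cy_eq_of_sat (h.grI_map (Γ.grI_VI T)) (Δ.grI_VI _) le_sup_right
    ((Δ.le_VI (h.grI_map (Γ.grI_VI T))).2 fun y hy => ?_) (fun g d hg hv α => ⟨1, ?_⟩) n
  · refine fun f hf => (sup_le (Ideal.map_le_iff_le_comap.2 fun F hF => ?_) fun F hF =>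
      Δ.ev_of_IX hF y : _ ≤ RingHom.ker (Δ.ev y)) hf
    rw [Ideal.mem_comap, RingHom.mem_ker, h.ev_kl]
    exact Γ.ev_of_VI hF hy
  · rw [← kl_ik h.inj (_ * g)]
    refine Ideal.mem_sup_left (Ideal.mem_map_of_mem _
      ((Γ.mem_VI (Hg.ik ((basic_hg_mono α 1).mul hg))).2 fun x hx => ?_))
    by_cases e : ∀ i, x i ∈ Set.range j
    · choose y hy using e
      obtain rfl : x = j ∘ y := funext fun i => (hy i).symm
      rw [h.ev_ik, map_mul, Δ.ev_of_VI hv hx, mul_zero]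
    · obtain ⟨i, hi⟩ := not_forall.1 e
      rw [map_mul, map_mul, pow_one, ik_mono, Γ.ev_mono,
        Finset.prod_eq_zero (Finset.mem_univ i) (h.poff _ hi _), zero_mul]

theorem rst_box (x : G I ι) (y : G I κ) :
    h.rst (ι ⊕ κ) (boxG x y) = boxG (h.rst ι x) (h.rst κ y) := by
  refine Γ.supp_ext Γ.cl_univ (F := h.rst (ι ⊕ κ) ∘ₗ boxG.flip y)
    (F' := boxG.flip (h.rst κ y) ∘ₗ h.rst ι) (fun Z n _ => ?_) (Γ.mem_supp_univ x)
  refine Γ.supp_ext Γ.cl_univ (F := h.rst (ι ⊕ κ) ∘ₗ boxG (Γ.cT Z n))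
    (F' := boxG (h.rst ι (Γ.cT Z n)) ∘ₗ h.rst κ) (fun W m _ => ?_) (Γ.mem_supp_univ y)
  rw [LinearMap.comp_apply, LinearMap.comp_apply, Γ.box_cT, h.rst_cT, h.rst_cT, h.rst_cT, Δ.box_cT]
  rfl

theorem rst_supp {T : Set (ι → X)} (hT : Γ.Cl T) {x : G I ι} (hx : x ∈ Γ.Supp T) :
    h.rst ι x ∈ Δ.Supp {y | j ∘ y ∈ T} :=
  Γ.supp_ind hT (V := (Δ.Supp _).comap (h.rst ι)) (fun Z n hZ _ _ _ => by
    classical
    rw [Submodule.mem_comap, h.rst_cT]
    exact cy_mem_sup (Δ.VI_anti fun y hy => hZ hy) n) hx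

end OPart

end Pool.Agent.Bav
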