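import Pool.Agent.P.MP_2ce3e7_ag.Pav.Dbo
import Pool.Agent.P.MP_dd457d_ag.Bav.Plus

/-! Sums of geometric sequences whose algebraic terms are exterior products. -/

set_option autoImplicit false

noncomputable section

namespace Pool.Agent.Bcv

open MvPolynomial Function Pool.Agent.Bav Pool.Agent.Pav

/-- no power of `z` is one of the excluded roots -/
def Good (q : ℕ) (z : ℂ) : Prop := ∀ e : ℕ, e ≠ 0 → ¬PwC (q ^ e) (z ^ e)

theorem Good.qmul {q : ℕ} {z : ℂ} (h : Good q z) (j : ℕ) : Good q ((q : ℂ) ^ j * z) := by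
  rintro e he ⟨l, E, μ, hl, hQ, hμ, h1⟩
  have hl0 : (0 : ℚ) < l := by exact_mod_cast hl.pos
  have hl1 : (l : ℂ) ≠ 0 := by exact_mod_cast hl.ne_zero
  refine h e he ⟨l, E, μ / l ^ j, hl, hQ, by positivity, ?_⟩
  have h2 : (q : ℂ) ^ e = (l : ℂ) ^ E := by exact_mod_cast hQ
  push_cast
  rw [div_pow, eq_div_iff (by positivity), ← h1, mul_pow, ← pow_mul, mul_comm j E, pow_mul, ← h2]
  ring

section
variable {W W' : Type*} [AddCommGroup W] [Module ℂ W] [AddCommGroup W'] [Module ℂ W']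

/-- sums of geometric sequences with a good ratio or with values in `B` -/
def SP (B : Submodule ℂ W) (q : ℕ) : Submodule ℂ (ℕ → W) :=
  Submodule.span ℂ {x | ∃ (z : ℂ) (w : W), (w ∈ B ∨ Good q z) ∧ x = fun n => z ^ n • w}

variable {B : Submodule ℂ W} {B' : Submodule ℂ W'} {q : ℕ} {x : ℕ → W}

theorem SP.geo (z : ℂ) {w : W} (h : w ∈ B ∨ Good q z) : (fun n => z ^ n • w) ∈ SP B q :=
  Submodule.subset_span ⟨z, w, h, rfl⟩

theorem SP.map (Ψ : W →ₗ[ℂ] W') (hΨ : ∀ w ∈ B, Ψ w ∈ B') (h : x ∈ SP B q) :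
    (fun n => Ψ (x n)) ∈ SP B' q := by
  refine (Submodule.span_le (p := (SP B' q).comap (Ψ.compLeft ℕ))).2 ?_ h
  rintro _ ⟨z, w, hw, rfl⟩
  have := SP.geo (B := B') z (hw.imp_left (hΨ w))
  simp only [← map_smul] at this
  exact this

theorem SP.pow_smul (j : ℕ) (h : x ∈ SP B q) :
    (fun n => ((q : ℂ) ^ n) ^ j • x n) ∈ SP B q := by
  let L : (ℕ → W) →ₗ[ℂ] ℕ → W :=
    LinearMap.pi fun n => ((q : ℂ) ^ n) ^ j • LinearMap.proj n
  refine (Submodule.span_le (p := (SP B q).comap L)).2 ?_ h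
  rintro _ ⟨z, w, hw, rfl⟩
  have := SP.geo (B := B) _ (hw.imp_right fun h => h.qmul j)
  refine (congrArg (· ∈ SP B q) (funext fun n => ?_)).mp this
  simp only [L, LinearMap.pi_apply, LinearMap.smul_apply, LinearMap.proj_apply, smul_smul, mul_pow]
  rw [← pow_mul, ← pow_mul, mul_comm j]

theorem SP.sum {α : Type*} (s : Finset α) {y : α → ℕ → W} (h : ∀ a ∈ s, y a ∈ SP B q) :
    (fun n => ∑ a ∈ s, y a n) ∈ SP B q :=
  (congrArg (· ∈ SP B q) (funext fun n => Finset.sum_apply n s y)).mp (Submodule.sum_mem _ h)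

theorem SP.recur (h : x ∈ SP B q) : ∃ T : Set W, T.Finite ∧ T ⊆ B ∧ ∀ e : ℕ, e ≠ 0 →
    ∀ φ : Module.Dual ℂ W, (∀ t ∈ T, φ t = 0) → ∀ p : Polynomial ℂ,
      (∀ z, p.eval z = 0 → PwC (q ^ e) z) →
      (∀ n : ℕ, (p.sum fun a z => z * φ (x (e * (a + n)))) = 0) → φ (x 0) = 0 := by
  classical
  obtain ⟨m, c, y, rfl⟩ := Submodule.mem_span_set'.1 h
  choose z w hw hy using fun i => (y i).2
  refine ⟨{t | t ∈ B ∧ t ∈ Set.range w}, (Set.finite_range w).subset fun _ h => h.2,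
    fun _ h => h.1, fun e he φ hφ p hp h => ?_⟩
  have h2 : ∀ n, φ ((∑ i, c i • (y i).1) n) = ∑ i with w i ∉ B, z i ^ n * (c i * φ (w i)) := by
    intro n
    rw [Finset.sum_apply, map_sum, Finset.sum_filter]
    refine Finset.sum_congr rfl fun i _ => ?_
    rw [hy, Pi.smul_apply, map_smul, map_smul, smul_eq_mul, smul_eq_mul, mul_left_comm]
    split_ifs with hi
    · rw [hφ _ ⟨hi, i, rfl⟩, mul_zero, mul_zero]
    · rfl
  rw [h2]
  simp only [pow_zero, one_mul]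
  refine geo_zero _ _ (fun i => z i ^ e) p (fun i hi h0 => ?_) fun n => ?_
  · exact (hw i).resolve_left (Finset.mem_filter.1 hi).2 e he (hp _ h0)
  · rw [← h n]
    simp only [h2, pow_mul]

end

section
variable {σ k : Type} [Field k] [Fintype σ]

/-- the span of the exterior products -/
def Bx (I : Ideal (MvPolynomial σ k)) : Submodule ℂ (G I (Unit ⊕ Unit)) :=
  Submodule.span ℂ (Set.range fun t : G I Unit × G I Unit => boxG t.1 t.2)

variable {I : Ideal (MvPolynomial σ k)}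

theorem box_mem (x y : G I Unit) : boxG x y ∈ Bx I := Submodule.subset_span ⟨(x, y), rfl⟩

theorem Bx.map {W : Type*} [AddCommGroup W] [Module ℂ W] {B : Submodule ℂ W}
    (Ψ : G I (Unit ⊕ Unit) →ₗ[ℂ] W) (h : ∀ x y, Ψ (boxG x y) ∈ B) : ∀ w ∈ Bx I, Ψ w ∈ B :=
  fun _ hw => (Submodule.span_le (p := B.comap Ψ)).2 (by rintro _ ⟨t, rfl⟩; exact h _ _) hw

theorem dbo_of_sp (hI : HomI I) {q : ℕ}
    (h : (fun n => cy I (IX I (Unit ⊕ Unit) ⊔ gS σ k (q ^ n)) 0) ∈ SP (Bx I) q) :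
    DBo k (CXD.hom I) (CXD.crd I) q := by
  obtain ⟨T, hT, hB, h⟩ := SP.recur h
  choose U hU hX using fun t : T => span_box (hB t.2)
  have := hT.to_subtype
  refine ⟨(fun t => (back t.1, back t.2)) '' ⋃ t, U t, (Set.finite_iUnion hU).image _,
    fun e he l h1 h2 h3 Y y hY p hp h4 => ?_⟩
  obtain ⟨φ, h5, h6⟩ := bridge hI l h1 h2
  have h7 := h e he φ (fun t ht => ?_) (p.map (algebraMap ℚ ℂ)) (pwC_of hp) fun n => by
    have h8 := congrArg (algebraMap ℚ ℂ) (h4 n)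
    rw [Polynomial.sum, map_sum, map_zero] at h8
    rw [Polynomial.sum, Polynomial.support_map_of_injective _ (algebraMap ℚ ℂ).injective, ← h8]
    exact Finset.sum_congr rfl fun a _ => by
      rw [Polynomial.coeff_map, map_mul, pow_mul]
      exact congrArg _ (h6 _ _ _ (hY _))
  · exact Rat.cast_eq_zero.1 ((h6 _ _ _ (hY 0)).symm.trans h7)
  · refine Submodule.span_le (p := LinearMap.ker φ).2 ?_ (hX ⟨t, ht⟩)
    rintro _ ⟨u, hu, rfl⟩
    exact (h5 _ _).trans (Rat.cast_eq_zero.2 (h3 _ ⟨u, Set.mem_iUnion.2 ⟨_, hu⟩, rfl⟩))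

end

theorem calc_sp {Λ Γ : Type} [CommRing Λ] [Fintype Γ] [DecidableEq Γ] (b : Module.Basis Γ ℤ Λ)
    {ρ : Γ → Λ →+* ℂ} (hρ : Injective ρ) {g q : ℕ} {π : Λ}
    (C : Calc Λ g q π fun a => ∏ r, ρ r a)
    (alg : ∀ (S : Finset Γ) (e j : ℕ), e ≠ 0 → j ≤ g →
      (∏ r ∈ S, ρ r π) ^ e = ((q : ℂ) ^ e) ^ j →
      ∃ (y w : C.G Unit) (p : Finset Γ → ℂ), p S ≠ 0 ∧
        ∀ a c, C.B a c y w = ∑ T, (∏ r ∈ T, ρ r a) * (∏ r ∈ Tᶜ, ρ r c) * p T) :
    (fun n => C.push (col (π ^ n)) C.one) ∈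
      SP (Submodule.span ℂ (Set.range fun t : C.G Unit × C.G Unit => C.box t.1 t.2)) q := by
  obtain ⟨X, hX⟩ := row_vec b hρ C LinearMap.id (C.box C.one C.one)
  have h1 : ∀ a, C.push (col a) C.one = ∑ S, (∏ r ∈ S, ρ r a) • C.dl⁻¹ • X S := fun a => by
    have := hX 1 a
    rw [LinearMap.id_apply, Calc.rw2, C.diag, ← eq_inv_smul_iff₀ C.dl_ne, Finset.smul_sum] at this
    refine this.trans (Finset.sum_congr rfl fun S _ => ?_)
    rw [smul_comm]
    simp [Tav.Det.mon]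
  simp only [h1, map_pow, Finset.prod_pow]
  refine SP.sum _ fun S _ => SP.geo _ (or_iff_not_imp_right.2 fun hS => ?_)
  simp only [Good, not_forall, not_not] at hS
  obtain ⟨e, he, hS⟩ := hS
  have := Module.Finite.of_basis b
  have hi : ∀ S : Finset Γ, IsIntegral ℤ ((∏ r ∈ S, ρ r π) ^ e) := fun S =>
    (IsIntegral.prod _ fun r _ =>
      (Algebra.IsIntegral.isIntegral (R := ℤ) π).map (ρ r).toIntAlgHom).pow e
  obtain ⟨n, hn, h5⟩ := deg_frob C
  obtain ⟨j, hj, h6⟩ := pw_pow (hi S) (hi Sᶜ) (g := g) hn (by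
    rw [← mul_pow, Finset.prod_mul_prod_compl, ← pow_mul, mul_comm, pow_mul]
    simp only [map_pow, Finset.prod_pow] at h5
    rw [h5]
    push_cast
    ring) hS
  obtain ⟨y, w, p, hS, hp⟩ := alg S e j he hj (by rw [h6, Nat.cast_pow])
  refine Submodule.smul_mem _ _
    ((Subspace.forall_mem_dualAnnihilator_apply_eq_zero_iff _ _).1 fun φ hφ => ?_)
  refine (mul_eq_zero.1 (exch_box b hρ C hX hp φ (fun x z => ?_) S)).resolve_right hS
  exact (Submodule.mem_dualAnnihilator φ).1 hφ _ (Submodule.subset_span ⟨(x, z), rfl⟩)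

/-- what is used of the point data -/
theorem pmod_pkg (k : Type) [Field k] [Fintype k] {Ω A τ σ Λ S : Type} [Field Ω] [IsAlgClosed Ω]
    [Algebra k Ω] [Algebra.IsAlgebraic k Ω] [AddCommGroup A] [Fintype τ] [Fintype σ] [CommRing Λ]
    [Fintype S] [DecidableEq S] {g : ℕ} {π : Λ} (P : PMod Ω A τ σ Λ g (Fintype.card k) π)
    {ρ : S → Λ →+* ℂ} (b : Module.Basis S ℤ Λ) (hρ : Injective ρ) (hN : P.Num ρ)
    (Γ : Geo (Tav.idl P.p) A) (hΓ : Γ.p = P.p) :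
    (fun n => cy (Tav.idl P.p) (IX (Tav.idl P.p) (Unit ⊕ Unit) ⊔ gS τ _ (Fintype.card k ^ n)) 0) ∈
      SP (Bx (Tav.idl P.p)) (Fintype.card k) ∧
    ∃ (σ : Type) (_ : Fintype σ) (h : A → σ → Ω) (c : ℂ), c ≠ 0 ∧
      (∀ y, h y ≠ 0) ∧ Tav.Mor P.p h id ∧
      (lg (Γ.twF fun t : Unit → A => h (t ())) ^ g) (Γ.cT Set.univ 0) = c • Γ.cT {0} 0 := by
  obtain rfl : Γ = P.geo := by
    cases Γ
    cases hΓ
    rfl
  have e1 : chi ((P.l (1 : Unit → Λ) ^ g) P.one) = (g.factorial : ℂ) * P.num1 1 := P.k_num1 1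
  have hg : (g.factorial : ℂ) ≠ 0 := Nat.cast_ne_zero.2 g.factorial_ne_zero
  let C := P.cal k (N := fun a => ∏ r, ρ r a)
    (by rw [e1]; exact mul_ne_zero hg (Rat.cast_ne_zero.2 hN.del))
    fun a => by rw [e1, P.k_num1, hN.deg, mul_left_comm]
  refine ⟨?_, σ, inferInstance, P.h, C.dl, C.dl_ne, P.hne, P.hmor, ?_⟩
  · simp only [← push_graph]
    refine calc_sp b hρ C fun S e j he hj h => ?_
    obtain ⟨Z, W, c, hc, hs⟩ := hN.alg S e j he hj h
    refine ⟨P.geo.cT {t | t () ∈ Z} 0, P.geo.cT {t | t () ∈ W} 0,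
      fun T => (g.factorial : ℂ) * c T, mul_ne_zero hg hc, fun a b => ?_⟩
    have h3 := P.k_num2 Z W a b
    rw [hs, Finset.mul_sum, ← Sum.elim_zero_zero] at h3
    exact (congrArg (fun z => chi ((P.l _ ^ g) z)) (P.geo.box_cT _ _ 0 0)).trans
      (h3.trans (Finset.sum_congr rfl fun T _ => by ring))
  · rw [← P.tw_eq (u := fun _ : Unit => (1 : Λ)) (f := fun t => t ()) fun t => by
      simp [PMod.row]]
    exact C.point_one

/-- what is used of an abelian variety -/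
theorem av_pkg (k : Type) [Field k] [Fintype k] {A τ : Type} [AddCommGroup A] [Fintype τ]
    {p : A → τ → AlgebraicClosure k} {g : ℕ} {F : A →+ A} (h : HasP k p g F)
    (Γ : Geo (Tav.idl p) A) (hΓ : Γ.p = p) :
    (fun n => cy (Tav.idl p) (IX (Tav.idl p) (Unit ⊕ Unit) ⊔ gS τ _ (Fintype.card k ^ n)) 0) ∈
      SP (Bx (Tav.idl p)) (Fintype.card k) ∧
    ∃ (σ : Type) (_ : Fintype σ) (h : A → σ → AlgebraicClosure k) (c : ℂ), c ≠ 0 ∧
      (∀ y, h y ≠ 0) ∧ Tav.Mor p h id ∧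
      (lg (Γ.twF fun t : Unit → A => h (t ())) ^ g) (Γ.cT Set.univ 0) = c • Γ.cT {0} 0 := by
  obtain ⟨σ, Λ, S, _, _, _, _, ρ, b, π, P, hρ, -, rfl, -, hN⟩ := h
  exact pmod_pkg k P b hρ hN Γ hΓ

end Pool.Agent.Bcv
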