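import Mathlib

/-! Elements that a polynomial in an operator moves into a subspace. -/

set_option autoImplicit false

noncomputable section

namespace Pool.Agent.Bav

open Polynomial

/-- nonzero polynomials whose roots satisfy `g` -/
def Rt (g : ℂ → Prop) : Submonoid ℂ[X] where
  carrier := {H | H ≠ 0 ∧ ∀ z, H.eval z = 0 → g z}
  one_mem' := ⟨one_ne_zero, fun z h => by simp at h⟩
  mul_mem' := fun {a b} ha hb => ⟨mul_ne_zero ha.1 hb.1, fun z h => by
    rw [eval_mul, mul_eq_zero] at h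
    exact h.elim (ha.2 z) (hb.2 z)⟩

theorem exists_pow_poly (M : ℕ) (R : ℂ[X]) (hR : R ≠ 0) : ∃ R₁ : ℂ[X], R₁ ≠ 0 ∧
    R ∣ R₁.comp (X ^ M) ∧ ∀ z, R₁.eval z = 0 → ∃ l, R.eval l = 0 ∧ z = l ^ M := by
  induction h : R.natDegree using Nat.strong_induction_on generalizing R with
  | h n ih =>
  by_cases h0 : R.degree = 0
  · refine ⟨1, one_ne_zero, (isUnit_iff_degree_eq_zero.2 h0).dvd, fun z hz => by simp at hz⟩
  obtain ⟨l, hl⟩ := IsAlgClosed.exists_root R h0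
  obtain ⟨R', rfl⟩ := dvd_iff_isRoot.2 hl
  have h1 : R' ≠ 0 := right_ne_zero_of_mul hR
  obtain ⟨S, s1, s2, s3⟩ := ih R'.natDegree (by
    rw [← h, natDegree_mul (X_sub_C_ne_zero l) h1, natDegree_X_sub_C]
    omega) R' h1 rfl
  refine ⟨(X - C (l ^ M)) * S, mul_ne_zero (X_sub_C_ne_zero _) s1, ?_, fun z hz => ?_⟩
  · rw [mul_comp]
    refine mul_dvd_mul ?_ s2
    rw [sub_comp, X_comp, C_comp, C_pow]
    exact sub_dvd_pow_sub_pow _ _ _
  · rw [eval_mul, mul_eq_zero] at hz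
    rcases hz with hz | hz
    · exact ⟨l, hl, by simpa [sub_eq_zero] using hz⟩
    · obtain ⟨m, a, b⟩ := s3 z hz
      exact ⟨m, by rw [eval_mul, a, mul_zero], b⟩

theorem Rt.exists_pow {g : ℂ → Prop} {M : ℕ} (hM : M ≠ 0)
    (hg : ∀ l m : ℂ, m ^ M = l ^ M → g l → g m) {R : ℂ[X]} (hR : R ∈ Rt g) :
    ∃ R₁ : ℂ[X], R ∣ R₁.comp (X ^ M) ∧ R₁.comp (X ^ M) ∈ Rt g := by
  obtain ⟨S, s1, s2, s3⟩ := exists_pow_poly M R hR.1
  refine ⟨S, s2, fun h => ?_, fun z hz => ?_⟩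
  · rcases comp_eq_zero_iff.1 h with h | ⟨-, h⟩
    · exact s1 h
    · have := congrArg natDegree h
      rw [natDegree_X_pow, natDegree_C] at this
      exact hM this
  · rw [eval_comp, eval_pow, eval_X] at hz
    obtain ⟨l, a, b⟩ := s3 _ hz
    exact hg l z b (hR.2 l a)

variable {V V₁ V₂ : Type*} [AddCommGroup V] [Module ℂ V] [AddCommGroup V₁] [Module ℂ V₁]
  [AddCommGroup V₂] [Module ℂ V₂]

theorem aeval_stab {E : Module.End ℂ V} {A : Submodule ℂ V} (h : ∀ x ∈ A, E x ∈ A) (H : ℂ[X])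
    {x : V} (hx : x ∈ A) : aeval E H x ∈ A := by
  induction H using Polynomial.induction_on' with
  | add p q hp hq =>
    rw [map_add, LinearMap.add_apply]
    exact add_mem hp hq
  | monomial n c =>
    rw [aeval_monomial, Module.End.mul_apply, Module.algebraMap_end_apply]
    refine A.smul_mem _ ?_
    induction n with
    | zero => simpa using hx
    | succ n ih =>
      rw [pow_succ', Module.End.mul_apply]
      exact h _ ih

theorem aeval_int {E : Module.End ℂ V} {E₁ : Module.End ℂ V₁} (π : V →ₗ[ℂ] V₁)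
    (h : ∀ x, π (E x) = E₁ (π x)) (H : ℂ[X]) (x : V) : π (aeval E H x) = aeval E₁ H (π x) := by
  induction H using Polynomial.induction_on' with
  | add p q hp hq => rw [map_add, map_add, LinearMap.add_apply, LinearMap.add_apply, map_add, hp, hq]
  | monomial n c =>
    rw [aeval_monomial, aeval_monomial, Module.End.mul_apply, Module.End.mul_apply,
      Module.algebraMap_end_apply, Module.algebraMap_end_apply, map_smul]
    congr 1
    induction n with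
    | zero => rfl
    | succ n ih => rw [pow_succ', pow_succ', Module.End.mul_apply, Module.End.mul_apply, h, ih]

/-- elements that a polynomial in `E` with roots in `g` moves into the `E`-stable hull of `A` -/
def sat (E : Module.End ℂ V) (g : ℂ → Prop) (A : Submodule ℂ V) : Submodule ℂ V where
  carrier := {x | ∃ H ∈ Rt g, ∀ K : ℂ[X], aeval E (K * H) x ∈ A}
  zero_mem' := ⟨1, one_mem _, fun K => by rw [map_zero]; exact A.zero_mem⟩
  add_mem' := by
    rintro x y ⟨H, h1, h2⟩ ⟨H', h3, h4⟩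
    refine ⟨H * H', mul_mem h1 h3, fun K => ?_⟩
    rw [map_add]
    refine add_mem ?_ ?_
    · rw [show K * (H * H') = K * H' * H by ring]
      exact h2 _
    · rw [← mul_assoc]
      exact h4 _
  smul_mem' := by
    rintro c x ⟨H, h1, h2⟩
    exact ⟨H, h1, fun K => by rw [map_smul]; exact A.smul_mem _ (h2 K)⟩

variable {E : Module.End ℂ V} {g : ℂ → Prop} {A : Submodule ℂ V}

theorem mem_sat (hA : ∀ x ∈ A, E x ∈ A) {H : ℂ[X]} (hH : H ∈ Rt g) {x : V}
    (hx : aeval E H x ∈ A) : x ∈ sat E g A :=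
  ⟨H, hH, fun K => by
    rw [map_mul, Module.End.mul_apply]
    exact aeval_stab hA K hx⟩

theorem le_sat (hA : ∀ x ∈ A, E x ∈ A) : A ≤ sat E g A := fun x hx =>
  mem_sat hA (one_mem _) (by simpa using hx)

theorem sat_of {H : ℂ[X]} (hH : H ∈ Rt g) {x : V} (hx : aeval E H x ∈ sat E g A) :
    x ∈ sat E g A := by
  obtain ⟨H', h1, h2⟩ := hx
  refine ⟨H' * H, mul_mem h1 hH, fun K => ?_⟩
  rw [← mul_assoc, map_mul, Module.End.mul_apply]
  exact h2 K

theorem sat_stab {x : V} (hx : x ∈ sat E g A) : E x ∈ sat E g A := by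
  obtain ⟨H, h1, h2⟩ := hx
  refine ⟨H, h1, fun K => ?_⟩
  have := h2 (K * X)
  rwa [show K * X * H = K * H * X by ring, map_mul, Module.End.mul_apply, aeval_X] at this

theorem sat_mono {A' : Submodule ℂ V} (h : A ≤ A') : sat E g A ≤ sat E g A' :=
  fun _ ⟨H, h1, h2⟩ => ⟨H, h1, fun K => h (h2 K)⟩

theorem sat_map {E₁ : Module.End ℂ V₁} (π : V →ₗ[ℂ] V₁) (h : ∀ x, π (E x) = E₁ (π x))
    {A₁ : Submodule ℂ V₁} (hA : ∀ x ∈ A, π x ∈ A₁) {x : V} (hx : x ∈ sat E g A) :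
    π x ∈ sat E₁ g A₁ := by
  obtain ⟨H, h1, h2⟩ := hx
  exact ⟨H, h1, fun K => aeval_int π h _ x ▸ hA _ (h2 K)⟩

theorem sat_ker {x : V} (hx : x ∈ sat E (· ≠ 0) ⊥) (h : E x = 0) : x = 0 := by
  obtain ⟨H, h1, h2⟩ := hx
  have h3 := h2 1
  rw [one_mul, ← divX_mul_X_add H, map_add, map_mul, LinearMap.add_apply, Module.End.mul_apply,
    aeval_X, h, map_zero, zero_add, aeval_C, Module.algebraMap_end_apply, Submodule.mem_bot,
    smul_eq_zero] at h3
  exact h3.resolve_left fun h0 => h1.2 0 (by rw [← coeff_zero_eq_eval_zero, h0]) rfl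

theorem sat_eig {x : V} {c : ℂ} (hc : g c) (h : E x - c • x ∈ sat E g A) : x ∈ sat E g A :=
  sat_of (H := X - C c) ⟨X_sub_C_ne_zero c, fun z hz => by
    rw [eval_sub, eval_X, eval_C, sub_eq_zero] at hz
    exact hz ▸ hc⟩ (by
    rwa [map_sub, aeval_X, aeval_C, LinearMap.sub_apply, Module.algebraMap_end_apply])

/-- one step of the dévissage -/
theorem sat_step {E₁ : Module.End ℂ V₁} {E₂ : Module.End ℂ V₂} (π₁ : V →ₗ[ℂ] V₁)
    (π₂ : V →ₗ[ℂ] V₂) (h₁ : ∀ x, π₁ (E x) = E₁ (π₁ x)) (h₂ : ∀ x, π₂ (E x) = E₂ (π₂ x))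
    {M : ℕ} (hM : M ≠ 0) (hg : ∀ l m : ℂ, m ^ M = l ^ M → g l → g m) {T : Submodule ℂ V}
    (hT : ∀ x ∈ T, (E ^ M) x ∈ T) {A₁ D : Submodule ℂ V₁} {A₂ : Submodule ℂ V₂}
    (hA : A₁ ≤ (T ⊓ (sat E₂ g A₂).comap π₂).map π₁ ⊔ D)
    (hD : ∀ x ∈ T, π₁ x ∈ D → π₂ x ∈ sat E₂ g A₂) {x : V} (hx : x ∈ T)
    (h : π₁ x ∈ sat E₁ g A₁) : π₂ x ∈ sat E₂ g A₂ := by
  obtain ⟨R, r1, r2⟩ := h
  obtain ⟨S, ⟨K, s1⟩, s2⟩ := Rt.exists_pow hM hg r1
  have h3 := r2 K
  rw [mul_comm, ← s1, ← aeval_int π₁ h₁] at h3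
  obtain ⟨_, ⟨a, ⟨a1, a2⟩, rfl⟩, d, hd, e⟩ := Submodule.mem_sup.1 (hA h3)
  have h4 : aeval E (S.comp (X ^ M)) x ∈ T := by
    rw [aeval_comp, map_pow, aeval_X]
    exact aeval_stab hT S hx
  have h5 := hD _ (sub_mem h4 a1) (by rwa [map_sub, ← e, add_sub_cancel_left])
  refine sat_of s2 ?_
  rw [← aeval_int π₂ h₂, ← sub_add_cancel (aeval E _ x) a, map_add]
  exact add_mem h5 a2

end Pool.Agent.Bav
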