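import Pool.Agent.P.MP_dd457d_ag.Bcv.SdLift
import Pool.Agent.P.MP_dd457d_ag.Bcv.SdPow

/-! Localisation: forgetting slots is injective modulo the boundary. -/

set_option autoImplicit false

noncomputable section

namespace Pool.Agent.Bav

open MvPolynomial Function Filter

variable {σ k ι κ X : Type} [Field k] {I : Ideal (MvPolynomial σ k)} [Fintype σ] [Fintype ι]
  [Fintype κ]

/-- the multiplicity of a minimal prime -/
theorem rank_step {V : Type*} [AddCommGroup V] [Module ℂ V] {e : G I κ →ₗ[ℂ] V}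
    {P : Ideal (S σ k κ)} (hP : Pr I P) {N : GM I κ} (h2 : N.ann ≤ P)
    (h1 : ∀ R, Pr I R → N.ann ≤ R → R ≤ P → R = P)
    (h3 : ∀ R m, Pr I R → N.ann ≤ R → R ≠ P → e (cy I R m) = 0) {n : κ → ℤ}
    (hs : ∀ m, e (cy I P m) = e (cy I P n)) :
    ∃ a : ℂ, a ≠ 0 ∧ e (cls N) = a • e (cy I P n) := by
  classical
  obtain ⟨r, Q, s, a1, a2, a3⟩ := dv N
  obtain ⟨i₀, hi₀⟩ := a2 P hP.prime h2
  have hq : ∀ i, Pr I (Q i) := fun i => ⟨(a1 i).1, (a1 i).2.1, N.IX_le_ann.trans (a1 i).2.2⟩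
  have ht : ∀ i, e (cy I (Q i) (s i)) = (if Q i = P then (1 : ℂ) else 0) • e (cy I P n) := by
    intro i
    split_ifs with h
    · rw [h, hs, one_smul]
    · rw [zero_smul]
      exact h3 _ _ (hq i) (a1 i).2.2 h
  refine ⟨_, ?_, by
    rw [a3, map_sum, Finset.sum_congr rfl fun i _ => ht i, ← Finset.sum_smul, Finset.sum_boole]⟩
  exact Nat.cast_ne_zero.2 (Finset.card_ne_zero.2 ⟨i₀,
    Finset.mem_filter.2 ⟨Finset.mem_univ _, h1 _ (hq i₀) (a1 i₀).2.2 hi₀⟩⟩)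

theorem shift_step {V : Type*} [AddCommGroup V] [Module ℂ V] {e : G I κ →ₗ[ℂ] V}
    {P : Ideal (S σ k κ)} (hP : Pr I P) (ih : ∀ Q, P < Q → Pr I Q → ∀ n, e (cy I Q n) = 0)
    (m n : κ → ℤ) : e (cy I P m) = e (cy I P n) := by
  by_cases hi : Irr P
  · rw [cy_irr hi, cy_irr hi]
  obtain ⟨α, hα⟩ := exists_var_notMem hP.prime hi
  exact cy_shift hP.gr hP.prime hP.le α hα (fun i => kil_of_primes fun Q l a b c d =>
    ih Q (lt_of_le_of_ne (le_sup_left.trans d) fun hh => hα i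
      (hh ▸ d (Ideal.mem_sup_right (Ideal.mem_span_singleton_self _)))) ⟨a, b, c⟩ l) m n

namespace Geo

variable [IsAlgClosed k] {Γ : Geo I X} {u : κ → ι} {T : Set (ι → X)} {D : Set (κ → X)}

theorem exists_slice (Γ : Geo I X) (hu : Injective u) (Z : Set (ι → X)) :
    ∃ (n : ι → ℤ) (N : GM I κ), fgt u hu (Γ.cT Z n) = cls N ∧ N.ann = Γ.VI ((· ∘ u) '' Z) := by
  obtain ⟨M, x, hM, e⟩ := Γ.exists_cT Z 0
  obtain ⟨d₀, hd⟩ := eventually_atTop.1 (fgt_spec u hu M)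
  obtain ⟨r, hr⟩ : ∃ r : ℕ, d₀ ≤ fun _ => (r : ℤ) :=
    ⟨∑ i, (d₀ i).toNat, fun i => (Int.self_le_toNat _).trans (Int.ofNat_le.2
      (Finset.single_le_sum (f := fun i => (d₀ i).toNat) (fun _ _ => Nat.zero_le _)
        (Finset.mem_univ i)))⟩
  obtain ⟨N, j, h⟩ := exists_isPull (reD I u hu fun _ => (r : ℤ)) M
  refine ⟨0 + fun _ => (r : ℤ), N, ?_, le_antisymm (Γ.onto_ann u hu Z hM r h)
    fun f hf => GM.mem_ann.2 fun y => h.inj ?_⟩
  · rw [← Γ.shG_cT, e, hd _ hr, h.cls_eq]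
  · rw [h.smul, map_zero, reD_φ]
    exact GM.mem_ann.1 (hM.ann_eq.ge (Γ.VI_image_le u hu Z (Ideal.mem_map_of_mem _ hf))) _

/-- a class on `T` whose projection lives on `D` lives over `D` -/
theorem PS.inj_mod (h : Γ.PS u T D) (hD : Γ.Cl D) {x : G I ι} (hx : x ∈ Γ.Supp T)
    (h0 : fgt u h.inj x ∈ Γ.Supp D) : x ∈ Γ.Supp (ovr u T D) := by
  classical
  obtain ⟨s, hs⟩ := h.exists_lift
  let B := ovr u T D
  have s0 : Γ.Supp D ≤ LinearMap.ker s := Γ.supp_ind hD fun Z n hZ hc hP _ => by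
    rw [LinearMap.mem_ker, cT, hs _ _ hP.gr hP.le]
    exact (Submodule.Quotient.mk_eq_zero _).2 (Γ.cy_mem_supp
      (fun t ht => And.intro (h.zs _ ht).1 (hZ (hc (h.zs _ ht).2))) _)
  let E : Module.End ℂ (G I ι ⧸ Γ.Supp B) := (Γ.Supp B).liftQ (s ∘ₗ fgt u h.inj) fun y hy =>
    s0 (Γ.Supp_mono (by rintro _ ⟨t, ht, rfl⟩; exact ht.2) (Γ.fgt_supp u h.inj hy))
  let W := sat E (· ≠ 0) ⊥
  let e : G I ι →ₗ[ℂ] _ := W.mkQ ∘ₗ (Γ.Supp B).mkQ
  let e' : G I κ →ₗ[ℂ] _ := W.mkQ ∘ₗ s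
  have eB : ∀ y ∈ Γ.Supp B, e y = 0 := fun y hy => by
    change W.mkQ ((Γ.Supp B).mkQ y) = 0
    rw [Submodule.mkQ_apply (Γ.Supp B), (Submodule.Quotient.mk_eq_zero _).2 hy, map_zero]
  have main : ∀ Q : Ideal (S σ k ι), Pr I Q → Γ.VI T ≤ Q → ∀ n, e (cy I Q n) = 0 := by
    intro Q
    induction Q using IsNoetherian.induction with
    | hgt Q ih =>
    intro hQ hl n
    replace ih : ∀ R, Q < R → Pr I R → ∀ n, e (cy I R n) = 0 :=
      fun R a b => ih R a b (hl.trans a.le)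
    by_cases hi : Irr Q
    · rw [cy_irr hi, map_zero]
    by_cases hb : Γ.VI B ≤ Q
    · exact eB _ (kpt_cy hb n)
    have eQ := Γ.VI_ZS hQ hi
    have hZ : Γ.ZS Q ⊆ T := (Γ.ZS_anti hl).trans h.cl
    set P := Γ.VI ((· ∘ u) '' Γ.ZS Q) with hP
    have eP : Ideal.comap (rn u) Q = P := by rw [hP, ← Γ.VI_comap u h.inj, eQ]
    have pP : Pr I P := Γ.pr_VI (by
      have := hQ.prime
      rw [← hP, ← eP]
      exact Ideal.IsPrime.comap _)
    have key : ∀ R, Pr I R → P.map (rn u) ⊔ Γ.VI T ≤ R → Irr R ∨ Q ≤ R ∨ Γ.VI B ≤ R := by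
      intro R hR hl'
      by_cases hi' : Irr R
      · exact Or.inl hi'
      have := Γ.prime_union hR.prime (Γ.VI_ZS hR hi' ▸ Γ.VI_anti
        (((Γ.ZS_anti hl').trans (h.zs P)).trans (h.graph hZ)))
      rw [Γ.VI_ZS_VI, eQ] at this
      exact Or.inr this
    have kil : ∀ R m, Pr I R → P.map (rn u) ⊔ Γ.VI T ≤ R → R ≠ Q → e (cy I R m) = 0 := by
      intro R m hR hl' hne
      rcases key R hR hl' with a | a | a
      · rw [cy_irr a, map_zero]
      · exact ih R (lt_of_le_of_ne a hne.symm) hR m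
      · exact eB _ (kpt_cy a m)
    have ih' : ∀ R, P < R → Pr I R → ∀ m, e' (cy I R m) = 0 := fun R a hR m => by
      have h1 : Kil e (R.map (rn u) ⊔ Γ.VI T) := kil_of_primes fun R' l b c d f =>
        kil R' l ⟨b, c, d⟩ ((sup_le_sup_right (Ideal.map_mono a.le) _).trans f) fun g =>
          a.not_ge (eP ▸ Ideal.map_le_iff_le_comap.1 (g ▸ le_sup_left.trans f))
      exact (congrArg W.mkQ (hs R m hR.gr hR.le)).trans (h1.cy le_rfl _)
    obtain ⟨r, N, h1, h2⟩ := Γ.exists_slice h.inj (Γ.ZS Q)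
    rw [← hP] at h2
    rw [cT, eQ] at h1
    obtain ⟨a, a0, ha⟩ := rank_step (e := e') pP h2.le (fun R _ b c => le_antisymm c (h2 ▸ b))
      (fun R m b c d => ih' R (lt_of_le_of_ne (h2 ▸ c) d.symm) b m)
      (n := 0) fun m => shift_step pP ih' m 0
    obtain ⟨M, y, hM, eM⟩ := exists_cy (h.gr pP.gr) (ps_le P) (extend u 0 0)
    obtain ⟨b, b0, hb'⟩ := rank_step (e := e) hQ (N := M)
      (hM.ann_eq.le.trans (sup_le (Ideal.map_le_iff_le_comap.2 eP.ge) hl))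
      (fun R c d f => by
        rcases key R c (hM.ann_eq.ge.trans d) with g | g | g
        · exact absurd (g.mono f) hi
        · exact le_antisymm f g
        · exact absurd (g.trans f) hb)
      (fun R m c d f => kil R m c (hM.ann_eq.ge.trans d) f) (n := r) fun m => shift_step hQ ih m r
    rw [shift_step hQ ih n r]
    refine (Submodule.Quotient.mk_eq_zero _).2 (sat_eig (c := a * b) (mul_ne_zero a0 b0)
      ((Submodule.Quotient.eq _).1 ?_))
    change e' (fgt u h.inj (cy I Q r)) = W.mkQ ((a * b) • (Γ.Supp B).mkQ (cy I Q r))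
    rw [h1, ha, map_smul, mul_smul]
    congr 1
    exact (congrArg W.mkQ (hs P 0 pP.gr pP.le)).trans ((congrArg e eM).trans hb')
  have h1 : e x = 0 := kpt_primes (W := LinearMap.ker e) (fun Q n a b => main Q a b n) hx
  exact (Submodule.Quotient.mk_eq_zero _).1
    (sat_ker ((Submodule.Quotient.mk_eq_zero W).1 h1) (s0 h0))

end Geo

end Pool.Agent.Bav
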