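import Pool.Agent.P.MP_dd457d_ag.Bcv.Onto

/-! Lifting classes to a closed set that is a graph away from a boundary. -/

set_option autoImplicit false

noncomputable section

namespace Pool.Agent.Bav

open MvPolynomial Function

variable {σ k ι κ X : Type} [Field k] {I : Ideal (MvPolynomial σ k)}

namespace Geo

/-- over the complement of `D` the closed set `T` projects isomorphically to an open set -/
structure PS (Γ : Geo I X) (u : κ → ι) (T : Set (ι → X)) (D : Set (κ → X)) : Prop where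
  inj : Injective u
  cl : Γ.Cl T
  ch : ∀ t₀ ∈ T, t₀ ∘ u ∉ D → ∀ i, (∀ j, u j ≠ i) → ∃ (Q : σ → S σ k κ) (e : κ → ℤ),
    (∀ a, Hg (Q a) e) ∧ (∃ a, Γ.ev (t₀ ∘ u) (Q a) ≠ 0) ∧
      ∀ t ∈ T, ∃ l : k, ∀ a, Γ.ev (t ∘ u) (Q a) = l * Γ.p (t i) a
  op : ∀ t₀ ∈ T, t₀ ∘ u ∉ D → ∃ (h : S σ k κ) (d : κ → ℤ), Hg h d ∧ Γ.ev (t₀ ∘ u) h ≠ 0 ∧
    ∀ y, Γ.ev y h ≠ 0 → ∃ t ∈ T, t ∘ u = y

/-- a chart, as a substitution -/
structure PC (Γ : Geo I X) (u : κ → ι) (T : Set (ι → X)) where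
  θ : S σ k ι →ₐ[k] S σ k κ
  v : (ι → ℤ) →+ (κ → ℤ)
  Λ : (ι → X) → (ι → ℤ) → k
  hg : ∀ g d, Hg g d → Hg (θ g) (v d)
  rn : ∀ f, θ (rn u f) = f
  ev : ∀ t ∈ T, ∀ g d, Hg g d → Γ.ev (t ∘ u) (θ g) = Λ t d * Γ.ev t g

/-- the part of `T` over `W` -/
def ovr (u : κ → ι) (T : Set (ι → X)) (W : Set (κ → X)) : Set (ι → X) := {t ∈ T | t ∘ u ∈ W}

variable [IsAlgClosed k] [Fintype σ] [Fintype ι] [Fintype κ] {Γ : Geo I X} {u : κ → ι}
  {T : Set (ι → X)} {D : Set (κ → X)}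

theorem cy_sub_mem (Γ : Geo I X) {J' : Ideal (S σ k ι)} (hJ' : GrI J') {B : Set (ι → X)}
    (n : ι → ℤ) (J : Ideal (S σ k ι)) : GrI J → IX I ι ≤ J → J ≤ J' →
      (∀ g d, Hg g d → g ∈ J' → Γ.ZS (J.colon {g}) ⊆ B) → cy I J n - cy I J' n ∈ Γ.Supp B := by
  induction J using IsNoetherian.induction with
  | hgt J ih =>
  intro hJ hF hl h
  by_cases e : J' ≤ J
  · rw [le_antisymm hl e, sub_self]
    exact zero_mem _
  obtain ⟨g, d, hg, hm, hn⟩ : ∃ g d, Hg g d ∧ g ∈ J' ∧ g ∉ J := by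
    by_contra hc
    push Not at hc
    exact e (hJ'.le_of_hom hc)
  rw [cy_rec hJ hF hg n, add_sub_assoc]
  refine add_mem (Γ.cy_mem_supp (h g d hg hm) _) (ih _ (lt_of_le_of_ne le_sup_left fun e => hn
    (e ▸ Ideal.mem_sup_right (Ideal.mem_span_singleton_self _)))
    (GrW.sup hJ (grW_span fun f hf => ⟨d, hf ▸ hg⟩)) (hF.trans le_sup_left)
    (sup_le hl ((Ideal.span_singleton_le_iff_mem _).2 hm)) fun g' d' a b =>
      (Γ.ZS_anti fun f hf => ?_).trans (h g' d' a b))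
  rw [Submodule.mem_colon_singleton] at hf ⊢
  exact Ideal.mem_sup_left hf

omit [IsAlgClosed k] [Fintype σ] [Fintype κ] in
theorem PS.exists_ch (h : Γ.PS u T D) {t₀ : ι → X} (ht : t₀ ∈ T) (hD : t₀ ∘ u ∉ D) :
    ∃ c : PC Γ u T, ∀ d, c.Λ t₀ d ≠ 0 := by
  classical
  have H : ∀ i, ∃ (Q : σ → S σ k κ) (e : κ → ℤ) (l : (ι → X) → k), (∀ a, Hg (Q a) e) ∧
      (∀ t ∈ T, ∀ a, Γ.ev (t ∘ u) (Q a) = l t * Γ.p (t i) a) ∧ l t₀ ≠ 0 ∧
      ∀ j, u j = i → ∀ a, Q a = MvPolynomial.X (j, a) := by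
    intro i
    by_cases hi : ∃ j, u j = i
    · obtain ⟨j, rfl⟩ := hi
      refine ⟨fun a => MvPolynomial.X (j, a), Pi.single j 1, fun _ => 1, fun a => ?_,
        fun y _ a => ?_, one_ne_zero, fun j' e a => by rw [h.inj e]⟩
      · have := hg_X (k := k) (j, a)
        rwa [wt_eq_single] at this
      · rw [one_mul]
        exact aeval_X _ _
    · obtain ⟨Q, e, h1, ⟨a, h2⟩, h3⟩ := h.ch t₀ ht hD i fun j e => hi ⟨j, e⟩
      choose! l hl using h3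
      refine ⟨Q, e, l, h1, hl, fun h0 => h2 ?_, fun j e => absurd ⟨j, e⟩ hi⟩
      rw [hl _ ht, h0, zero_mul]
  choose Q e l hQ hl h0 hu using H
  let v : (ι → ℤ) →+ (κ → ℤ) :=
    { toFun := fun d => ∑ i, d i • e i
      map_zero' := by simp
      map_add' := fun d d' => by simp [add_smul, Finset.sum_add_distrib] }
  have hv : ∀ s : ι × σ, v (wt s) = e s.1 := fun s => by
    change ∑ i, wt s i • e i = _
    rw [Finset.sum_eq_single s.1 (fun i _ hi => by rw [wt_apply, if_neg hi, zero_smul])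
      (fun h => absurd (Finset.mem_univ _) h), wt_apply, if_pos rfl, one_smul]
  refine ⟨⟨aeval fun s => Q s.1 s.2, v, fun y d => ∏ i, l i y ^ (d i).toNat,
    fun g d hg => hom_map _ v (fun s => ?_) hg, fun f => ?_, fun y hy g d hg => ?_⟩,
    fun d => Finset.prod_ne_zero_iff.2 fun i _ => pow_ne_zero _ (h0 i)⟩
  · rw [aeval_X, hv]
    exact hQ _ _
  · have : (aeval fun s : ι × σ => Q s.1 s.2).comp (Bav.rn u) = AlgHom.id k (S σ k κ) :=
      algHom_ext fun s => by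
        rw [AlgHom.comp_apply, rn_X, aeval_X, AlgHom.id_apply]
        exact hu _ _ rfl _
    exact DFunLike.congr_fun this f
  · have e1 : (Γ.ev (y ∘ u)).comp (aeval fun s : ι × σ => Q s.1 s.2) =
        aeval fun s : ι × σ => l s.1 y * Γ.p (y s.1) s.2 :=
      algHom_ext fun s => by rw [AlgHom.comp_apply, aeval_X, aeval_X, hl _ _ hy]
    have e2 := DFunLike.congr_fun e1 g
    rw [AlgHom.comp_apply, aeval_eq_eval] at e2
    rw [e2, gr_ev]
    exact hg.eval_scale (fun i => l i y) _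

theorem PS.gr (h : Γ.PS u T D) {K : Ideal (S σ k κ)} (hK : GrI K) :
    GrI (K.map (Bav.rn u) ⊔ Γ.VI T) := GrW.sup (hK.map_rn h.inj) (Γ.grI_VI _)

theorem ps_le (K : Ideal (S σ k κ)) : IX I ι ≤ K.map (Bav.rn u) ⊔ Γ.VI T :=
  (Γ.IX_le_VI _).trans le_sup_right

theorem PS.zs (h : Γ.PS u T D) (K : Ideal (S σ k κ)) :
    Γ.ZS (K.map (Bav.rn u) ⊔ Γ.VI T) ⊆ ovr u T (Γ.ZS K) := by
  rw [Γ.ZS_sup, Γ.ZS_map_rn]
  exact fun _ hx => ⟨h.cl hx.2, hx.1⟩

theorem PS.colon (h : Γ.PS u T D) {K : Ideal (S σ k κ)} (hF : IX I κ ≤ K) {f : S σ k κ}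
    {g : S σ k ι} {d : ι → ℤ} (hg : Hg g d)
    (hm : g * Bav.rn u f ∈ K.map (Bav.rn u) ⊔ Γ.VI T) :
    Γ.ZS (((K.colon {f}).map (Bav.rn u) ⊔ Γ.VI T).colon {g}) ⊆ ovr u T D := by
  intro x hx
  have hT : x ∈ T := h.cl (Γ.ZS_anti (le_sup_right.trans (le_colon_one _ _)) hx)
  refine ⟨hT, not_not.1 fun hD => ?_⟩
  by_cases h0 : g = 0
  · have := hx 1 (by rw [Submodule.mem_colon_singleton, h0, smul_zero]; exact zero_mem _)
    rw [map_one] at this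
    exact one_ne_zero this
  obtain ⟨c, hc⟩ := h.exists_ch hT hD
  obtain ⟨w, e, hw, w0, w1⟩ := h.op x hT hD
  obtain ⟨m, hm1, hm0⟩ := exists_hg_ne (Γ := Γ) x hg h0
  have h3 : K.map (Bav.rn u) ⊔ Γ.VI T ≤ (K.colon {w}).comap c.θ := by
    refine sup_le ?_ ((Γ.grI_VI _).le_of_hom fun s b hs hv => ?_)
    · rw [Ideal.map_le_iff_le_comap]
      intro s hs
      rw [Ideal.mem_comap, Ideal.mem_comap, c.rn]
      exact le_colon_one _ _ hs
    · rw [Ideal.mem_comap, Submodule.mem_colon_singleton, smul_eq_mul]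
      refine hF ?_
      rw [← Γ.VI_univ, Γ.mem_VI ((c.hg s b hs).mul hw)]
      intro y _
      rw [map_mul]
      by_cases hy : Γ.ev y w = 0
      · rw [hy, mul_zero]
      · obtain ⟨t, ht, rfl⟩ := w1 y hy
        rw [c.ev t ht s b hs, Γ.ev_of_VI hv ht, mul_zero, zero_mul]
  have h4 : c.θ g * w ∈ K.colon {f} := by
    have := h3 hm
    rw [Ideal.mem_comap, Submodule.mem_colon_singleton, smul_eq_mul, map_mul, c.rn] at this
    rwa [Submodule.mem_colon_singleton, smul_eq_mul, mul_right_comm]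
  have h1 : Bav.rn u (c.θ m * w) * g - Bav.rn u (c.θ g * w) * m ∈ Γ.VI T := by
    rw [Γ.mem_VI (poly_hg_sub ((hg_rn h.inj ((c.hg m d hm1).mul hw)).mul hg)
      ((hg_rn h.inj ((c.hg g d hg).mul hw)).mul hm1))]
    intro z hz
    rw [map_sub, map_mul, map_mul (Γ.ev z), Γ.ev_rn, Γ.ev_rn, map_mul, map_mul,
      c.ev z hz m d hm1, c.ev z hz g d hg]
    ring
  have h2 : Bav.rn u (c.θ m * w) ∈ ((K.colon {f}).map (Bav.rn u) ⊔ Γ.VI T).colon {g} := by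
    rw [Submodule.mem_colon_singleton, smul_eq_mul,
      ← sub_add_cancel (_ * g) (Bav.rn u (c.θ g * w) * m)]
    exact Ideal.add_mem _ (Ideal.mem_sup_right h1)
      (Ideal.mem_sup_left (Ideal.mul_mem_right _ _ (Ideal.mem_map_of_mem _ h4)))
  have h5 := hx _ h2
  rw [Γ.ev_rn, map_mul, c.ev x hT m d hm1] at h5
  exact mul_ne_zero (mul_ne_zero (hc d) hm0) w0 h5

theorem PS.exists_lift (h : Γ.PS u T D) :
    ∃ s : G I κ →ₗ[ℂ] G I ι ⧸ Γ.Supp (ovr u T D), ∀ J n, GrI J → IX I κ ≤ J → s (cy I J n) =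
      (Γ.Supp (ovr u T D)).mkQ (cy I (J.map (rn u) ⊔ Γ.VI T) (extend u n 0)) := by
  refine exists_univ _ (fun J f e n hJ hF hf => ?_) fun J n hJ hF hi => ?_
  · have e1 : extend u (n - e) (0 : ι → ℤ) = extend u n 0 - extend u e 0 :=
      map_sub (polyExt h.inj) n e
    rw [cy_rec (h.gr hJ) (ps_le J) (hg_rn h.inj hf), e1, Ideal.map_sup, Ideal.map_span,
      Set.image_singleton, sup_right_comm, map_add]
    congr 1
    refine ((Submodule.Quotient.eq _).2 (Γ.cy_sub_mem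
      ((h.gr hJ).colon (ps_le J) (hg_rn h.inj hf)) _ _ (h.gr (hJ.colon hF hf)) (ps_le _)
      (sup_le ?_ ?_) fun g d hg hm => h.colon hF hg ?_)).symm
    · rw [Ideal.map_le_iff_le_comap]
      intro g hg
      rw [Submodule.mem_colon_singleton, smul_eq_mul] at hg
      rw [Ideal.mem_comap, Submodule.mem_colon_singleton, smul_eq_mul, ← map_mul]
      exact Ideal.mem_sup_left (Ideal.mem_map_of_mem _ hg)
    · exact le_sup_right.trans (le_colon_one _ _)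
    · rwa [Submodule.mem_colon_singleton, smul_eq_mul] at hm
  · rw [cy_irr ((Γ.irr_iff (h.gr hJ) (ps_le J)).2 (Set.eq_empty_of_forall_notMem fun x hx => by
      have := (h.zs J hx).2
      rw [(Γ.irr_iff hJ hF).1 hi] at this
      exact this)), map_zero]

/-- off the boundary `T` is a graph -/
theorem PS.graph (h : Γ.PS u T D) {Z : Set (ι → X)} (hZ : Z ⊆ T) :
    ovr u T (Γ.ZS (Γ.VI ((· ∘ u) '' Z))) ⊆ Γ.ZS (Γ.VI Z) ∪ ovr u T D := by
  intro t ht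
  by_cases hD : t ∘ u ∈ D
  · exact Or.inr ⟨ht.1, hD⟩
  refine Or.inl (Γ.mem_ZS_of_hg (Γ.grI_VI _) fun g d hg hm => ?_)
  obtain ⟨c, hc⟩ := h.exists_ch ht.1 hD
  have h1 := ht.2 (c.θ g) ((Γ.mem_VI (c.hg g d hg)).2 (by
    rintro _ ⟨z, hz, rfl⟩
    exact (c.ev z (hZ hz) g d hg).trans (by rw [Γ.ev_of_VI hm hz, mul_zero])))
  rw [c.ev t ht.1 g d hg] at h1
  exact (mul_eq_zero.1 h1).resolve_left (hc d)

theorem prime_union (Γ : Geo I X) {A B : Set (ι → X)} {P : Ideal (S σ k ι)} (hP : P.IsPrime)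
    (h : Γ.VI (A ∪ B) ≤ P) : Γ.VI A ≤ P ∨ Γ.VI B ≤ P := by
  by_cases hA : Γ.VI A ≤ P
  · exact Or.inl hA
  obtain ⟨g, d, hg, hm, hn⟩ : ∃ g d, Hg g d ∧ g ∈ Γ.VI A ∧ g ∉ P := by
    by_contra hc
    push Not at hc
    exact hA ((Γ.grI_VI A).le_of_hom hc)
  refine Or.inr ((Γ.grI_VI B).le_of_hom fun f e hf hB => (hP.mem_or_mem (h
    ((Γ.mem_VI (hg.mul hf)).2 fun x hx => ?_))).resolve_left hn)
  rw [map_mul]
  exact hx.elim (fun a => by rw [Γ.ev_of_VI hm a, zero_mul]) fun a => by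
    rw [Γ.ev_of_VI hB a, mul_zero]

theorem Supp_union (Γ : Geo I X) (A B : Set (ι → X)) : Γ.Supp (A ∪ B) ≤ Γ.Supp A ⊔ Γ.Supp B :=
  kpt_primes fun _ n hP hl => (Γ.prime_union hP.prime hl).elim
    (fun a => Submodule.mem_sup_left (kpt_cy a n)) fun a => Submodule.mem_sup_right (kpt_cy a n)

end Geo

end Pool.Agent.Bav
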