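import Pool.Agent.P.MP_dd457d_ag.Bcv.SdInj

/-! The localisation lemma with passive slots. -/

set_option autoImplicit false

noncomputable section

namespace Pool.Agent.Bav.Geo

open MvPolynomial Function

variable {σ k ι κ μ α X : Type} [Field k] [IsAlgClosed k] {I : Ideal (MvPolynomial σ k)}
  [Fintype σ] [Fintype ι] [Fintype κ] [Fintype μ] [Fintype α] {Γ : Geo I X} {u : κ → ι}
  {T : Set (ι → X)} {D : Set (κ → X)}

/-- the points whose last block lies in `T` -/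
def snd (α : Type) (T : Set (ι → X)) : Set (α ⊕ ι → X) := {t | t ∘ Sum.inr ∈ T}

theorem Cl.snd (h : Γ.Cl T) (α : Type) [Fintype α] : Γ.Cl (snd α T) :=
  h.preimage (Γ.regM_rm Sum.inr)

theorem PS.snd (h : Γ.PS u T D) (α : Type) [Fintype α] :
    Γ.PS (Sum.map id u) (snd α T) (snd α D) := by
  refine ⟨injective_id.sumMap h.inj, h.cl.snd α, fun t₀ ht hD i hi => ?_, fun t₀ ht hD => ?_⟩
  · rcases i with a | i
    · exact absurd rfl (hi (.inl a))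
    obtain ⟨Q, e, h1, ⟨a, h2⟩, h3⟩ := h.ch _ ht hD i fun j e => hi (.inr j) (congrArg Sum.inr e)
    refine ⟨fun a => rn Sum.inr (Q a), _, fun a => hg_rn Sum.inr_injective (h1 a),
      ⟨a, by rwa [Γ.ev_rn]⟩, fun t ht => ?_⟩
    obtain ⟨l, hl⟩ := h3 _ ht
    exact ⟨l, fun a => (Γ.ev_rn _ _ _).trans (hl a)⟩
  · obtain ⟨w, d, h1, h2, h3⟩ := h.op _ ht hD
    refine ⟨rn Sum.inr w, _, hg_rn Sum.inr_injective h1, by rwa [Γ.ev_rn], fun y hy => ?_⟩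
    rw [Γ.ev_rn] at hy
    obtain ⟨t, h4, h5⟩ := h3 _ hy
    refine ⟨Sum.elim (y ∘ Sum.inl) t, h4, funext ?_⟩
    rintro (a | j)
    exacts [rfl, congrFun h5 j]

theorem snd_fgt (hu : Injective u) {W : Set (κ → X)} (h : ∀ t ∈ T, t ∘ u ∈ W) {x : G I (α ⊕ ι)}
    (hx : x ∈ Γ.Supp (snd α T)) :
    fgt (Sum.map id u) (injective_id.sumMap hu) x ∈ Γ.Supp (snd α W) :=
  Γ.Supp_mono (by rintro _ ⟨t, ht, rfl⟩; exact h _ ht) (Γ.fgt_supp _ _ hx)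

theorem snd_onto (hu : Injective u) :
    Γ.Supp (snd α ((· ∘ u) '' T)) ≤
      (Γ.Supp (snd α T)).map (fgt (Sum.map id u) (injective_id.sumMap hu)) := by
  refine le_trans (Γ.Supp_mono ?_) (Γ.fgt_onto _ _ _)
  rintro y ⟨t, h4, h5⟩
  refine ⟨Sum.elim (y ∘ Sum.inl) t, h4, funext ?_⟩
  rintro (a | j)
  exacts [rfl, congrFun h5 j]

/-- every class is a projection from `T` modulo classes on `D` -/
theorem snd_split (hu : Injective u) (h : ∀ y ∉ D, ∃ t ∈ T, t ∘ u = y) (w : G I (α ⊕ κ)) :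
    w ∈ (Γ.Supp (snd α T)).map (fgt (Sum.map id u) (injective_id.sumMap hu)) ⊔
      Γ.Supp (snd α D) :=
  sup_le_sup_right (snd_onto hu) _ (Γ.Supp_union _ _ (Γ.Supp_mono (fun y _ =>
    (em (y ∘ Sum.inr ∈ D)).symm.imp_left (h _)) (Γ.mem_supp_univ w)))

theorem split (hu : Injective u) (h : ∀ y ∉ D, ∃ t ∈ T, t ∘ u = y) (w : G I κ) :
    w ∈ (Γ.Supp T).map (fgt u hu) ⊔ Γ.Supp D :=
  sup_le_sup_right (Γ.fgt_onto u hu T) _ (Γ.Supp_union _ _ (Γ.Supp_mono (fun y _ =>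
    (em (y ∈ D)).symm.imp_left (h _)) (Γ.mem_supp_univ w)))

theorem box_snd {w : G I ι} (z : G I α) (hw : w ∈ Γ.Supp T) : boxG z w ∈ Γ.Supp (snd α T) :=
  Γ.Supp_mono (fun _ ht => ht.2) (Γ.box_supp (Γ.mem_supp_univ z) hw)

/-- a class whose first projection lives on `D` has its second projection on `Z` -/
theorem PS.bd (h : Γ.PS u T D) (hD : Γ.Cl D) {v : μ → ι} (hv : Injective v) {Z : Set (μ → X)}
    (hZ : ∀ t ∈ T, t ∘ u ∈ D → t ∘ v ∈ Z) {x : G I (α ⊕ ι)} (hx : x ∈ Γ.Supp (Geo.snd α T))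
    (h0 : fgt (Sum.map id u) (injective_id.sumMap h.inj) x ∈ Γ.Supp (Geo.snd α D)) :
    fgt (Sum.map id v) (injective_id.sumMap hv) x ∈ Γ.Supp (Geo.snd α Z) :=
  Γ.Supp_mono (by rintro _ ⟨t, ht, rfl⟩; exact hZ _ ht.1 ht.2)
    (Γ.fgt_supp _ _ ((h.snd α).inj_mod (hD.snd α) hx h0))

theorem Supp_empty (Γ : Geo I X) : Γ.Supp (∅ : Set (ι → X)) ≤ ⊥ :=
  kpt_primes fun _ n _ hl => cy_irr (Irr.mono (J := Γ.VI ∅) (fun α =>
    ⟨1, (Γ.mem_VI (basic_hg_mono α 1)).2 fun _ h => h.elim⟩) hl) n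

end Pool.Agent.Bav.Geo
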