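import Pool.Agent.P.MP_dd457d_ag.Bcv.SdStep
import Pool.Agent.P.MP_dd457d_ag.Bcv.Ext
import Pool.Agent.P.MP_dd457d_ag.Bav.ChartD
import Pool.Agent.P.MP_2ce3e7_ag.Tav.SdCov

/-! Induction over a stratified cone inside a union of projective schemes. -/

set_option autoImplicit false

noncomputable section

namespace Pool.Agent.Bav

open MvPolynomial Function Tav

variable {σ k ι μ τ α X Y : Type} [Field k] {I : Ideal (MvPolynomial σ k)}
  {J : Ideal (MvPolynomial τ k)}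

theorem rg_of_par [Fintype ι] {T : Type} {L : ι → Submodule k (T → k)} {f f' : T → τ → k}
    (h : Rg L (crd f)) (e : ∀ x, Par (f x) (f' x)) : Rg L (crd f') := by
  choose c hc e using e
  refine rg_crd fun t => ?_
  obtain ⟨d, w, hw, h⟩ := h t
  refine ⟨d, w * c, hw.mul (hc t), fun l => ?_⟩
  have : c * (fun s => f' s l) = fun s => f s l := funext fun s => by rw [e s]; rfl
  rw [mul_assoc, this]
  exact h _ (mem_crd f l)

theorem prod_vanish [Fintype ι] {T : Type} {L : ι → Submodule k (T → k)} {a b : T}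
    (h : ∀ i, ∃ c : k, ∀ F ∈ L i, F b = c * F a) {e : ι → ℕ} {F : T → k}
    (hF : F ∈ ∏ i, L i ^ e i) (h0 : F a = 0) : F b = 0 := by
  let R : Submonoid (Submodule k (T → k)) :=
    { carrier := {M | ∃ c : k, ∀ F ∈ M, F b = c * F a}
      one_mem' := ⟨1, fun F hF => by
        obtain ⟨y, rfl⟩ := Submodule.mem_one.1 hF
        exact (one_mul _).symm⟩
      mul_mem' := by
        rintro M N ⟨c, hc⟩ ⟨d, hd⟩
        refine ⟨c * d, fun F hF => Submodule.mul_induction_on hF (fun m hm n hn => ?_)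
          fun x y hx hy => ?_⟩
        · rw [Pi.mul_apply, Pi.mul_apply, hc m hm, hd n hn]
          ring
        · rw [Pi.add_apply, Pi.add_apply, hx, hy, mul_add] }
  obtain ⟨c, hc⟩ := R.prod_mem (t := Finset.univ) fun i _ => R.pow_mem (h i) (e i)
  rw [hc F hF, h0, mul_zero]

theorem crd_scale {T : Type} {p : T → τ → k} {a b : T} {c : k} (h : p b = c • p a) :
    ∀ F ∈ crd p, F b = c * F a := fun F hF => by
  induction hF using Submodule.span_induction with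
  | mem x hx => obtain ⟨l, rfl⟩ := hx; exact congrFun h l
  | zero => exact (mul_zero _).symm
  | add x y _ _ hx hy => rw [Pi.add_apply, Pi.add_apply, hx, hy, mul_add]
  | smul r x _ hx => rw [Pi.smul_apply, Pi.smul_apply, hx, smul_eq_mul, smul_eq_mul, mul_left_comm]

variable [IsAlgClosed k] [Fintype σ] [Fintype ι] [Fintype μ] [Fintype τ] [Fintype α]
  {Γ : Geo I X} {Δ : Geo J Y}

theorem Geo.exists_form (Γ : Geo I X) {T : Type} (s : T → μ → X) {e : μ → ℕ} {F : T → k}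
    (h : F ∈ ∏ m, (crd fun t => Γ.p (s t m)) ^ e m) :
    ∃ U : S σ k μ, Hg U (fun m => e m) ∧ ∀ t, Γ.ev (s t) U = F t := by
  classical
  have e1 := map_Sd (Ω := k) (β := (Prod.fst : μ × σ → μ))
    (fun (v : μ × σ) (t : T) => Γ.p (s t v.1) v.2) e
  rw [blk_fst fun m t => Γ.p (s t m)] at e1
  obtain ⟨U, h1, h2⟩ := e1.ge h
  exact ⟨U, hg_of_Sd h1, fun t =>
    (aeval_fun (fun t (v : μ × σ) => Γ.p (s t v.1) v.2) U t).symm.trans (congrFun h2 t)⟩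

theorem OPart.mem_part {u : τ → σ} {j : Y → X} (h : OPart Γ Δ u j) {A : Set (μ → X)} {m : μ}
    (hA : ∀ s ∈ A, s m ∈ Set.range j) {t : μ → X} (ht : t ∈ Γ.ZS (Γ.VI A)) :
    t m ∈ Set.range j := by
  by_contra e
  obtain ⟨l, hl⟩ := Function.ne_iff.1 (Γ.ne (t m))
  refine hl ((Γ.ev_X t (m, l)).symm.trans (ht _ ((Γ.mem_VI (hg_X (m, l))).2 fun s hs => ?_)))
  obtain ⟨y, hy⟩ := hA s hs
  refine (Γ.ev_X _ _).trans ?_
  rw [← hy]
  refine (congrFun (h.pon y) l).trans (extend_apply' _ _ _ ?_)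
  rintro ⟨a, rfl⟩
  exact hl (h.poff _ e a)

theorem Geo.par_closure (Γ : Geo I X) {Q : σ → S σ k ι} {e : ι → ℤ} (hQ : ∀ a, Hg (Q a) e) (i : μ)
    {A : Set (ι ⊕ μ → X)}
    (h : ∀ t ∈ A, ∃ l : k, ∀ a, Γ.ev (t ∘ Sum.inl) (Q a) = l * Γ.p (t (.inr i)) a)
    {t : ι ⊕ μ → X} (ht : t ∈ Γ.ZS (Γ.VI A)) :
    ∃ l : k, ∀ a, Γ.ev (t ∘ Sum.inl) (Q a) = l * Γ.p (t (.inr i)) a := by
  obtain ⟨b, hb⟩ := Function.ne_iff.1 (Γ.ne (t (.inr i)))
  refine ⟨Γ.ev (t ∘ Sum.inl) (Q b) / Γ.p (t (.inr i)) b, fun a => ?_⟩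
  have h1 : ∀ a b, Hg (rn Sum.inl (Q a) * MvPolynomial.X (Sum.inr i, b) : S σ k (ι ⊕ μ))
      (extend Sum.inl e 0 + wt (Sum.inr i, b)) := fun a b =>
    (hg_rn Sum.inl_injective (hQ a)).mul (hg_X _)
  have := ht _ ((Γ.mem_VI (poly_hg_sub (h1 a b) (h1 b a))).2 fun y hy => by
    obtain ⟨l, hl⟩ := h y hy
    rw [map_sub, map_mul, map_mul, Γ.ev_rn, Γ.ev_rn, Γ.ev_X, Γ.ev_X, hl, hl]
    ring)
  rw [map_sub, map_mul, map_mul, Γ.ev_rn, Γ.ev_rn, Γ.ev_X, Γ.ev_X, sub_eq_zero] at this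
  rw [div_mul_eq_mul_div, eq_div_iff hb]
  exact this

/-- the points of `Y` in a cone -/
def pts (Δ : Geo J Y) (j : Y → X) (W : Set (τ → k)) : Set (Unit → X) :=
  {t | ∃ y, Δ.p y ∈ W ∧ t = fun _ => j y}

variable {C s : ι → Type} [∀ i, Fintype (s i)] {L : ∀ i, Ideal (MvPolynomial (s i) k)}
  {Θ : ∀ i, Geo (L i) (C i)} {v : ∀ i, s i → σ} {jc : ∀ i, C i → X} {u : τ → σ} {j : Y → X}

theorem str_data (hY : OPart Γ Δ u j) (hC : ∀ i, OPart Γ (Θ i) (v i) (jc i))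
    {Z : Set (τ → k)} (V : Set (∀ i, C i)) (f : V → τ → k)
    (h1 : ∀ x ∈ V, Sep (fun i => crd fun t : ∀ i, C i => (Θ i).p (t i)) Vᶜ x) (h2 : ∀ x, f x ≠ 0)
    (h3 : Rg (fun i => crd fun x : V => (Θ i).p (x.1 i)) (crd f))
    (h4 : ∀ x ∉ V, ∀ y ∉ Z, Sep (fun o : Option ι => o.elim (crd Prod.snd)
      fun i => crd fun t : (∀ i, C i) × (τ → k) => (Θ i).p (t.1 i))
        (Set.range fun x : V => (x.1, f x)) (x, y))
    (h5 : ∀ x, f x ∈ zeroLocus k J) :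
    ∃ (T : Set (ι ⊕ Unit → X)) (D : Set (ι → X)), Γ.PS Sum.inl T D ∧ Γ.Cl D ∧
      (∀ y ∉ D, ∃ t ∈ T, t ∘ Sum.inl = y) ∧ (∀ t ∈ T, ∀ i, t (.inl i) ∈ Set.range (jc i)) ∧
      (∀ t ∈ T, t ∘ Sum.inl ∈ D → t ∘ Sum.inr ∈ pts Δ j Z) ∧
      pts Δ j {y | ∃ (a : k) (x : V), y = a • f x} ⊆ (· ∘ Sum.inr) '' T := by
  classical
  choose g hg using fun x => Δ.cl _ (h5 x) (h2 x)
  let emb : (∀ i, C i) → ι → X := fun x i => jc i (x i)
  let pt : (∀ i, C i) × Y → ι ⊕ Unit → X := fun x => Sum.elim (emb x.1) fun _ => j x.2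
  let T₀ : Set (ι ⊕ Unit → X) := Set.range fun x : V => pt (x.1, g x)
  have hD : Γ.Cl (emb '' V)ᶜ := Γ.cl_of_sep fun _ hx' => by
    obtain ⟨x, hx, e0⟩ := not_not.1 hx'
    clear hx'
    subst e0
    obtain ⟨e, F, a, b, c⟩ := h1 x hx
    obtain ⟨U, d, w⟩ := Γ.exists_form emb (e := e) (F := F) (by
      simpa only [emb, fun i => (hC i).crd_pad fun t : ∀ i, C i => t i] using a)
    choose l hl using fun i => Function.ne_iff.1 ((Θ i).ne (x i))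
    refine ⟨U * mono k (fun i => v i (l i)) ^ 1, _, d.mul (basic_hg_mono _ 1), fun y hy => ?_, ?_⟩
    · rw [map_mul, pow_one, Γ.ev_mono]
      by_cases hp : ∀ i, y i ∈ Set.range (jc i)
      · choose z hz using hp
        obtain rfl : emb z = y := funext hz
        rw [w, c z fun hh => hy ⟨z, hh, rfl⟩, zero_mul]
      · obtain ⟨i, hi⟩ := not_forall.1 hp
        rw [Finset.prod_eq_zero (Finset.mem_univ i) ((hC i).poff _ hi _), mul_zero]
    · rw [map_mul, pow_one, Γ.ev_mono, w]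
      exact mul_ne_zero b (Finset.prod_ne_zero_iff.2 fun i _ => ((hC i).p_on _ _).trans_ne (hl i))
  have hon : ∀ y ∉ (emb '' V)ᶜ, ∃ t ∈ Γ.ZS (Γ.VI T₀), t ∘ Sum.inl = y := fun _ hy => by
    obtain ⟨x, hx, rfl⟩ := not_not.1 hy
    exact ⟨_, Γ.subset_ZS _ ⟨⟨x, hx⟩, rfl⟩, rfl⟩
  have hP : ∀ t ∈ Γ.ZS (Γ.VI T₀), ∀ i, t (.inl i) ∈ Set.range (jc i) := fun t ht i =>
    (hC i).mem_part (by rintro _ ⟨x, rfl⟩; exact ⟨_, rfl⟩) ht
  have r1 : Rg (fun i => crd fun x : V => Γ.p (emb x.1 i)) (crd fun x => Γ.p (j (g x))) := by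
    simpa only [emb, hY.crd_pad, fun i => (hC i).crd_pad fun t : V => t.1 i] using rg_of_par h3 hg
  refine ⟨_, _, ⟨Sum.inl_injective, Γ.cl_ZS (Γ.grI_VI _), fun t₀ _ h0 i hi => ?_,
    fun t₀ _ h0 => ?_⟩, hD, hon, hP, fun t ht h0 => ?_, ?_⟩
  · rcases i with i | i
    · exact absurd rfl (hi i)
    obtain ⟨x, hx, e0⟩ := not_not.1 h0
    obtain ⟨e, w, hw, h⟩ := r1 ⟨x, hx⟩
    choose Q q1 q2 using fun a => Γ.exists_form (fun x : V => emb x.1)
      (h _ (mem_crd (fun x => Γ.p (j (g x))) a))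
    refine ⟨Q, _, q1, ?_, fun t ht => ?_⟩
    · obtain ⟨a, ha⟩ := Function.ne_iff.1 (Γ.ne (j (g ⟨x, hx⟩)))
      exact ⟨a, e0 ▸ (q2 a ⟨x, hx⟩).trans_ne (mul_ne_zero hw.ne_zero ha)⟩
    · refine Γ.par_closure q1 i ?_ ht
      rintro _ ⟨y, rfl⟩
      exact ⟨w y, fun a => q2 a y⟩
  · obtain ⟨w, d, a, b, c⟩ := hD.sep h0
    exact ⟨w, d, a, c, fun y hy => hon y fun hh => hy (b y hh)⟩
  · choose x hx using hP t ht
    obtain ⟨y, hy⟩ := hY.mem_part (m := Sum.inr ()) (by rintro _ ⟨x, rfl⟩; exact ⟨_, rfl⟩) ht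
    obtain rfl : pt (x, y) = t := funext (by
      rintro (i | i)
      exacts [hx i, hy])
    refine ⟨y, not_not.1 fun hz => ?_, rfl⟩
    obtain ⟨e, F, a, b, c⟩ := h4 x (fun hh => h0 ⟨x, hh, rfl⟩) _ hz
    have a' := Submodule.mem_map_of_mem
      (f := (sdPb k fun z : (∀ i, C i) × Y => (z.1, Δ.p z.2)).toLinearMap) a
    rw [sd_prod_map, Fintype.prod_option] at a'
    simp only [Option.elim, sd_crd_map] at a'
    obtain ⟨U, d, w⟩ := Γ.exists_form pt (e := Sum.elim (fun i => e (some i)) fun _ => e none)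
      (F := fun z => F (z.1, Δ.p z.2)) (by
        rw [Fintype.prod_sum_type, Fintype.prod_unique (M := Submodule k _) (ι := Unit), mul_comm]
        simp only [pt, emb, Sum.elim_inl, Sum.elim_inr, hY.crd_pad,
          fun i => (hC i).crd_pad fun t : (∀ i, C i) × Y => t.1 i]
        exact a')
    refine b ((w _).symm.trans (ht U ((Γ.mem_VI d).2 ?_)))
    rintro _ ⟨z, rfl⟩
    obtain ⟨r, hr, hz⟩ := par_symm (hg z)
    refine (w _).trans (prod_vanish (a := (z.1, f z)) (fun o => ?_) a (c _ ⟨z, rfl⟩))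
    rcases o with _ | i
    · exact ⟨r, crd_scale hz⟩
    · exact ⟨1, crd_scale (one_smul _ _).symm⟩
  · rintro _ ⟨y, ⟨a, x, hy⟩, rfl⟩
    have ha : a ≠ 0 := fun h => Δ.ne y (by rw [hy, h, zero_smul])
    obtain rfl : y = g x := Δ.inj _ _ (par_trans ⟨a, ha.isUnit, hy⟩ (hg x))
    exact ⟨_, Γ.subset_ZS _ ⟨x, rfl⟩, rfl⟩

/-- induction over a stratified cone -/
theorem str_ind (hY : OPart Γ Δ u j) (hC : ∀ i, OPart Γ (Θ i) (v i) (jc i))
    {U : Submodule ℂ (G I (α ⊕ Unit))}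
    (H : ∀ (T : Set (ι ⊕ Unit → X)) (D : Set (ι → X)), Γ.Cl T →
      (∀ y ∉ D, ∃ t ∈ T, t ∘ Sum.inl = y) → (∀ t ∈ T, ∀ i, t (.inl i) ∈ Set.range (jc i)) →
      (∀ x ∈ Γ.Supp (Geo.snd α T),
        fgt (Sum.map id Sum.inl) (injective_id.sumMap Sum.inl_injective) x ∈ Γ.Supp (Geo.snd α D) →
        fgt (Sum.map id Sum.inr) (injective_id.sumMap Sum.inr_injective) x ∈ U) →
      ∀ x ∈ Γ.Supp (Geo.snd α T),
        fgt (Sum.map id Sum.inr) (injective_id.sumMap Sum.inr_injective) x ∈ U)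
    {W : Set (τ → k)} (h : Str (fun i (t : ∀ i, C i) => (Θ i).p (t i)) W) :
    W ⊆ zeroLocus k J → Γ.Supp (Geo.snd α (pts Δ j W)) ≤ U := by
  induction h with
  | nil =>
    refine fun _ => le_trans (Γ.Supp_mono ?_) (Γ.Supp_empty.trans bot_le)
    rintro t ⟨y, hy, -⟩
    exact Δ.ne y hy
  | @step Z V f _ h1 h2 h3 h4 ih =>
    intro hW
    replace ih := ih (Set.subset_union_left.trans hW)
    obtain ⟨T, D, a, b, c, d, e, g⟩ := str_data hY hC V f h1 h2 h3 h4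
      fun x => hW (Or.inr ⟨1, x, (one_smul _ _).symm⟩)
    refine le_trans (Γ.Supp_mono (T' := Geo.snd α (pts Δ j Z) ∪ Geo.snd α ((· ∘ Sum.inr) '' T)) ?_)
      ((Γ.Supp_union _ _).trans (sup_le ih ((Geo.snd_onto Sum.inr_injective).trans ?_)))
    · rintro t ⟨y, hy | hy, ht⟩
      exacts [Or.inl ⟨y, hy, ht⟩, Or.inr (g ⟨y, hy, ht⟩)]
    · rintro _ ⟨x, hx, rfl⟩
      exact H T D a.cl c d (fun x hx h0 => ih (a.bd b Sum.inr_injective e hx h0)) x hx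

end Pool.Agent.Bav
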